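import Pool.Agent.Lib.MP_a247fa_nt.Dens.Basin

/-!
The density is countably additive on completely invariant sets.
-/

set_option autoImplicit false

namespace Pool.Agent.Lib.MP_a247fa_nt.Dens

open Real Set MeasureTheory Filter Topology

lemma mass_union {A B : Set ℝ} (hB : MeasurableSet B) (hd : Disjoint A B) (k : ℕ) :
    mass (A ∪ B) k = mass A k + mass B k := by
  unfold mass
  rw [union_inter_distrib_right, measure_union
    (hd.mono inter_subset_left inter_subset_left) (hB.inter measurableSet_Ico),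
    ENNReal.toReal_add (window_lt_top A k).ne (window_lt_top B k).ne]
  ring

lemma mass_tail {R : ℕ → Set ℝ} (hm : ∀ n, MeasurableSet (R n)) (hanti : Antitone R)
    (hempty : ⋂ n, R n = ∅) (k : ℕ) : Tendsto (fun n => mass (R n) k) atTop (𝓝 0) := by
  have h1 : Tendsto (fun n => volume (R n ∩ Ico (2 * k : ℝ) (2 * k + 2))) atTop
      (𝓝 (volume (⋂ n, (R n ∩ Ico (2 * k : ℝ) (2 * k + 2))))) := by
    apply tendsto_measure_iInter_atTop
    · intro n; exact ((hm n).inter measurableSet_Ico).nullMeasurableSet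
    · intro m n hmn; exact inter_subset_inter_left _ (hanti hmn)
    · exact ⟨0, (window_lt_top _ k).ne⟩
  rw [← iInter_inter, hempty, empty_inter, measure_empty] at h1
  have h2 := (ENNReal.tendsto_toReal ENNReal.zero_ne_top).comp h1
  have h3 := h2.div_const 2
  simpa [mass] using h3

lemma density_tail {R : ℕ → Set ℝ} (hm : ∀ n, MeasurableSet (R n)) (hc : ∀ n, CInv (R n))
    (hanti : Antitone R) (hempty : ⋂ n, R n = ∅) {d : ℕ → ℝ}
    (hd : ∀ n, Tendsto (mass (R n)) atTop (𝓝 (d n))) : Tendsto d atTop (𝓝 0) := by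
  rw [Metric.tendsto_atTop]
  intro ε hε
  have hsq : Tendsto (fun M : ℕ => 600 / √(M : ℝ)) atTop (𝓝 0) := by
    apply Tendsto.div_atTop tendsto_const_nhds
    exact Real.tendsto_sqrt_atTop.comp tendsto_natCast_atTop_atTop
  obtain ⟨N, hN⟩ := eventually_atTop.1 (hsq.eventually (gt_mem_nhds (by positivity : 0 < ε / 4)))
  set J := N + 200 with hJ
  have hJ2 := hN J (by omega)
  have h1 : ∀ i ∈ Finset.range J, ∀ᶠ n in atTop, mass (R n) i < ε / 4 := fun i _ =>
    (mass_tail hm hanti hempty i).eventually (gt_mem_nhds (by positivity))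
  obtain ⟨n0, hn0⟩ := eventually_atTop.1 ((Finset.eventually_all (Finset.range J)).2 h1)
  refine ⟨n0, fun n hn => ?_⟩
  have h2 := upper_comparison (a := mass (R n)) (J := J) (s := ε / 4) (by omega)
    (mass_le_one _) (fun i _ hi => (hn0 n hn i (Finset.mem_range.2 hi)).le)
    (fun j hj => mass_le_Nop (by omega) (hm n) (hc n).fwd)
  have h3 : d n ≤ ε / 4 + 600 / √(J : ℝ) := by
    refine le_of_tendsto (hd n) ?_
    filter_upwards [eventually_ge_atTop J] with k hk
    exact h2 k (by omega)
  have h4 : 0 ≤ d n := ge_of_tendsto' (hd n) (mass_nonneg _)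
  rw [Real.dist_eq, sub_zero, abs_of_nonneg h4]
  linarith

/-- **Countable additivity.** -/
theorem density_additive {B : ℕ → Set ℝ} (hm : ∀ n, MeasurableSet (B n)) (hc : ∀ n, CInv (B n))
    (hdisj : Pairwise (Function.onFun Disjoint B)) {d : ℕ → ℝ}
    (hd : ∀ n, Tendsto (mass (B n)) atTop (𝓝 (d n))) :
    ∃ s : ℝ, HasSum d s ∧ Tendsto (mass (⋃ n, B n)) atTop (𝓝 s) := by
  set R : ℕ → Set ℝ := fun n => ⋃ i, B (n + i) with hR
  have hRm : ∀ n, MeasurableSet (R n) := fun n => MeasurableSet.iUnion fun i => hm _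
  have hRc : ∀ n, CInv (R n) := by
    intro n x hx
    simp only [hR, mem_iUnion]
    exact exists_congr fun i => hc _ x hx
  have hanti : Antitone R := by
    intro m n hmn x hx
    simp only [hR, mem_iUnion] at hx ⊢
    obtain ⟨i, hi⟩ := hx
    exact ⟨n - m + i, by rwa [show m + (n - m + i) = n + i by omega]⟩
  have hempty : ⋂ n, R n = ∅ := by
    ext x
    simp only [hR, mem_iInter, mem_iUnion, mem_empty_iff_false, iff_false, not_forall]
    by_contra hcon
    push Not at hcon
    obtain ⟨i, hi⟩ := hcon 0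
    obtain ⟨j, hj⟩ := hcon (0 + i + 1)
    have := hdisj (show 0 + i ≠ 0 + i + 1 + j by omega)
    exact Set.disjoint_left.1 this hi hj
  have hstep : ∀ n k, mass (R n) k = mass (B n) k + mass (R (n + 1)) k := by
    intro n k
    have e : R n = B n ∪ R (n + 1) := by
      ext x
      simp only [hR, mem_iUnion, mem_union]
      constructor
      · rintro ⟨i, hi⟩
        rcases Nat.eq_zero_or_pos i with h | h
        · left; rw [h] at hi; exact hi
        · right; exact ⟨i - 1, by rwa [show n + 1 + (i - 1) = n + i by omega]⟩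
      · rintro (h | ⟨i, hi⟩)
        · exact ⟨0, h⟩
        · exact ⟨1 + i, by rwa [show n + (1 + i) = n + 1 + i by omega]⟩
    rw [e, mass_union (hRm _)]
    rw [Set.disjoint_left]
    intro x h1 h2
    simp only [hR, mem_iUnion] at h2
    obtain ⟨i, hi⟩ := h2
    exact Set.disjoint_left.1 (hdisj (show n ≠ n + 1 + i by omega)) h1 hi
  choose r hr _ using fun n => mass_limit (hRm n) (hRc n)
  have hr2 : ∀ n, r n = d n + r (n + 1) := by
    intro n
    have h1 : Tendsto (mass (R n)) atTop (𝓝 (d n + r (n + 1))) := by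
      have : mass (R n) = fun k => mass (B n) k + mass (R (n + 1)) k := funext (hstep n)
      rw [this]
      exact (hd n).add (hr (n + 1))
    exact tendsto_nhds_unique (hr n) h1
  have hsum : ∀ n, ∑ i ∈ Finset.range n, d i = r 0 - r n := by
    intro n
    induction n with
    | zero => simp
    | succ n ih => rw [Finset.sum_range_succ, ih, hr2 n]; ring
  have hd0 : ∀ n, 0 ≤ d n := fun n => ge_of_tendsto' (hd n) (mass_nonneg _)
  refine ⟨r 0, ?_, ?_⟩
  · rw [hasSum_iff_tendsto_nat_of_nonneg hd0]
    have h1 : Tendsto (fun n => r 0 - r n) atTop (𝓝 (r 0 - 0)) :=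
      tendsto_const_nhds.sub (density_tail hRm hRc hanti hempty hr)
    rw [sub_zero] at h1
    exact h1.congr fun n => (hsum n).symm
  · have e : (⋃ n, B n) = R 0 := by simp [hR]
    rw [e]
    exact hr 0

end Pool.Agent.Lib.MP_a247fa_nt.Dens
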