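import Pool.Agent.Lib.MP_a247fa_nt.Dens.Mass

/-!
Few orbits of `cf` stay above a large bound.
-/

set_option autoImplicit false

namespace Pool.Agent.Lib.MP_a247fa_nt.Dens

open Real Set MeasureTheory Filter Topology

/-- The starting points whose whole orbit stays above `Y`. -/
def stay (Y : ℝ) : Set ℝ := {x | ∀ k : ℕ, Y ≤ cf^[k] x}

lemma measurableSet_stay (Y : ℝ) : MeasurableSet (stay Y) := by
  have : stay Y = ⋂ k : ℕ, (cf^[k]) ⁻¹' Ici Y := by
    ext x; simp [stay]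
  rw [this]
  exact MeasurableSet.iInter fun k => (continuous_cf.iterate k).measurable measurableSet_Ici

lemma stay_subset (Y : ℝ) : stay Y ⊆ Ici Y := fun _ hx => hx 0

lemma stay_inv {Y x : ℝ} (hx : x ∈ stay Y) : cf x ∈ stay Y := fun k => hx (k + 1)

lemma mass_stay_zero {Y : ℝ} {i : ℕ} (h : (2 * i + 2 : ℝ) ≤ Y) : mass (stay Y) i = 0 := by
  have : stay Y ∩ Ico (2 * i : ℝ) (2 * i + 2) = ∅ := by
    ext x
    simp only [mem_inter_iff, mem_Ico, mem_empty_iff_false, iff_false, not_and]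
    intro h1 _ h3
    have := stay_subset Y h1
    rw [mem_Ici] at this
    linarith
  rw [mass, this]; simp

lemma mass_stay_le {Y : ℝ} (hY : 400 ≤ Y) (j : ℕ) : mass (stay Y) j ≤ 600 / √(⌊Y / 2⌋₊ : ℝ) := by
  have hJ : 200 ≤ ⌊Y / 2⌋₊ := Nat.le_floor (by push_cast; linarith)
  rcases lt_or_ge (2 * j + 1) ⌊Y / 2⌋₊ with h | h
  · have h1 : (⌊Y / 2⌋₊ : ℝ) ≤ Y / 2 := Nat.floor_le (by linarith)
    have h2 : ((2 * j + 1 : ℕ) : ℝ) < ⌊Y / 2⌋₊ := by exact_mod_cast h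
    push_cast at h2
    rw [mass_stay_zero]
    · positivity
    · linarith
  · have := upper_comparison (a := mass (stay Y)) (s := 0) hJ (mass_le_one _) ?_ ?_ j h
    · linarith
    · intro i _ hi
      rw [mass_stay_zero]
      have h1 : (⌊Y / 2⌋₊ : ℝ) ≤ Y / 2 := Nat.floor_le (by linarith)
      have h2 : ((i + 1 : ℕ) : ℝ) ≤ ⌊Y / 2⌋₊ := by exact_mod_cast hi
      push_cast at h2
      linarith
    · intro j hj
      exact mass_le_Nop (hJ.trans hj) (measurableSet_stay Y) (fun x _ hx => stay_inv hx)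

/-- **Almost all orbits come down.** -/
theorem almost_bounded (Y : ℝ) (hY : 0 < Y) (t : ℝ) (ht : 0 ≤ t) :
    volume ({x | ∀ k : ℕ, Y ≤ cf^[k] x} ∩ Icc t (t + 2)) ≤ ENNReal.ofReal (4000 / √Y) := by
  have hsY : 0 < √Y := Real.sqrt_pos.2 hY
  rcases lt_or_ge Y 400 with h | h
  · refine (measure_mono inter_subset_right).trans ?_
    rw [Real.volume_Icc]
    apply ENNReal.ofReal_le_ofReal
    have h1 : √Y ≤ 20 := by
      rw [show (20 : ℝ) = √400 by
        rw [show (400 : ℝ) = 20 ^ 2 by norm_num, Real.sqrt_sq (by norm_num)]]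
      exact Real.sqrt_le_sqrt h.le
    rw [le_div_iff₀ hsY]
    linarith
  · set j := ⌊t / 2⌋₊ with hj
    have hj1 : (j : ℝ) ≤ t / 2 := Nat.floor_le (by linarith)
    have hj2 : t / 2 < j + 1 := Nat.lt_floor_add_one _
    have hsub : stay Y ∩ Icc t (t + 2) ⊆ (stay Y ∩ Ico (2 * j : ℝ) (2 * j + 2)) ∪
        (stay Y ∩ Ico (2 * (j + 1 : ℕ) : ℝ) (2 * (j + 1 : ℕ) + 2)) := by
      rintro x ⟨h1, h2, h3⟩
      rcases lt_or_ge x (2 * j + 2) with h4 | h4
      · exact Or.inl ⟨h1, by linarith, h4⟩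
      · refine Or.inr ⟨h1, ?_, ?_⟩ <;> push_cast <;> linarith
    have hm : ∀ i : ℕ, volume (stay Y ∩ Ico (2 * i : ℝ) (2 * i + 2)) =
        ENNReal.ofReal (2 * mass (stay Y) i) := by
      intro i
      have : 2 * mass (stay Y) i = (volume (stay Y ∩ Ico (2 * i : ℝ) (2 * i + 2))).toReal := by
        unfold mass; ring
      rw [this, ENNReal.ofReal_toReal (window_lt_top _ _).ne]
    refine (measure_mono hsub).trans ((measure_union_le _ _).trans ?_)
    rw [hm, hm, ← ENNReal.ofReal_add (by have := mass_nonneg (stay Y) j; positivity)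
      (by have := mass_nonneg (stay Y) (j + 1); positivity)]
    apply ENNReal.ofReal_le_ofReal
    have h1 := mass_stay_le h j
    have h2 := mass_stay_le h (j + 1)
    have h3 : Y / 2 < (⌊Y / 2⌋₊ : ℝ) + 1 := Nat.lt_floor_add_one _
    have hJp : 0 < √(⌊Y / 2⌋₊ : ℝ) := Real.sqrt_pos.2 (by linarith)
    have h4 : 2400 / √(⌊Y / 2⌋₊ : ℝ) ≤ 4000 / √Y := by
      rw [div_le_div_iff₀ hJp hsY]
      have : 3 / 5 * √Y ≤ √(⌊Y / 2⌋₊ : ℝ) := by
        apply le_of_sq_le_sq _ hJp.le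
        rw [mul_pow, Real.sq_sqrt hY.le, Real.sq_sqrt (by positivity)]
        linarith
      linarith
    have h5 : 2400 / √(⌊Y / 2⌋₊ : ℝ) = 2 * (600 / √(⌊Y / 2⌋₊ : ℝ)) + 2 * (600 / √(⌊Y / 2⌋₊ : ℝ)) := by
      ring
    linarith

end Pool.Agent.Lib.MP_a247fa_nt.Dens
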