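import Pool.Agent.Lib.MP_a247fa_nt.Basic

/-!
# Definitions used in the statements on densities and basins
-/

set_option autoImplicit false

namespace Pool.Agent.Lib.MP_a247fa_nt.Dens

open Set MeasureTheory Filter Topology Function

/-- `B` has density `d`: on the intervals `[t, t+h]` of any fixed length `h` as `t → ∞`, and on
the intervals `[0, X]` as `X → ∞`. -/
def HasDensity (B : Set ℝ) (d : ℝ) : Prop :=
  (∀ h : ℝ, 0 < h →
    Tendsto (fun t : ℝ => (volume (B ∩ Icc t (t + h))).toReal / h) atTop (𝓝 d)) ∧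
  Tendsto (fun X : ℝ => (volume (B ∩ Icc 0 X)).toReal / X) atTop (𝓝 d)

/-- The orbit of `x`. -/
def orb (x : ℝ) : Set ℝ := range fun i : ℕ => cf^[i] x

/-- The points `y > 0` whose orbit converges to the set `O`. -/
def attracted (O : Set ℝ) : Set ℝ :=
  {y | 0 < y ∧ Tendsto (fun k : ℕ => Metric.infDist (cf^[k] y) O) atTop (𝓝 0)}

/-- The points `y > 0` whose orbit converges neither to `{1, 2}` nor to `{a, b}`. -/
def unattracted (a b : ℝ) : Set ℝ := {y | 0 < y ∧ y ∉ attracted {1, 2} ∧ y ∉ attracted {a, b}}

/-- The immediate basin of the periodic point `x` of minimal period `p`: the connected component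
containing `x` of the set of all `y` with `cf^(pk) y → x` as `k → ∞`. -/
def immBasin (x : ℝ) : Set ℝ :=
  connectedComponentIn {y | Tendsto (fun k : ℕ => (cf^[minimalPeriod cf x])^[k] y) atTop (𝓝 x)} x

end Pool.Agent.Lib.MP_a247fa_nt.Dens
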