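import Pool.Agent.Lib.MP_a247fa_nt.Dens.Basin
import Pool.Agent.Lib.MP_a247fa_nt.Dens.Defs
import Pool.Agent.Lib.MP_a247fa_nt.IntCycles
import Pool.Agent.Lib.MP_a247fa_nt.Singer2

/-!
Basins of attracting cycles as completely invariant sets.
-/

set_option autoImplicit false

namespace Pool.Agent.Lib.MP_a247fa_nt.Dens

open Real Set MeasureTheory Filter Topology Function

lemma measurableSet_attracted (O : Set ℝ) : MeasurableSet (attracted O) := by
  have h : MeasurableSet {y : ℝ | Tendsto (fun k : ℕ => Metric.infDist (cf^[k] y) O) atTop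
      (𝓝 0)} := by
    apply measurableSet_tendsto
    intro k
    exact ((Metric.continuous_infDist_pt O).comp (continuous_cf.iterate k)).measurable
  exact measurableSet_Ioi.inter h

lemma cinv_attracted (O : Set ℝ) : CInv (attracted O) := by
  intro x hx
  simp only [attracted, mem_ofPred_eq, hx, cf_pos x hx, true_and, ← iterate_succ_apply]
  exact (tendsto_add_atTop_iff_nat (f := fun k : ℕ => Metric.infDist (cf^[k] x) O) 1).symm

lemma orb_nonempty (x : ℝ) : (orb x).Nonempty := range_nonempty _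

/-- points of the basin are attracted by the orbit. -/
lemma tendsto_infDist_of_basin {z y : ℝ} (hz : 0 < minimalPeriod cf z) (hy : y ∈ basinOf z) :
    Tendsto (fun k : ℕ => Metric.infDist (cf^[k] y) (orb z)) atTop (𝓝 0) := by
  set p := minimalPeriod cf z with hp
  have hy' : Tendsto (fun k : ℕ => (cf^[p])^[k] y) atTop (𝓝 z) := hy
  rw [Metric.tendsto_atTop]
  intro ε hε
  have h1 : ∀ r ∈ Finset.range p, ∀ᶠ q : ℕ in atTop,
      dist (cf^[r] ((cf^[p])^[q] y)) (cf^[r] z) < ε := by
    intro r _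
    have : Tendsto (fun q : ℕ => cf^[r] ((cf^[p])^[q] y)) atTop (𝓝 (cf^[r] z)) :=
      ((continuous_cf.iterate r).tendsto z).comp hy'
    exact this.eventually (Metric.ball_mem_nhds _ hε)
  have h2 := (Finset.eventually_all (Finset.range p)).2 h1
  obtain ⟨Q, hQ⟩ := eventually_atTop.1 h2
  refine ⟨p * Q, fun k hk => ?_⟩
  have hq : Q ≤ k / p := (Nat.le_div_iff_mul_le hz).2 (by rw [mul_comm]; exact hk)
  have hr : k % p < p := Nat.mod_lt _ hz
  have h3 := hQ (k / p) hq (k % p) (Finset.mem_range.2 hr)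
  rw [← iterate_mul, ← iterate_add_apply, Nat.mod_add_div] at h3
  rw [Real.dist_eq, sub_zero, abs_of_nonneg Metric.infDist_nonneg]
  exact (Metric.infDist_le_dist_of_mem (mem_range_self (k % p))).trans_lt h3

lemma basin_subset {x y : ℝ} {i : ℕ} (hx : 0 < minimalPeriod cf x) (hy0 : 0 < y)
    (hy : y ∈ basinOf (cf^[i] x)) : y ∈ attracted (orb x) := by
  refine ⟨hy0, ?_⟩
  have hper : x ∈ periodicPts cf := minimalPeriod_pos_iff_mem_periodicPts.1 hx
  have hmp : minimalPeriod cf (cf^[i] x) = minimalPeriod cf x := minimalPeriod_apply_iterate hper i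
  have h1 := tendsto_infDist_of_basin (z := cf^[i] x) (by rw [hmp]; exact hx) hy
  refine squeeze_zero (fun k => Metric.infDist_nonneg) (fun k => ?_) h1
  apply Metric.infDist_le_infDist_of_subset _ (orb_nonempty _)
  rintro _ ⟨j, rfl⟩
  exact ⟨j + i, by simp only [iterate_add_apply]⟩

lemma one_lt_critical {c : ℝ} (h0 : 0 < c) (hc : dcf c = 0) : 1 < c := by
  by_contra h
  push Not at h
  have hpi := Real.pi_pos
  have hs : 0 ≤ sin (π * c) := Real.sin_nonneg_of_nonneg_of_le_pi (by positivity) (by nlinarith)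
  have hcos := Real.cos_le_one (π * c)
  have : 0 ≤ (2 * c + 1) * π / 4 * sin (π * c) := by positivity
  rw [dcf] at hc
  linarith

lemma isAttracting_iterate {x : ℝ} (hx : IsAttracting x) (i : ℕ) : IsAttracting (cf^[i] x) := by
  induction i with
  | zero => exact hx
  | succ i ih => rw [iterate_succ_apply']; exact isAttracting_cf ih

/-- The basin of an attracting cycle is not null on `[1, ∞)`. -/
theorem attracted_pos {x : ℝ} (hx0 : 0 < x) (hx : IsAttracting x) :
    0 < volume (attracted (orb x) ∩ Ici 1) := by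
  obtain ⟨i, c, hc, hdc⟩ := singer hx0 hx
  have hxi := isAttracting_iterate hx i
  have hxi0 : 0 < cf^[i] x := by
    clear hc hxi
    induction i with
    | zero => exact hx0
    | succ i ih => rw [iterate_succ_apply']; exact cf_pos _ ih
  obtain ⟨α, β, hα, -, -, hW, -, -⟩ := immediateBasin_eq_Ioo hxi0 hxi
  have hc0 : 0 < c := by rw [hW] at hc; exact hα.trans_lt hc.1
  have hc1 := one_lt_critical hc0 hdc
  have hcb : c ∈ basinOf (cf^[i] x) := connectedComponentIn_subset _ _ hc
  have hopen : IsOpen (basinOf (cf^[i] x) ∩ Ioi 1) := (isOpen_basinOf hxi).inter isOpen_Ioi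
  have hpos := hopen.measure_pos volume ⟨c, hcb, hc1⟩
  refine hpos.trans_le (measure_mono ?_)
  rintro y ⟨hy, hy1⟩
  rw [mem_Ioi] at hy1
  exact ⟨basin_subset hx.1 (by linarith) hy, hy1.le⟩

/-- Orbits cannot converge to two finite sets at positive distance. -/
lemma not_both {O₁ O₂ : Set ℝ} (h1 : IsCompact O₁) (h2 : IsCompact O₂) (hn1 : O₁.Nonempty)
    (hn2 : O₂.Nonempty) (hd : Disjoint O₁ O₂) {u : ℕ → ℝ}
    (t1 : Tendsto (fun k => Metric.infDist (u k) O₁) atTop (𝓝 0))
    (t2 : Tendsto (fun k => Metric.infDist (u k) O₂) atTop (𝓝 0)) : False := by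
  obtain ⟨r, hr, hdist⟩ := hd.exists_thickenings h1 h2.isClosed
  have e1 : ∀ᶠ k in atTop, Metric.infDist (u k) O₁ < r := t1.eventually (gt_mem_nhds hr)
  have e2 : ∀ᶠ k in atTop, Metric.infDist (u k) O₂ < r := t2.eventually (gt_mem_nhds hr)
  obtain ⟨k, k1, k2⟩ := (e1.and e2).exists
  have m1 : u k ∈ Metric.thickening r O₁ := (Metric.mem_thickening_iff_infDist_lt hn1).2 k1
  have m2 : u k ∈ Metric.thickening r O₂ := (Metric.mem_thickening_iff_infDist_lt hn2).2 k2
  exact Set.disjoint_left.1 hdist m1 m2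

lemma orb_finite {x : ℝ} (hx : 0 < minimalPeriod cf x) : (orb x).Finite := by
  have hsub : orb x ⊆ (fun i : ℕ => cf^[i] x) '' (Finset.range (minimalPeriod cf x)) := by
    rintro _ ⟨i, rfl⟩
    refine ⟨i % minimalPeriod cf x, ?_, ?_⟩
    · rw [Finset.mem_coe, Finset.mem_range]; exact Nat.mod_lt _ hx
    · simp only [iterate_mod_minimalPeriod_eq]
  exact ((Finset.finite_toSet _).image _).subset hsub

lemma orb_disjoint {x : ℝ} (hx : 0 < minimalPeriod cf x) {O : Set ℝ} (hO : MapsTo cf O O)
    (hxO : x ∉ O) : Disjoint (orb x) O := by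
  rw [Set.disjoint_left]
  rintro _ ⟨i, rfl⟩ hi
  apply hxO
  have h1 : ∀ n : ℕ, cf^[n] (cf^[i] x) ∈ O := fun n => hO.iterate n hi
  have h2 := h1 (i * (minimalPeriod cf x) - i)
  rw [← iterate_add_apply] at h2
  have h3 : i * minimalPeriod cf x - i + i = i * minimalPeriod cf x :=
    Nat.sub_add_cancel (Nat.le_mul_of_pos_right i hx)
  rw [h3] at h2
  have h4 : cf^[i * minimalPeriod cf x] x = x :=
    ((isPeriodicPt_minimalPeriod cf x).const_mul i)
  rwa [h4] at h2

lemma measurableSet_unattracted (a b : ℝ) : MeasurableSet (unattracted a b) :=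
  measurableSet_Ioi.inter
    ((measurableSet_attracted _).compl.inter (measurableSet_attracted _).compl)

lemma cinv_unattracted (a b : ℝ) : CInv (unattracted a b) := by
  intro x hx
  have h1 := cinv_attracted {1, 2} x hx
  have h2 := cinv_attracted {a, b} x hx
  simp only [unattracted, mem_ofPred_eq, hx, cf_pos x hx, true_and]
  rw [h1, h2]

lemma attracted_subset_unattracted {a b x : ℝ} (hab : cf a = b) (hba : cf b = a)
    (hx : 0 < minimalPeriod cf x) (h1 : x ≠ 1) (h2 : x ≠ 2) (ha : x ≠ a) (hb : x ≠ b) :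
    attracted (orb x) ⊆ unattracted a b := by
  rintro y ⟨hy0, hy⟩
  have cf_one' : cf 1 = 2 := by
    have := cf_natCast 1
    simpa [T] using this
  have cf_two' : cf 2 = 1 := by
    have := cf_natCast 2
    simpa [T] using this
  have hc := (orb_finite hx).isCompact
  refine ⟨hy0, fun h => ?_, fun h => ?_⟩
  · refine not_both hc (Set.toFinite {(1 : ℝ), 2}).isCompact (orb_nonempty x) ⟨1, by simp⟩
      (orb_disjoint hx ?_ (by simp [h1, h2])) hy h.2
    rintro z (rfl | rfl)
    · rw [cf_one']; simp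
    · rw [cf_two']; simp
  · refine not_both hc (Set.toFinite {a, b}).isCompact (orb_nonempty x) ⟨a, by simp⟩
      (orb_disjoint hx ?_ (by simp [ha, hb])) hy h.2
    rintro z (rfl | rfl)
    · rw [hab]; simp
    · rw [hba]; simp

/-- An integer whose trajectory does not reach `1` gives a set of positive measure of points
attracted neither by `{1, 2}` nor by `{a, b}`. -/
lemma trap_subset_unattracted {a b : ℝ} (ha : a < 5 / 2) (hb : b < 5 / 2) {n : ℕ} (hn : 0 < n)
    (hT : ∀ k, T^[k] n ≠ 1) : trapI n ⊆ unattracted a b := by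
  intro y hy
  have h3 : ∀ k, 3 ≤ cf^[k] y := by
    intro k
    obtain ⟨k1, k2⟩ := iter_mem_trap hn hy k
    have k3 : T^[k] n ≠ 2 := by
      intro h
      apply hT (k + 1)
      rw [iterate_succ_apply', h]; rfl
    have k4 := hT k
    have k5 : 3 ≤ T^[k] n := by omega
    have k6 : (3 : ℝ) ≤ (T^[k] n : ℕ) := by exact_mod_cast k5
    exact k6.trans k2.1
  have hy0 : 0 < y := by
    have := h3 0
    simp only [iterate_zero, id_eq] at this
    linarith
  have key : ∀ u v : ℝ, u < 5 / 2 → v < 5 / 2 → y ∉ attracted {u, v} := by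
    intro u v hu hv h
    have h1 := h.2.eventually (gt_mem_nhds (by norm_num : (0 : ℝ) < 1 / 2))
    obtain ⟨k, hk⟩ := h1.exists
    rw [Metric.infDist_lt_iff ⟨u, by simp⟩] at hk
    obtain ⟨z, hz, hzd⟩ := hk
    have h2 := h3 k
    rw [Real.dist_eq, abs_lt] at hzd
    rcases hz with rfl | rfl <;> linarith [hzd.2]
  exact ⟨hy0, key 1 2 (by norm_num) (by norm_num), key a b ha hb⟩

end Pool.Agent.Lib.MP_a247fa_nt.Dens
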