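import Pool.Agent.Lib.MP_a247fa_nt.Dens.Interval

/-!
Completely invariant sets have a density.
-/

set_option autoImplicit false

namespace Pool.Agent.Lib.MP_a247fa_nt.Dens

open Real Set MeasureTheory Filter Topology

/-- `B` is completely invariant on `(0, ∞)`. -/
def CInv (B : Set ℝ) : Prop := ∀ x : ℝ, 0 < x → (x ∈ B ↔ cf x ∈ B)

lemma cf_zero' : cf 0 = 0 := by simp [cf]

lemma CInv.fwd {B : Set ℝ} (hB : CInv B) (x : ℝ) (hx : 0 ≤ x) (h : x ∈ B) : cf x ∈ B := by
  rcases hx.eq_or_lt with rfl | h0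
  · rw [cf_zero']; exact h
  · exact (hB x h0).1 h

lemma CInv.bwd {B : Set ℝ} (hB : CInv B) (x : ℝ) (hx : 0 ≤ x) (h : cf x ∈ B) : x ∈ B := by
  rcases hx.eq_or_lt with rfl | h0
  · rw [cf_zero'] at h; exact h
  · exact (hB x h0).2 h

lemma CInv.compl {B : Set ℝ} (hB : CInv B) : CInv Bᶜ := fun x hx => not_congr (hB x hx)

lemma pull_zero {B : Set ℝ} (hB : CInv B) {n m : ℕ}
    (hsub : Icc (m : ℝ) (m + 1) ⊆ cf '' Icc (n : ℝ) (n + 1))
    (h0 : volume (B ∩ Icc (n : ℝ) (n + 1)) = 0) : volume (B ∩ Icc (m : ℝ) (m + 1)) = 0 := by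
  have h1 : B ∩ Icc (m : ℝ) (m + 1) ⊆ cf '' (B ∩ Icc (n : ℝ) (n + 1)) := by
    rintro y ⟨hy, hy2⟩
    obtain ⟨x, hx, rfl⟩ := hsub hy2
    exact ⟨x, ⟨hB.bwd x (mem_unit hx) hy, hx⟩, rfl⟩
  have hn0 : (0 : ℝ) ≤ n := Nat.cast_nonneg n
  have h2 := volume_image_le (X := n + 1) (by linarith)
    (s := B ∩ Icc (n : ℝ) (n + 1)) (fun x hx => ⟨mem_unit hx.2, hx.2.2⟩)
  rw [h0, mul_zero] at h2
  exact le_antisymm ((measure_mono h1).trans h2) bot_le

lemma image_unit (n : ℕ) : uIcc (T n : ℝ) (T (n + 1) : ℝ) ⊆ cf '' Icc (n : ℝ) (n + 1) := by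
  have h := intermediate_value_uIcc (f := cf) (a := (n : ℝ)) (b := ((n + 1 : ℕ) : ℝ))
    continuous_cf.continuousOn
  have hle : (n : ℝ) ≤ ((n + 1 : ℕ) : ℝ) := by push_cast; linarith
  rw [cf_natCast, cf_natCast, uIcc_of_le hle] at h
  push_cast at h ⊢
  exact h

lemma exists_below {n i : ℕ} (hi : 1 ≤ i) (hin : i < n) :
    ∃ m, i ≤ m ∧ m < n ∧ Icc (m : ℝ) (m + 1) ⊆ cf '' Icc (n : ℝ) (n + 1) := by
  rcases Nat.even_or_odd' n with ⟨k, hk | hk⟩
  · refine ⟨max i k, le_max_left _ _, by omega, Subset.trans ?_ (image_unit n)⟩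
    have e1 : T n = k := by subst hk; simp [T]
    have e2 : T (n + 1) = 3 * k + 2 := by
      subst hk
      have e : (3 * (2 * k + 1) + 1) / 2 = 3 * k + 2 := by omega
      have e2 : (2 * k + 1) % 2 = 1 := by omega
      simp only [T, e2, one_ne_zero, if_false, e]
    rw [e1, e2]
    have h1 : k ≤ max i k := le_max_right _ _
    have h2 : max i k + 1 ≤ 3 * k + 2 := by omega
    have h1' : (k : ℝ) ≤ (max i k : ℕ) := by exact_mod_cast h1
    have h2' : ((max i k : ℕ) : ℝ) + 1 ≤ ((3 * k + 2 : ℕ) : ℝ) := by exact_mod_cast h2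
    rw [uIcc_of_le (by linarith)]
    exact Icc_subset_Icc h1' h2'
  · refine ⟨max i (k + 1), le_max_left _ _, by omega, Subset.trans ?_ (image_unit n)⟩
    have e1 : T n = 3 * k + 2 := by
      subst hk
      have e : (3 * (2 * k + 1) + 1) / 2 = 3 * k + 2 := by omega
      have e2 : (2 * k + 1) % 2 = 1 := by omega
      simp only [T, e2, one_ne_zero, if_false, e]
    have e2 : T (n + 1) = k + 1 := by
      subst hk
      have e : (2 * k + 1 + 1) / 2 = k + 1 := by omega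
      have e2 : (2 * k + 1 + 1) % 2 = 0 := by omega
      simp only [T, e2, if_true, e]
    rw [e1, e2]
    have h1 : k + 1 ≤ max i (k + 1) := le_max_right _ _
    have h2 : max i (k + 1) + 1 ≤ 3 * k + 2 := by omega
    have h1' : ((k + 1 : ℕ) : ℝ) ≤ (max i (k + 1) : ℕ) := by exact_mod_cast h1
    have h2' : ((max i (k + 1) : ℕ) : ℝ) + 1 ≤ ((3 * k + 2 : ℕ) : ℝ) := by exact_mod_cast h2
    rw [uIcc_of_ge (by linarith)]
    exact Icc_subset_Icc h1' h2'

lemma unit_pos {B : Set ℝ} (hB : CInv B) {i : ℕ} (hi : 1 ≤ i)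
    (hpos : 0 < volume (B ∩ Icc (i : ℝ) (i + 1))) :
    ∀ n : ℕ, i ≤ n → 0 < volume (B ∩ Icc (n : ℝ) (n + 1)) := by
  intro n
  induction n using Nat.strong_induction_on with
  | _ n ih =>
    intro hin
    rcases hin.eq_or_lt with rfl | hlt
    · exact hpos
    · obtain ⟨m, hm1, hm2, hm3⟩ := exists_below hi hlt
      rw [pos_iff_ne_zero]
      intro h0
      have := ih m hm2 hm1
      rw [pull_zero hB hm3 h0] at this
      exact lt_irrefl _ this

lemma exists_unit {B : Set ℝ} (hpos : 0 < volume (B ∩ Ici 1)) :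
    ∃ i : ℕ, 1 ≤ i ∧ 0 < volume (B ∩ Icc (i : ℝ) (i + 1)) := by
  by_contra hcon
  push Not at hcon
  have hsub : B ∩ Ici 1 ⊆ ⋃ i : ℕ, (B ∩ Icc ((i + 1 : ℕ) : ℝ) ((i + 1 : ℕ) + 1)) := by
    rintro x ⟨hx, h1⟩
    rw [mem_Ici] at h1
    have h2 : 1 ≤ ⌊x⌋₊ := Nat.le_floor (by push_cast; exact h1)
    obtain ⟨j, hj⟩ : ∃ j, ⌊x⌋₊ = j + 1 := ⟨⌊x⌋₊ - 1, by omega⟩
    refine mem_iUnion.2 ⟨j, hx, ?_, ?_⟩
    · rw [← hj]; exact Nat.floor_le (by linarith)
    · rw [← hj]; exact (Nat.lt_floor_add_one x).le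
  have h0 : volume (⋃ i : ℕ, (B ∩ Icc ((i + 1 : ℕ) : ℝ) ((i + 1 : ℕ) + 1))) = 0 := by
    rw [measure_iUnion_null_iff]
    intro i
    exact le_antisymm (hcon (i + 1) (by omega)) bot_le
  exact absurd (measure_mono_null hsub h0) hpos.ne'

/-- Nearly harmonic from both sides. -/
lemma mass_two_sided {B : Set ℝ} (hBm : MeasurableSet B) (hB : CInv B) {j : ℕ} (hj : 200 ≤ j) :
    Nop (mass B) j ≤ mass B j + 8 / √j := by
  have h1 := Pop_le_mass hj hBm hB.bwd
  have h2 := Nop_sub_Pop hj (u := mass B) (C := 1) (fun i _ => mass_nonneg _ _)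
    (fun i _ => mass_le_one _ _)
  linarith

/-- The window masses converge, to a positive limit if the set is not null on `[1, ∞)`. -/
theorem mass_limit {B : Set ℝ} (hBm : MeasurableSet B) (hB : CInv B) :
    ∃ d : ℝ, Tendsto (mass B) atTop (𝓝 d) ∧ (0 < volume (B ∩ Ici 1) → 0 < d) := by
  obtain ⟨d, hd⟩ := exists_limit (a := mass B) (mass_nonneg B) (mass_le_one B)
    (fun j hj => mass_le_Nop hj hBm hB.fwd) (fun j hj => mass_two_sided hBm hB hj)
  refine ⟨d, hd, fun hpos => ?_⟩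
  obtain ⟨i, hi, hi2⟩ := exists_unit hpos
  have hup := unit_pos hB hi hi2
  have hmp : ∀ k, i ≤ 2 * k → 0 < mass B k := by
    intro k hk
    have h1 := hup (2 * k) hk
    have h2 : B ∩ Icc ((2 * k : ℕ) : ℝ) ((2 * k : ℕ) + 1) ⊆ B ∩ Ico (2 * k : ℝ) (2 * k + 2) := by
      rintro x ⟨h3, h4, h5⟩
      push_cast at h4 h5
      exact ⟨h3, h4, by linarith⟩
    have h3 := h1.trans_le (measure_mono h2)
    unfold mass
    have := ENNReal.toReal_pos h3.ne' (window_lt_top B k).ne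
    positivity
  set J := i + 1000000 with hJ
  obtain ⟨k0, hk0, hmin⟩ := Finset.exists_min_image ((Finset.range J).filter fun k => J ≤ 2 * k + 1)
    (mass B) ⟨J - 1, by rw [Finset.mem_filter, Finset.mem_range]; omega⟩
  rw [Finset.mem_filter, Finset.mem_range] at hk0
  have hη : 0 < mass B k0 := hmp k0 (by omega)
  have hlow := lower_comparison (a := mass B) (J := J) (η := mass B k0) (by omega) (mass_nonneg B)
    hη.le (fun k h1 h2 => hmin k (by rw [Finset.mem_filter, Finset.mem_range]; exact ⟨h2, h1⟩))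
    (fun j hj => Pop_le_mass (by omega) hBm hB.bwd)
  have : mass B k0 / 3 ≤ d := by
    refine ge_of_tendsto hd ?_
    filter_upwards [eventually_ge_atTop J] with k hk
    exact hlow k (by omega)
  linarith

lemma integral_ind {E : Set ℝ} (hE : MeasurableSet E) {a b : ℝ} (hab : a ≤ b) :
    ∫ x in a..b, E.indicator (1 : ℝ → ℝ) x = (volume (E ∩ Icc a b)).toReal := by
  rw [intervalIntegral.integral_of_le hab, ← integral_Icc_eq_integral_Ioc,
    integral_indicator_one hE, measureReal_restrict_apply hE, measureReal_def]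

lemma lower_eventually {E : Set ℝ} (hE : MeasurableSet E)
    (hinv : ∀ x, 0 ≤ x → cf x ∈ E → x ∈ E) {d : ℝ} (hd : Tendsto (mass E) atTop (𝓝 d))
    {h ε : ℝ} (hh : 0 < h) (hε : 0 < ε) :
    ∀ᶠ t : ℝ in atTop, (d - ε) * h ≤ (volume (E ∩ Icc t (t + h))).toReal := by
  have hd1 : d ≤ 1 := le_of_tendsto' hd (mass_le_one E)
  set δ := max (d - ε / 2) 0 with hδ
  have hδ0 : 0 ≤ δ := le_max_right _ _
  have hδ1 : δ ≤ 1 := max_le (by linarith) zero_le_one
  have hd0 : 0 ≤ d := ge_of_tendsto' hd (mass_nonneg E)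
  have hev : ∀ᶠ k in atTop, δ ≤ mass E k := by
    have h1 : ∀ᶠ k in atTop, d - ε / 2 < mass E k := hd.eventually (lt_mem_nhds (by linarith))
    filter_upwards [h1] with k hk
    exact max_le hk.le (mass_nonneg E k)
  obtain ⟨K0, hK0⟩ := eventually_atTop.1 hev
  set m : ℕ := ⌈h⌉₊ + 1 with hm
  have hsq : Tendsto (fun M : ℕ => (m : ℝ) * (30 / √(M : ℝ))) atTop (𝓝 (m * 0)) := by
    apply Tendsto.const_mul
    apply Tendsto.div_atTop tendsto_const_nhds
    exact Real.tendsto_sqrt_atTop.comp tendsto_natCast_atTop_atTop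
  rw [mul_zero] at hsq
  have hsm : ∀ᶠ M : ℕ in atTop, (m : ℝ) * (30 / √(M : ℝ)) < ε / 2 * h :=
    hsq.eventually (gt_mem_nhds (by positivity))
  obtain ⟨N1, hN1⟩ := eventually_atTop.1 hsm
  filter_upwards [eventually_ge_atTop (((4 * K0 + 8 + N1 + 400 : ℕ) : ℝ))] with t ht
  have ht0 : 0 ≤ t := le_trans (Nat.cast_nonneg _) ht
  have hN : 4 * K0 + 8 + N1 + 400 ≤ ⌊t⌋₊ := Nat.le_floor ht
  set N := ⌊t⌋₊ with hNdef
  have h1 : (N : ℝ) ≤ t := Nat.floor_le ht0
  have h2 : t < N + 1 := Nat.lt_floor_add_one t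
  have h3 : h ≤ ⌈h⌉₊ := Nat.le_ceil h
  have h4 := interval_lower_long (N := N) (by omega) hE hinv hδ0 hδ1
    (fun k hk => hK0 k (by omega)) m t (t + h) h1 (by linarith)
    (by rw [hm]; push_cast; linarith)
  have h5 := hN1 N (by omega)
  rw [integral_ind hE (by linarith)] at h4
  have h6 : (d - ε / 2) * h ≤ δ * h := mul_le_mul_of_nonneg_right (le_max_left _ _) hh.le
  have h7 : t + h - t = h := by ring
  rw [h7] at h4
  linarith

/-- **Local density.** -/
theorem local_density {B : Set ℝ} (hBm : MeasurableSet B) (hB : CInv B) {d : ℝ}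
    (hd : Tendsto (mass B) atTop (𝓝 d)) {h : ℝ} (hh : 0 < h) :
    Tendsto (fun t : ℝ => (volume (B ∩ Icc t (t + h))).toReal / h) atTop (𝓝 d) := by
  have hd' : Tendsto (mass Bᶜ) atTop (𝓝 (1 - d)) := by
    have e : mass Bᶜ = fun k => 1 - mass B k := funext fun k => mass_compl hBm k
    rw [e]
    exact tendsto_const_nhds.sub hd
  have hsum : ∀ t : ℝ, (volume (B ∩ Icc t (t + h))).toReal +
      (volume (Bᶜ ∩ Icc t (t + h))).toReal = h := by
    intro t
    have h1 : volume (B ∩ Icc t (t + h)) + volume (Bᶜ ∩ Icc t (t + h)) = ENNReal.ofReal h := by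
      have := measure_inter_add_sdiff (μ := volume) (Icc t (t + h)) hBm
      rw [Real.volume_Icc] at this
      rw [inter_comm B, inter_comm Bᶜ, ← sdiff_eq, this]
      congr 1; ring
    have hf1 : volume (B ∩ Icc t (t + h)) < ⊤ :=
      (measure_mono inter_subset_right).trans_lt (by simp)
    have hf2 : volume (Bᶜ ∩ Icc t (t + h)) < ⊤ :=
      (measure_mono inter_subset_right).trans_lt (by simp)
    rw [← ENNReal.toReal_add hf1.ne hf2.ne, h1, ENNReal.toReal_ofReal hh.le]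
  rw [Metric.tendsto_nhds]
  intro ε hε
  filter_upwards [lower_eventually hBm hB.bwd hd hh (half_pos hε),
    lower_eventually hBm.compl hB.compl.bwd hd' hh (half_pos hε)] with t h1 h2
  have h3 := hsum t
  rw [Real.dist_eq, abs_lt]
  constructor
  · rw [neg_lt_sub_iff_lt_add, ← sub_lt_iff_lt_add', lt_div_iff₀ hh]
    nlinarith
  · rw [sub_lt_iff_lt_add', div_lt_iff₀ hh]
    nlinarith

/-- **Natural density.** -/
theorem natural_density {B : Set ℝ} (hBm : MeasurableSet B) {d : ℝ}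
    (hd : Tendsto (mass B) atTop (𝓝 d)) :
    Tendsto (fun X : ℝ => (volume (B ∩ Icc 0 X)).toReal / X) atTop (𝓝 d) := by
  have hii : ∀ a b : ℝ, IntervalIntegrable (fun x => B.indicator (1 : ℝ → ℝ) x) volume a b := by
    intro a b
    rw [intervalIntegrable_iff]
    exact integrableOn_ind hBm (by simp [uIoc])
  have hwin : ∀ k : ℕ, ∫ x in ((2 * k : ℕ) : ℝ)..((2 * (k + 1) : ℕ) : ℝ),
      B.indicator (1 : ℝ → ℝ) x = 2 * mass B k := by
    intro k
    rw [intervalIntegral.integral_of_le (by push_cast; linarith), ← integral_Ico_eq_integral_Ioc,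
      integral_indicator_one hBm, measureReal_restrict_apply hBm, measureReal_def, mass]
    have : Ico ((2 * k : ℕ) : ℝ) ((2 * (k + 1) : ℕ) : ℝ) = Ico (2 * k : ℝ) (2 * k + 2) := by
      push_cast; congr 1; ring
    rw [this]; ring
  have hsumN : ∀ N : ℕ, ∫ x in (0 : ℝ)..((2 * N : ℕ) : ℝ), B.indicator (1 : ℝ → ℝ) x =
      2 * ∑ k ∈ Finset.range N, mass B k := by
    intro N
    have := intervalIntegral.sum_integral_adjacent_intervals
      (f := fun x => B.indicator (1 : ℝ → ℝ) x) (μ := volume) (a := fun k : ℕ => ((2 * k : ℕ) : ℝ))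
      (n := N) (fun k _ => hii _ _)
    simp only [mul_zero, Nat.cast_zero] at this
    rw [← this, Finset.mul_sum]
    exact Finset.sum_congr rfl fun k _ => hwin k
  have hces : Tendsto (fun N : ℕ => (N : ℝ)⁻¹ * ∑ k ∈ Finset.range N, mass B k) atTop (𝓝 d) :=
    hd.cesaro
  have hfl : Tendsto (fun X : ℝ => ⌊X / 2⌋₊) atTop atTop :=
    tendsto_nat_floor_atTop.comp (tendsto_id.atTop_div_const two_pos)
  have hces2 := hces.comp hfl
  have hrat : Tendsto (fun X : ℝ => (⌊X / 2⌋₊ : ℝ) / (X / 2)) atTop (𝓝 1) :=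
    (tendsto_nat_floor_div_atTop (R := ℝ)).comp (tendsto_id.atTop_div_const two_pos)
  have hmain := hces2.mul hrat
  rw [mul_one] at hmain
  have herr : Tendsto (fun X : ℝ => 2 / X) atTop (𝓝 0) := tendsto_const_nhds.div_atTop tendsto_id
  rw [Metric.tendsto_nhds] at hmain herr ⊢
  intro ε hε
  filter_upwards [hmain (ε / 2) (half_pos hε), herr (ε / 2) (half_pos hε),
    eventually_ge_atTop 4] with X h1 h2 hX
  set N := ⌊X / 2⌋₊ with hN
  have hN1 : (N : ℝ) ≤ X / 2 := Nat.floor_le (by linarith)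
  have hN2 : X / 2 < N + 1 := Nat.lt_floor_add_one _
  have hNpos : (0 : ℝ) < N := by linarith
  simp only [Function.comp_apply] at h1
  rw [← hN] at h1
  have e1 : (N : ℝ)⁻¹ * (∑ k ∈ Finset.range N, mass B k) * (N / (X / 2)) =
      (2 * ∑ k ∈ Finset.range N, mass B k) / X := by
    field_simp
  rw [e1, ← hsumN] at h1
  rw [← integral_ind hBm (by linarith : (0 : ℝ) ≤ X),
    ← intervalIntegral.integral_add_adjacent_intervals (hii 0 ((2 * N : ℕ) : ℝ)) (hii _ X)]
  have h3 : 0 ≤ ∫ x in ((2 * N : ℕ) : ℝ)..X, B.indicator (1 : ℝ → ℝ) x :=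
    intervalIntegral.integral_nonneg (by push_cast; linarith) fun x _ => (ind_bounds B x).1
  have h4 : ∫ x in ((2 * N : ℕ) : ℝ)..X, B.indicator (1 : ℝ → ℝ) x ≤ 2 := by
    have : ∫ x in ((2 * N : ℕ) : ℝ)..X, B.indicator (1 : ℝ → ℝ) x ≤
        ∫ x in ((2 * N : ℕ) : ℝ)..X, (1 : ℝ) :=
      intervalIntegral.integral_mono_on (by push_cast; linarith) (hii _ _)
        (intervalIntegrable_const) fun x _ => (ind_bounds B x).2
    rw [intervalIntegral.integral_const, smul_eq_mul, mul_one] at this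
    push_cast at this ⊢
    linarith
  have hX0 : 0 < X := by linarith
  rw [Real.dist_eq] at h1 h2 ⊢
  rw [sub_zero, abs_of_pos (by positivity)] at h2
  rw [add_div]
  set A := (∫ x in (0 : ℝ)..((2 * N : ℕ) : ℝ), B.indicator (1 : ℝ → ℝ) x) / X with hA
  set C := (∫ x in ((2 * N : ℕ) : ℝ)..X, B.indicator (1 : ℝ → ℝ) x) / X with hC
  have hC0 : 0 ≤ C := div_nonneg h3 hX0.le
  have hC1 : C ≤ 2 / X := div_le_div_of_nonneg_right h4 hX0.le
  rw [abs_lt] at h1 ⊢
  constructor <;> linarith [h1.1, h1.2]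

end Pool.Agent.Lib.MP_a247fa_nt.Dens
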