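import Pool.Agent.Lib.MP_a247fa_nt.Dens.Potential

/-!
Comparison principles for the averaging operators.
-/

set_option autoImplicit false

namespace Pool.Agent.Lib.MP_a247fa_nt.Dens

open Real Set MeasureTheory Filter Topology

lemma Pop_le_Nop {j : ℕ} (hj : 200 ≤ j) {u : ℕ → ℝ} (h0 : ∀ i, j ≤ 2 * i + 1 → 0 ≤ u i) :
    Pop u j ≤ Nop u j := by
  unfold Pop Nop
  have hn1 : 400 ≤ 2 * j := by omega
  have hn2 : 400 ≤ 2 * j + 1 := by omega
  have h1 := setIntegral_mono_on (integrableOn_wt hn1 u) (integrableOn_u (2 * j) u)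
    measurableSet_Icc (fun x hx => mul_le_of_le_one_left (h0 _ (kap_lower (mem_win_left hx).1))
      (wt_mem hn1 x).2)
  have h2 := setIntegral_mono_on (integrableOn_wt hn2 u) (integrableOn_u (2 * j + 1) u)
    measurableSet_Icc (fun x hx => mul_le_of_le_one_left (h0 _ (kap_lower (mem_win_right hx).1))
      (wt_mem hn2 x).2)
  linarith

/-- The maximum principle. -/
theorem max_principle {D : ℕ → ℝ} {J : ℕ} {C : ℝ} (hJ : 200 ≤ J)
    (hC : ∀ i, J ≤ 2 * i + 1 → D i ≤ C)
    (h0 : ∀ i, J ≤ 2 * i + 1 → i < J → D i ≤ 0)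
    (h1 : ∀ j, J ≤ j → D j ≤ Nop (fun i => max (D i) 0) j) :
    ∀ j, J ≤ 2 * j + 1 → D j ≤ 0 := by
  set M := max C 0 with hM
  have hM0 : 0 ≤ M := le_max_right _ _
  have key : ∀ n : ℕ, ∀ i, J ≤ 2 * i + 1 → D i ≤ (99 / 100) ^ n * M * UU i := by
    intro n
    induction n with
    | zero =>
      intro i hi
      have h2 := UU_ge_one i
      have h3 : D i ≤ M := (hC i hi).trans (le_max_left _ _)
      rw [pow_zero, one_mul]
      nlinarith
    | succ n ih =>
      intro i hi
      have hb : 0 ≤ (99 / 100 : ℝ) ^ n * M := mul_nonneg (by positivity) hM0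
      rcases lt_or_ge i J with h | h
      · refine (h0 i hi h).trans ?_
        exact mul_nonneg (mul_nonneg (by positivity) hM0) (UU_pos i).le
      · calc D i ≤ Nop (fun i => max (D i) 0) i := h1 i h
          _ ≤ Nop (fun k => ((99 / 100) ^ n * M) * UU k) i :=
              Nop_mono (fun k hk => max_le (ih k (by omega)) (mul_nonneg hb (UU_pos k).le))
          _ = ((99 / 100) ^ n * M) * Nop UU i := Nop_smul _ _
          _ ≤ ((99 / 100) ^ n * M) * (99 / 100 * UU i) :=
              mul_le_mul_of_nonneg_left (Nop_UU (by omega)) hb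
          _ = (99 / 100) ^ (n + 1) * M * UU i := by ring
  intro j hj
  have hlim : Tendsto (fun n : ℕ => (99 / 100 : ℝ) ^ n * M * UU j) atTop (𝓝 (0 * M * UU j)) :=
    ((tendsto_pow_atTop_nhds_zero_of_lt_one (by norm_num) (by norm_num)).mul_const _).mul_const _
  rw [zero_mul, zero_mul] at hlim
  exact ge_of_tendsto' hlim fun n => key n j hj

lemma sqrt_nat_pos {J : ℕ} (hJ : 200 ≤ J) : 0 < √(J : ℝ) := by
  apply Real.sqrt_pos.2
  have : (200 : ℝ) ≤ J := by exact_mod_cast hJ
  linarith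

lemma VV_le {J i : ℕ} (hJ : 200 ≤ J) (hi : J ≤ 2 * i + 1) : VV i ≤ 3 / 2 / √J := by
  have h1 := sqrt_nat_pos hJ
  have h2 : (J : ℝ) ≤ 2 * i + 1 := by exact_mod_cast hi
  have h3 : (200 : ℝ) ≤ J := by exact_mod_cast hJ
  unfold VV
  have hp : 0 < √((i : ℝ) + 1) := Real.sqrt_pos.2 (by positivity)
  rw [div_le_div_iff₀ hp h1]
  have : √(J : ℝ) ≤ 3 / 2 * √((i : ℝ) + 1) := by
    apply le_of_sq_le_sq _ (by positivity)
    rw [mul_pow, Real.sq_sqrt (by positivity), Real.sq_sqrt (by positivity)]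
    linarith
  linarith

/-- Comparison from above. -/
theorem upper_comparison {a : ℕ → ℝ} {J : ℕ} {s : ℝ} (hJ : 200 ≤ J) (ha1 : ∀ i, a i ≤ 1)
    (h0 : ∀ i, J ≤ 2 * i + 1 → i < J → a i ≤ s)
    (h1 : ∀ j, J ≤ j → a j ≤ Nop a j + 8 / √j) :
    ∀ j, J ≤ 2 * j + 1 → a j ≤ s + 600 / √J := by
  have hsJ := sqrt_nat_pos hJ
  set c := s + 600 / √(J : ℝ) with hc
  have hmp := max_principle (D := fun i => a i + ((-c) + 300 * VV i)) (J := J)
    (C := 1 + ((-c) + 300)) hJ ?_ ?_ ?_
  · intro j hj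
    have := hmp j hj
    have hv := VV_pos j
    linarith
  · intro i _
    have h2 := ha1 i
    have h3 : VV i ≤ 1 := by
      have := UU_ge_one i
      have e : VV i = 1 / UU i := rfl
      rw [e, div_le_one (UU_pos i)]; exact this
    linarith
  · intro i hi hiJ
    have h2 := h0 i hi hiJ
    have h3 := VV_le hJ hi
    have h4 : 300 * (3 / 2 / √(J : ℝ)) ≤ 600 / √J := by
      rw [mul_div_assoc', div_le_div_iff_of_pos_right hsJ]; norm_num
    linarith
  · intro j hj
    have hj2 : 200 ≤ j := hJ.trans hj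
    have h2 := h1 j hj
    have h3 := Nop_VV hj2
    have hsj := sqrt_nat_pos hj2
    have hj3 : (200 : ℝ) ≤ j := by exact_mod_cast hj2
    have h4 : 8 / √(j : ℝ) ≤ 300 / 32 * VV j := by
      unfold VV
      have hp : 0 < √((j : ℝ) + 1) := Real.sqrt_pos.2 (by positivity)
      rw [mul_one_div, div_le_div_iff₀ hsj hp]
      apply le_of_sq_le_sq _ (by positivity)
      rw [mul_pow, mul_pow, Real.sq_sqrt (by positivity), Real.sq_sqrt (by positivity)]
      linarith
    have h5 : Nop (fun i => a i + ((-c) + 300 * VV i)) j = Nop a j + ((-c) + 300 * Nop VV j) := by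
      rw [Nop_add, Nop_add, Nop_const, Nop_smul]
    have h6 : Nop (fun i => a i + ((-c) + 300 * VV i)) j ≤
        Nop (fun i => max (a i + ((-c) + 300 * VV i)) 0) j :=
      Nop_mono fun i _ => le_max_left _ _
    linarith

/-- Multiplicative comparison from below. -/
theorem lower_comparison {a : ℕ → ℝ} {J : ℕ} {η : ℝ} (hJ : 1000000 ≤ J) (ha0 : ∀ i, 0 ≤ a i)
    (hη : 0 ≤ η) (h0 : ∀ i, J ≤ 2 * i + 1 → i < J → η ≤ a i)
    (h1 : ∀ j, J ≤ j → Pop a j ≤ a j) :
    ∀ j, J ≤ 2 * j + 1 → η / 3 ≤ a j := by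
  have hJ2 : 200 ≤ J := by omega
  have hsJ := sqrt_nat_pos hJ2
  have hJr : (1000000 : ℝ) ≤ J := by exact_mod_cast hJ
  set r := √(J : ℝ) with hr
  set v : ℕ → ℝ := fun i => 1 / 2 + (r / 2) * VV i with hv
  have hv0 : ∀ i, 1 / 2 ≤ v i := by
    intro i
    have := VV_pos i
    have : 0 ≤ r / 2 * VV i := by positivity
    simp only [hv]; linarith
  have hv1 : ∀ i, J ≤ 2 * i + 1 → v i ≤ 5 / 4 := by
    intro i hi
    have h3 := VV_le hJ2 hi
    have h4 : r / 2 * VV i ≤ r / 2 * (3 / 2 / r) := mul_le_mul_of_nonneg_left h3 (by positivity)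
    have h5 : r / 2 * (3 / 2 / r) = 3 / 4 := by field_simp; norm_num
    simp only [hv]; linarith
  have hmp := max_principle (D := fun i => (2 / 3 * η) * v i + (-1) * a i) (J := J)
    (C := η) hJ2 ?_ ?_ ?_
  · intro j hj
    have := hmp j hj
    have h2 : 2 / 3 * η * (1 / 2) ≤ 2 / 3 * η * v j :=
      mul_le_mul_of_nonneg_left (hv0 j) (by positivity)
    linarith
  · intro i hi
    have h2 : 2 / 3 * η * v i ≤ 2 / 3 * η * (5 / 4) :=
      mul_le_mul_of_nonneg_left (hv1 i hi) (by positivity)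
    have h3 := ha0 i
    linarith
  · intro i hi hiJ
    have h2 : 2 / 3 * η * v i ≤ 2 / 3 * η * (5 / 4) :=
      mul_le_mul_of_nonneg_left (hv1 i hi) (by positivity)
    have h3 := h0 i hi hiJ
    linarith
  · intro j hj
    have hj2 : 200 ≤ j := hJ2.trans hj
    have h2 := h1 j hj
    have h3 := Nop_VV hj2
    have hsj := sqrt_nat_pos hj2
    have hj3 : (200 : ℝ) ≤ j := by exact_mod_cast hj2
    -- v is a subsolution of Pop
    have h4 : v j ≤ Pop v j := by
      have h5 := Nop_sub_Pop hj2 (u := v) (C := 5 / 4)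
        (fun i _ => le_trans (by norm_num) (hv0 i)) (fun i hi => hv1 i (by omega))
      have h6 : Nop v j = 1 / 2 + r / 2 * Nop VV j := by
        simp only [hv]
        rw [Nop_add, Nop_const, Nop_smul]
      have h7 : r / 2 * (33 / 32 * VV j) ≤ r / 2 * Nop VV j :=
        mul_le_mul_of_nonneg_left h3 (by positivity)
      have h8 : 5 / 4 * (8 / √(j : ℝ)) ≤ r / 64 * VV j := by
        unfold VV
        have hp : 0 < √((j : ℝ) + 1) := Real.sqrt_pos.2 (by positivity)
        rw [mul_one_div, mul_div_assoc', div_le_div_iff₀ hsj hp]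
        have h9 : 640 * √((j : ℝ) + 1) ≤ r * √(j : ℝ) := by
          apply le_of_sq_le_sq _ (by positivity)
          rw [mul_pow, mul_pow, Real.sq_sqrt (by positivity), Real.sq_sqrt (by positivity),
            Real.sq_sqrt (by positivity)]
          nlinarith
        linarith
      have h10 : v j = 1 / 2 + r / 2 * VV j := rfl
      rw [h10]
      linarith
    have h5 : Pop (fun i => (2 / 3 * η) * v i + (-1) * a i) j =
        (2 / 3 * η) * Pop v j + (-1) * Pop a j := by
      rw [Pop_add hj2, Pop_smul, Pop_smul]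
    have h6 : Pop (fun i => (2 / 3 * η) * v i + (-1) * a i) j ≤
        Pop (fun i => max ((2 / 3 * η) * v i + (-1) * a i) 0) j :=
      Pop_mono hj2 fun i _ => le_max_left _ _
    have h7 : Pop (fun i => max ((2 / 3 * η) * v i + (-1) * a i) 0) j ≤
        Nop (fun i => max ((2 / 3 * η) * v i + (-1) * a i) 0) j :=
      Pop_le_Nop hj2 fun i _ => le_max_right _ _
    have h8 : 2 / 3 * η * v j ≤ 2 / 3 * η * Pop v j :=
      mul_le_mul_of_nonneg_left h4 (by positivity)
    linarith

end Pool.Agent.Lib.MP_a247fa_nt.Dens
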