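import Pool.Agent.Lib.MP_a247fa_nt.Basic

/-!
Derivative bounds for `cf` between two consecutive large integers.
-/

set_option autoImplicit false

namespace Pool.Agent.Lib.MP_a247fa_nt.Dens

open Real Set

/-- The sign of `cf'` on `(n, n+1)`. -/
def sg (n : ℕ) : ℝ := (-1) ^ n

lemma sg_cases (n : ℕ) : sg n = 1 ∨ sg n = -1 := neg_one_pow_eq_or ℝ n

lemma sg_mul_self (n : ℕ) : sg n * sg n = 1 := by
  rcases sg_cases n with h | h <;> rw [h] <;> norm_num

lemma abs_sg (n : ℕ) : |sg n| = 1 := by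
  rcases sg_cases n with h | h <;> rw [h] <;> norm_num

lemma sin_shift (n : ℕ) (x : ℝ) : sin (π * x) = sg n * sin (π * (x - n)) := by
  have : π * x = π * (x - n) + n * π := by ring
  rw [this, Real.sin_add_nat_mul_pi, sg]

lemma cos_shift (n : ℕ) (x : ℝ) : cos (π * x) = sg n * cos (π * (x - n)) := by
  have : π * x = π * (x - n) + n * π := by ring
  rw [this, Real.cos_add_nat_mul_pi, sg]

/-- The second derivative of `cf`. -/
noncomputable def ddcf (x : ℝ) : ℝ :=
  π * sin (π * x) + (2 * x + 1) * π ^ 2 / 4 * cos (π * x)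

lemma hasDerivAt_dcf (x : ℝ) : HasDerivAt dcf (ddcf x) x := by
  have h1 : HasDerivAt (fun y : ℝ => π * y) π x := by
    simpa using (hasDerivAt_id x).const_mul π
  have h2 : HasDerivAt (fun y : ℝ => cos (π * y)) (-sin (π * x) * π) x := h1.cos
  have h2' : HasDerivAt (fun y : ℝ => sin (π * y)) (cos (π * x) * π) x := h1.sin
  have h3 : HasDerivAt (fun y : ℝ => (2 * y + 1) * π / 4) (2 * π / 4) x := by
    have := ((hasDerivAt_id x).const_mul 2).add_const 1
    simpa using (this.mul_const π).div_const 4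
  have h4 : HasDerivAt (fun y : ℝ => 1 - cos (π * y) / 2) (-(-sin (π * x) * π / 2)) x := by
    simpa using (h2.div_const 2).const_sub 1
  have h5 := h4.add (h3.mul h2')
  unfold dcf ddcf
  refine h5.congr_deriv ?_
  ring

lemma continuous_dcf : Continuous dcf :=
  continuous_iff_continuousAt.2 fun x => (hasDerivAt_dcf x).continuousAt

lemma abs_ddcf_le {n : ℕ} (hn : 20 ≤ n) {x : ℝ} (hx : x ∈ Icc (n : ℝ) (n + 1)) :
    |ddcf x| ≤ 6 * n := by
  have hn' : (20 : ℝ) ≤ n := by exact_mod_cast hn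
  have hpi : π < 3.15 := Real.pi_lt_d2
  have hpi0 := Real.pi_pos
  have hpi2 : π ^ 2 < 9.9225 := by nlinarith
  have h1 : |π * sin (π * x)| ≤ 3.15 := by
    rw [abs_mul, abs_of_pos hpi0]
    have := Real.abs_sin_le_one (π * x)
    nlinarith [abs_nonneg (sin (π * x))]
  have h2 : |(2 * x + 1) * π ^ 2 / 4 * cos (π * x)| ≤ (2 * (n : ℝ) + 3) * 9.9225 / 4 := by
    rw [abs_mul]
    have hc := Real.abs_cos_le_one (π * x)
    have hx0 : 0 ≤ (2 * x + 1) * π ^ 2 / 4 := by
      have := hx.1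
      have : 0 ≤ 2 * x + 1 := by linarith
      positivity
    rw [abs_of_nonneg hx0]
    have h3 : (2 * x + 1) * π ^ 2 / 4 ≤ (2 * (n : ℝ) + 3) * 9.9225 / 4 := by
      have h4 : 2 * x + 1 ≤ 2 * n + 3 := by linarith [hx.2]
      have h5 : 0 ≤ 2 * x + 1 := by linarith [hx.1]
      have : (2 * x + 1) * π ^ 2 ≤ (2 * (n : ℝ) + 3) * 9.9225 :=
        mul_le_mul h4 hpi2.le (by positivity) (by linarith)
      linarith
    calc (2 * x + 1) * π ^ 2 / 4 * |cos (π * x)| ≤ (2 * x + 1) * π ^ 2 / 4 * 1 :=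
          mul_le_mul_of_nonneg_left hc hx0
      _ ≤ _ := by linarith
  unfold ddcf
  calc |π * sin (π * x) + (2 * x + 1) * π ^ 2 / 4 * cos (π * x)|
      ≤ |π * sin (π * x)| + |(2 * x + 1) * π ^ 2 / 4 * cos (π * x)| := abs_add_le _ _
    _ ≤ 3.15 + (2 * (n : ℝ) + 3) * 9.9225 / 4 := add_le_add h1 h2
    _ ≤ 6 * n := by linarith

lemma sin_lower {t θ : ℝ} (h0 : 0 ≤ t) (h1 : t ≤ θ) (h2 : t ≤ 1 - θ) :
    2 * t ≤ sin (π * θ) := by
  have hpi := Real.pi_pos
  rcases le_total θ (1 / 2) with h | h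
  · have h3 := Real.mul_le_sin (x := π * θ) (by nlinarith) (by nlinarith)
    have h4 : 2 / π * (π * θ) = 2 * θ := by field_simp
    linarith
  · have h3 := Real.mul_le_sin (x := π * (1 - θ)) (by nlinarith) (by nlinarith)
    have h4 : 2 / π * (π * (1 - θ)) = 2 * (1 - θ) := by field_simp
    have h5 : sin (π * (1 - θ)) = sin (π * θ) := by
      rw [show π * (1 - θ) = π - π * θ by ring, Real.sin_pi_sub]
    rw [h4, h5] at h3
    linarith

lemma sg_mul_dcf (n : ℕ) (x : ℝ) : sg n * dcf x =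
    sg n * (1 - cos (π * x) / 2) + (2 * x + 1) * π / 4 * sin (π * (x - n)) := by
  rw [dcf, sin_shift n x]
  have := sg_mul_self n
  linear_combination ((2 * x + 1) * π / 4 * sin (π * (x - n))) * this

lemma dcf_lower {n : ℕ} {x t : ℝ} (ht : 3 / 2 ≤ n * t) (h0 : 0 ≤ t) (h1 : t ≤ x - n)
    (h2 : t ≤ n + 1 - x) : 2 * n * t ≤ sg n * dcf x := by
  rw [sg_mul_dcf]
  have hs := sin_lower (t := t) (θ := x - n) h0 h1 (by linarith)
  have hpi : 3 < π := Real.pi_gt_three
  have hn0 : (0 : ℝ) ≤ n := Nat.cast_nonneg n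
  have hx : (n : ℝ) ≤ x := by linarith
  have e1 : -(3 / 2) ≤ sg n * (1 - cos (π * x) / 2) := by
    have hc := Real.neg_one_le_cos (π * x)
    have hc' := Real.cos_le_one (π * x)
    rcases sg_cases n with h | h <;> rw [h] <;> linarith
  have e2 : 3 * n * t ≤ (2 * x + 1) * π / 4 * sin (π * (x - n)) := by
    have a1 : (2 * (n : ℝ) + 1) * 3 / 4 ≤ (2 * x + 1) * π / 4 := by
      have : (2 * (n : ℝ) + 1) * 3 ≤ (2 * x + 1) * π :=
        mul_le_mul (by linarith) hpi.le (by norm_num) (by linarith)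
      linarith
    have hx0 : 0 ≤ x := by linarith
    have a2 : (2 * (n : ℝ) + 1) * 3 / 4 * (2 * t) ≤ (2 * x + 1) * π / 4 * sin (π * (x - n)) :=
      mul_le_mul a1 hs (by linarith) (by positivity)
    nlinarith
  linarith

lemma energy {n : ℕ} (hn : 20 ≤ n) {x y : ℝ} (hx : (n : ℝ) ≤ x) (hy : y ≤ n + 1) (hxy : x ≤ y)
    (hpos : ∀ z ∈ Icc x y, 0 ≤ sg n * dcf z) :
    |dcf y ^ 2 - dcf x ^ 2| ≤ 12 * n * (sg n * cf y - sg n * cf x) := by
  have hn0 : (0 : ℝ) ≤ n := Nat.cast_nonneg n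
  have hsub : ∀ z ∈ Icc x y, z ∈ Icc (n : ℝ) (n + 1) := fun z hz =>
    ⟨hx.trans hz.1, hz.2.trans hy⟩
  have key : ∀ s : ℝ, (s = 1 ∨ s = -1) →
      MonotoneOn (fun z => 12 * n * (sg n * cf z) + s * dcf z ^ 2) (Icc x y) := by
    intro s hs
    have hder : ∀ z : ℝ, HasDerivAt (fun z => 12 * n * (sg n * cf z) + s * dcf z ^ 2)
        (12 * n * (sg n * dcf z) + s * (2 * dcf z * ddcf z)) z := by
      intro z
      have h1 := ((hasDerivAt_cf z).const_mul (sg n)).const_mul (12 * (n : ℝ))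
      have h2 := ((hasDerivAt_dcf z).pow 2).const_mul s
      refine (h1.add h2).congr_deriv ?_
      norm_num
    apply monotoneOn_of_deriv_nonneg (convex_Icc x y)
    · exact fun z _ => (hder z).continuousAt.continuousWithinAt
    · exact fun z _ => (hder z).differentiableAt.differentiableWithinAt
    · intro z hz
      rw [interior_Icc] at hz
      have hz' := Ioo_subset_Icc_self hz
      rw [(hder z).deriv]
      have hp := hpos z hz'
      have hdd := abs_ddcf_le hn (hsub z hz')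
      have hss := sg_mul_self n
      have e : 12 * n * (sg n * dcf z) + s * (2 * dcf z * ddcf z) =
          2 * (sg n * dcf z) * (6 * n + s * (sg n * ddcf z)) := by
        linear_combination (-(s * (2 * dcf z * ddcf z))) * hss
      rw [e]
      have h3 : |s * (sg n * ddcf z)| ≤ 6 * n := by
        rw [abs_mul, abs_mul, abs_sg, one_mul]
        rcases hs with rfl | rfl <;> simpa using hdd
      have h4 := neg_le_of_abs_le h3
      have h5 : 0 ≤ 6 * n + s * (sg n * ddcf z) := by linarith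
      positivity
  have hxm : x ∈ Icc x y := ⟨le_rfl, hxy⟩
  have hym : y ∈ Icc x y := ⟨hxy, le_rfl⟩
  have k1 := key 1 (Or.inl rfl) hxm hym hxy
  have k2 := key (-1) (Or.inr rfl) hxm hym hxy
  simp only at k1 k2
  rw [abs_le]
  constructor <;> nlinarith

end Pool.Agent.Lib.MP_a247fa_nt.Dens
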