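import Pool.Agent.Lib.MP_a247fa_nt.Dens.Almost
import Pool.Agent.Lib.MP_a247fa_nt.Dens.Attract

/-!
Immediate basins of far attracting cycles stay far.
-/

set_option autoImplicit false

namespace Pool.Agent.Lib.MP_a247fa_nt.Dens

open Real Set MeasureTheory Filter Topology Function

lemma exists_fixed_unit (n : ℕ) : ∃ p : ℝ, (n : ℝ) ≤ p ∧ p ≤ n + 1 ∧ cf p = p := by
  have hc : ContinuousOn (fun y => cf y - y) (uIcc (n : ℝ) ((n + 1 : ℕ) : ℝ)) :=
    (continuous_cf.sub continuous_id).continuousOn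
  have hiv := intermediate_value_uIcc hc
  have hle : (n : ℝ) ≤ ((n + 1 : ℕ) : ℝ) := by push_cast; linarith
  have h0 : (0 : ℝ) ∈ uIcc (cf (n : ℝ) - n) (cf ((n + 1 : ℕ) : ℝ) - ((n + 1 : ℕ) : ℝ)) := by
    rw [cf_natCast, cf_natCast, mem_uIcc]
    rcases Nat.even_or_odd' n with ⟨k, hk | hk⟩
    · left
      have e1 : T n = k := by subst hk; simp [T]
      have e2 : T (n + 1) = 3 * k + 2 := by
        subst hk
        have e : (3 * (2 * k + 1) + 1) / 2 = 3 * k + 2 := by omega
        have e2 : (2 * k + 1) % 2 = 1 := by omega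
        simp only [T, e2, one_ne_zero, if_false, e]
      rw [e1, e2, hk]
      have : (0 : ℝ) ≤ k := Nat.cast_nonneg k
      push_cast
      constructor <;> linarith
    · right
      have e1 : T n = 3 * k + 2 := by
        subst hk
        have e : (3 * (2 * k + 1) + 1) / 2 = 3 * k + 2 := by omega
        have e2 : (2 * k + 1) % 2 = 1 := by omega
        simp only [T, e2, one_ne_zero, if_false, e]
      have e2 : T (n + 1) = k + 1 := by
        subst hk
        have e : (2 * k + 1 + 1) / 2 = k + 1 := by omega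
        have e2 : (2 * k + 1 + 1) % 2 = 0 := by omega
        simp only [T, e2, if_true, e]
      rw [e1, e2, hk]
      have : (0 : ℝ) ≤ k := Nat.cast_nonneg k
      push_cast
      constructor <;> linarith
  obtain ⟨p, hp, hp0⟩ := hiv h0
  rw [uIcc_of_le hle] at hp
  push_cast at hp
  exact ⟨p, hp.1, hp.2, by simpa [sub_eq_zero] using hp0⟩

lemma immediateBasin_ge {z Y : ℝ} (hY : 0 < Y) (h : Y + 2 ≤ z) :
    immediateBasin z ⊆ Ici Y := by
  have hz0 : 0 < z := by linarith
  have hc1 : z ≤ ⌈z⌉₊ := Nat.le_ceil z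
  have hc2 : (⌈z⌉₊ : ℝ) < z + 1 := Nat.ceil_lt_add_one hz0.le
  have h3 : 2 < ⌈z⌉₊ := by
    have : (2 : ℝ) < ⌈z⌉₊ := by linarith
    exact_mod_cast this
  obtain ⟨n, hn⟩ : ∃ n, ⌈z⌉₊ = n + 2 := ⟨⌈z⌉₊ - 2, by omega⟩
  have hn' : (⌈z⌉₊ : ℝ) = n + 2 := by rw [hn]; push_cast; ring
  obtain ⟨p, hp1, hp2, hp3⟩ := exists_fixed_unit n
  have hpz : p < z := by linarith
  have hpY : Y ≤ p := by linarith
  have hpW : p ∉ immediateBasin z := fun hp =>
    fixed_not_mem_basinOf hp3 hpz.ne (connectedComponentIn_subset _ _ hp)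
  have hord : OrdConnected (immediateBasin z) := isPreconnected_connectedComponentIn.ordConnected
  intro y hy
  rw [mem_Ici]
  by_contra hlt
  push Not at hlt
  exact hpW (hord.out hy mem_immediateBasin_self ⟨by linarith, hpz.le⟩)

/-- The immediate basins of the attracting cycles in `[Y+2, ∞)` consist of points whose orbits
stay above `Y`. -/
theorem immediate_subset {Y : ℝ} (hY : 0 < Y) :
    {y | ∃ x : ℝ, IsAttracting x ∧ (∀ k : ℕ, Y + 2 ≤ cf^[k] x) ∧ y ∈ immediateBasin x} ⊆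
      {y | ∀ k : ℕ, Y ≤ cf^[k] y} := by
  rintro y ⟨x, hx, hk, hy⟩ k
  exact immediateBasin_ge hY (hk k) (iter_immediateBasin hx.1 k hy)

end Pool.Agent.Lib.MP_a247fa_nt.Dens
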