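import Pool.Agent.Lib.MP_a247fa_nt.Dens.Limit

/-!
From windows to arbitrary intervals.
-/

set_option autoImplicit false

namespace Pool.Agent.Lib.MP_a247fa_nt.Dens

open Real Set MeasureTheory Filter Topology

lemma measurableSet_PP (n : ℕ) : MeasurableSet (PP n) := measurableSet_Icc

lemma volume_diff_PP {n : ℕ} (hn : 400 ≤ n) :
    ∫ x in Icc (n : ℝ) (n + 1), (Icc (n : ℝ) (n + 1) \ PP n).indicator (1 : ℝ → ℝ) x = 6 / √n := by
  obtain ⟨h3, h4⟩ := sqrt_facts hn
  have hm : MeasurableSet (Icc (n : ℝ) (n + 1) \ PP n) := measurableSet_Icc.diff measurableSet_Icc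
  rw [integral_indicator_one hm, measureReal_restrict_apply hm,
    inter_eq_self_of_subset_left sdiff_subset,
    measureReal_sdiff (PP_subset hn) (measurableSet_PP n) (by simp)]
  have h5 : 3 / √(n : ℝ) ≤ 3 / 20 := div_le_div_of_nonneg_left (by norm_num) (by norm_num) h3
  simp only [PP, Real.volume_real_Icc]
  rw [max_eq_left (by linarith), max_eq_left (by linarith)]
  ring

/-- windows deep inside the image of an interval -/
lemma window_subset {n : ℕ} (hn : 400 ≤ n) {a b x : ℝ} (ha : a ∈ PP n) (hb : b ∈ PP n)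
    (hxa : a + 1 / √(n : ℝ) ≤ x) (hxb : x + 1 / √(n : ℝ) ≤ b) :
    Ico (2 * (kap x) : ℝ) (2 * (kap x) + 2) ⊆ cf '' Icc a b := by
  obtain ⟨h3, h4⟩ := sqrt_facts hn
  have hsm : 0 < 1 / √(n : ℝ) := by positivity
  have hx : x ∈ PP n := ⟨by linarith [ha.1], by linarith [hb.2]⟩
  have hx0 : 0 ≤ x := mem_unit (PP_subset hn hx)
  have hcf0 : 0 ≤ cf x := by linarith [cf_ge x hx0]
  have hk := (kap_eq_iff hcf0 (kap x)).1 rfl
  intro y hy
  have hy2 : |y - cf x| ≤ 2 := by
    rw [abs_le]; constructor <;> linarith [hy.1, hy.2, hk.1, hk.2]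
  have g1 := growth hn ha hx (by linarith)
  have g2 := growth hn hx hb (by linarith)
  have e6 : 6 * √(n : ℝ) * (1 / √(n : ℝ)) = 6 := by field_simp
  have g1' : 6 ≤ sg n * cf x - sg n * cf a := by
    have : 6 * √(n : ℝ) * (1 / √(n : ℝ)) ≤ 6 * √(n : ℝ) * (x - a) :=
      mul_le_mul_of_nonneg_left (by linarith) (by positivity)
    linarith
  have g2' : 6 ≤ sg n * cf b - sg n * cf x := by
    have : 6 * √(n : ℝ) * (1 / √(n : ℝ)) ≤ 6 * √(n : ℝ) * (b - x) :=
      mul_le_mul_of_nonneg_left (by linarith) (by positivity)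
    linarith
  have hab : a ≤ b := by linarith
  have hcont : ContinuousOn cf (uIcc a b) := continuous_cf.continuousOn
  have hyab : y ∈ uIcc (cf a) (cf b) := by
    rw [abs_le] at hy2
    rcases sg_cases n with h | h <;> rw [h] at g1' g2' <;> rw [mem_uIcc]
    · left; constructor <;> linarith [hy2.1, hy2.2]
    · right; constructor <;> linarith [hy2.1, hy2.2]
  obtain ⟨z, hz, hzy⟩ := intermediate_value_uIcc hcont hyab
  rw [uIcc_of_le hab] at hz
  exact ⟨z, hz, hzy⟩

/-- The interval version of the kernel inequality. -/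
theorem interval_lower {n : ℕ} (hn : 400 ≤ n) {E : Set ℝ} (hE : MeasurableSet E)
    (hinv : ∀ x, 0 ≤ x → cf x ∈ E → x ∈ E) {δ : ℝ} (hδ0 : 0 ≤ δ) (hδ1 : δ ≤ 1)
    (hm : ∀ k, n ≤ 4 * k + 4 → δ ≤ mass E k) {a b : ℝ} (ha : (n : ℝ) ≤ a) (hab : a ≤ b)
    (hb : b ≤ n + 1) :
    δ * (b - a) - 30 / √n ≤ ∫ x in a..b, E.indicator 1 x := by
  obtain ⟨h3, h4⟩ := sqrt_facts hn
  set r := √(n : ℝ) with hr
  have hr0 : 0 < r := by linarith
  have hi : 0 < 1 / r := by positivity
  have e3 : 3 / r = 3 * (1 / r) := by ring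
  have e30 : 30 / r = 30 * (1 / r) := by ring
  have e10 : 10 / r = 10 * (1 / r) := by ring
  have e6 : 6 / r = 6 * (1 / r) := by ring
  have hI0 : 0 ≤ ∫ x in a..b, E.indicator (1 : ℝ → ℝ) x :=
    intervalIntegral.integral_nonneg hab fun x _ => (ind_bounds E x).1
  set a' := max a (n + 3 / r) with ha'
  set b' := min b (n + 1 - 3 / r) with hb'
  have hA1 : a ≤ a' := le_max_left _ _
  have hA2 : (n : ℝ) + 3 / r ≤ a' := le_max_right _ _
  have hB1 : b' ≤ b := min_le_left _ _
  have hB2 : b' ≤ n + 1 - 3 / r := min_le_right _ _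
  have hA3 : a' ≤ a + 3 / r := by
    apply max_le _ (by linarith); have : 0 ≤ 3 / r := by positivity
    linarith
  have hB3 : b - 3 / r ≤ b' := by
    apply le_min _ (by linarith); have : 0 ≤ 3 / r := by positivity
    linarith
  rcases lt_or_ge (b' - a') (2 / r) with hsmall | hlarge
  · have e2 : 2 / r = 2 * (1 / r) := by ring
    have : δ * (b - a) ≤ 1 * (b - a) := mul_le_mul_of_nonneg_right hδ1 (by linarith)
    linarith
  have e2 : 2 / r = 2 * (1 / r) := by ring
  rw [e2] at hlarge
  have haP : a' ∈ PP n := ⟨hA2, by linarith⟩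
  have hbP : b' ∈ PP n := ⟨by linarith, hB2⟩
  have hsubP : Icc a' b' ⊆ PP n := fun x hx => ⟨hA2.trans hx.1, hx.2.trans hB2⟩
  set F := cf '' Icc a' b' with hF
  have hFm : MeasurableSet F := (isCompact_Icc.image continuous_cf).measurableSet
  have hEF : MeasurableSet (E ∩ F) := hE.inter hFm
  have hker := kernel hn hEF
  -- the right side of the kernel inequality
  have hmd : MeasurableSet (Icc (n : ℝ) (n + 1) \ PP n) := measurableSet_Icc.diff measurableSet_Icc
  have hR : ∫ x in Icc (n : ℝ) (n + 1), (E ∩ F).indicator (1 : ℝ → ℝ) (cf x) ≤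
      (∫ x in a..b, E.indicator (1 : ℝ → ℝ) x) + 6 / r := by
    rw [← volume_diff_PP hn]
    have e1 : ∫ x in a..b, E.indicator (1 : ℝ → ℝ) x =
        ∫ x in Icc (n : ℝ) (n + 1), (E ∩ Icc a b).indicator (1 : ℝ → ℝ) x := by
      rw [intervalIntegral.integral_of_le hab, ← integral_Icc_eq_integral_Ioc,
        integral_indicator_one hE, integral_indicator_one (hE.inter measurableSet_Icc),
        measureReal_restrict_apply hE, measureReal_restrict_apply (hE.inter measurableSet_Icc)]
      congr 1
      rw [inter_assoc, inter_eq_self_of_subset_left (Icc_subset_Icc ha hb)]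
    rw [e1, ← integral_add (integrableOn_ind (hE.inter measurableSet_Icc) (by simp))
      (integrableOn_ind hmd (by simp))]
    refine setIntegral_mono_on (integrableOn_ind_cf hEF (by simp))
      ((integrableOn_ind (hE.inter measurableSet_Icc) (by simp)).add
        (integrableOn_ind hmd (by simp))) measurableSet_Icc fun x hx => ?_
    by_cases h : cf x ∈ E ∩ F
    · rw [indicator_of_mem h]
      by_cases hxP : x ∈ PP n
      · have hxI : x ∈ Icc a' b' := by
          obtain ⟨z, hz, hzx⟩ := h.2
          have := injOn_PP hn (hsubP hz) hxP hzx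
          rwa [← this]
        have : x ∈ E ∩ Icc a b :=
          ⟨hinv x (mem_unit hx) h.1, hA1.trans hxI.1, hxI.2.trans hB1⟩
        rw [indicator_of_mem this]
        have := (ind_bounds (Icc (n : ℝ) (n + 1) \ PP n) x).1
        simp only [Pi.one_apply]
        linarith
      · have h7 : x ∈ Icc (n : ℝ) (n + 1) \ PP n := ⟨hx, hxP⟩
        rw [indicator_of_mem h7]
        have := (ind_bounds (E ∩ Icc a b) x).1
        simp only [Pi.one_apply]
        linarith
    · rw [indicator_of_notMem h]
      have h8 := (ind_bounds (Icc (n : ℝ) (n + 1) \ PP n) x).1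
      have h9 := (ind_bounds (E ∩ Icc a b) x).1
      linarith
  -- the left side
  set I := Icc (a' + 1 / r) (b' - 1 / r) with hI
  have hIm : MeasurableSet I := measurableSet_Icc
  have hIsub : I ⊆ Icc (n : ℝ) (n + 1) := fun x hx => by
    have h5 := hx.1
    have h6 := hx.2
    constructor <;> linarith
  have hL : δ * ∫ x in I, wt n x ≤
      ∫ x in Icc (n : ℝ) (n + 1), wt n x * mass (E ∩ F) (kap x) := by
    rw [← integral_const_mul]
    have h5 : ∫ x in I, δ * wt n x ≤ ∫ x in I, wt n x * mass (E ∩ F) (kap x) := by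
      refine setIntegral_mono_on ?_ ((integrableOn_wt hn _).mono_set hIsub) hIm fun x hx => ?_
      · have := (integrableOn_wt hn (fun _ => δ)).mono_set hIsub
        refine this.congr_fun (fun x _ => mul_comm _ _) hIm
      · have hxa : a' + 1 / r ≤ x := hx.1
        have hxb : x + 1 / r ≤ b' := by linarith [hx.2]
        have hw := window_subset hn haP hbP hxa hxb
        have hmass : mass (E ∩ F) (kap x) = mass E (kap x) := by
          unfold mass
          rw [inter_assoc, inter_eq_self_of_subset_right hw]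
        rw [hmass, mul_comm]
        apply mul_le_mul_of_nonneg_left _ (wt_mem hn x).1
        apply hm
        have hx0 := hIsub hx
        have hxn : (n : ℝ) ≤ x := hx0.1
        have h10 := cf_ge x (mem_unit hx0)
        have h11 : cf x / 2 < kap x + 1 := Nat.lt_floor_add_one _
        have h12 : (n : ℝ) < 4 * (kap x : ℝ) + 4 := by linarith
        have h13 : n < 4 * kap x + 4 := by exact_mod_cast h12
        exact h13.le
    refine h5.trans (setIntegral_mono_set (integrableOn_wt hn _) ?_
      (Filter.Eventually.of_forall hIsub))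
    exact Filter.Eventually.of_forall fun x => mul_nonneg (wt_mem hn x).1 (mass_nonneg _ _)
  have hIw : (b' - a' - 2 * (1 / r)) - 10 / r ≤ ∫ x in I, wt n x := by
    have h5 : ∫ x in I, (1 - wt n x) ≤ 10 / r :=
      (setIntegral_mono_set (integrableOn_one_sub_wt hn)
        (Filter.Eventually.of_forall fun x => by
          have := (wt_mem hn x).2
          simp only [Pi.zero_apply]; linarith)
        (Filter.Eventually.of_forall hIsub)).trans (int_wt hn)
    have h6 : ∫ x in I, (1 - wt n x) = (∫ x in I, (1 : ℝ)) - ∫ x in I, wt n x := by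
      apply integral_sub
      · exact integrableOn_of_bdd (C := 1) measurable_const (fun _ => by simp)
          ((measure_mono hIsub).trans_lt (by simp))
      · have := (integrableOn_wt hn (fun _ => 1)).mono_set hIsub
        simp only [mul_one] at this
        exact this
    have h7 : ∫ x in I, (1 : ℝ) = b' - a' - 2 * (1 / r) := by
      rw [setIntegral_const, smul_eq_mul, mul_one, hI, Real.volume_real_Icc,
        max_eq_left (by linarith)]
      ring
    linarith
  have h5 := mul_le_mul_of_nonneg_left hIw hδ0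
  have h6 : δ * (b - a) ≤ δ * (b' - a' - 2 * (1 / r) - 10 / r) + 18 * (1 / r) := by
    have h7 : δ * (b - a) ≤ δ * (b' - a' + 6 * (1 / r)) :=
      mul_le_mul_of_nonneg_left (by linarith) hδ0
    have h8 : δ * (1 / r) ≤ 1 * (1 / r) := mul_le_mul_of_nonneg_right hδ1 hi.le
    rw [e10]
    nlinarith
  linarith

/-- Intervals of arbitrary length. -/
theorem interval_lower_long {N : ℕ} (hN : 400 ≤ N) {E : Set ℝ} (hE : MeasurableSet E)
    (hinv : ∀ x, 0 ≤ x → cf x ∈ E → x ∈ E) {δ : ℝ} (hδ0 : 0 ≤ δ) (hδ1 : δ ≤ 1)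
    (hm : ∀ k, N ≤ 4 * k + 4 → δ ≤ mass E k) :
    ∀ m : ℕ, ∀ a b : ℝ, (N : ℝ) ≤ a → a ≤ b → b ≤ N + m →
      δ * (b - a) - m * (30 / √N) ≤ ∫ x in a..b, E.indicator 1 x := by
  have hii : ∀ a b : ℝ, IntervalIntegrable (fun x => E.indicator (1 : ℝ → ℝ) x) volume a b := by
    intro a b
    rw [intervalIntegrable_iff]
    exact integrableOn_ind hE (by simp [uIoc])
  have hNpos := sqrt_nat_pos (J := N) (by omega)
  have hone : ∀ n : ℕ, N ≤ n → ∀ a b : ℝ, (n : ℝ) ≤ a → a ≤ b → b ≤ n + 1 →
      δ * (b - a) - 30 / √N ≤ ∫ x in a..b, E.indicator 1 x := by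
    intro n hn a b h1 h2 h3
    have h4 := interval_lower (hN.trans hn) hE hinv hδ0 hδ1 (fun k hk => hm k (hn.trans hk)) h1 h2 h3
    have h5 : 30 / √(n : ℝ) ≤ 30 / √(N : ℝ) :=
      div_le_div_of_nonneg_left (by norm_num) hNpos (Real.sqrt_le_sqrt (by exact_mod_cast hn))
    linarith
  intro m
  induction m with
  | zero =>
    intro a b h1 h2 h3
    have hab : a = b := by push_cast at h3; linarith
    rw [hab, intervalIntegral.integral_same]
    simp
  | succ m ih =>
    intro a b h1 h2 h3
    have hc : 0 ≤ 30 / √(N : ℝ) := by positivity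
    push_cast at h3 ⊢
    rcases le_total b (N + m) with h | h
    · have := ih a b h1 h2 h
      linarith
    rcases le_total (N + m : ℝ) a with h' | h'
    · have := hone (N + m) (by omega) a b (by push_cast; exact h') h2 (by push_cast; linarith)
      have hmc : 0 ≤ (m : ℝ) * (30 / √(N : ℝ)) := by positivity
      linarith
    · have k1 := ih a (N + m) h1 h' le_rfl
      have k2 := hone (N + m) (by omega) (N + m) b (by push_cast; exact le_rfl) h
        (by push_cast; linarith)
      rw [← intervalIntegral.integral_add_adjacent_intervals (hii a (N + m)) (hii (N + m) b)]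
      linarith

end Pool.Agent.Lib.MP_a247fa_nt.Dens
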