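import Pool.Agent.Lib.MP_a247fa_nt.Dens.Deriv

/-!
The kernel inequality: away from the integers the push-forward of Lebesgue measure under `cf` is
nearly constant on windows of length two.
-/

set_option autoImplicit false

namespace Pool.Agent.Lib.MP_a247fa_nt.Dens

open Real Set MeasureTheory

/-- The part of `[n, n+1]` on which `cf` is monotone with large derivative. -/
def PP (n : ℕ) : Set ℝ := Icc (n + 3 / √n) (n + 1 - 3 / √n)

/-- A smaller part. -/
def QQ (n : ℕ) : Set ℝ := Icc (n + 4 / √n) (n + 1 - 4 / √n)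

/-- The weight. -/
noncomputable def wt (n : ℕ) (x : ℝ) : ℝ :=
  (QQ n).indicator (fun x => 1 - 3 / n * (1 / (x - n) ^ 2 + 1 / (n + 1 - x) ^ 2)) x

/-- The index of the window `[2k, 2k+2)` containing `cf x`. -/
noncomputable def kap (x : ℝ) : ℕ := ⌊cf x / 2⌋₊

section

variable {n : ℕ}

lemma sqrt_facts (hn : 400 ≤ n) : 20 ≤ √(n : ℝ) ∧ √(n : ℝ) * √(n : ℝ) = n := by
  have h : (400 : ℝ) ≤ n := by exact_mod_cast hn
  refine ⟨?_, Real.mul_self_sqrt (by linarith)⟩
  rw [show (20 : ℝ) = √400 by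
    rw [show (400 : ℝ) = 20 ^ 2 by norm_num, Real.sqrt_sq (by norm_num)]]
  exact Real.sqrt_le_sqrt h

lemma PP_subset (hn : 400 ≤ n) : PP n ⊆ Icc (n : ℝ) (n + 1) := by
  obtain ⟨h1, -⟩ := sqrt_facts hn
  have : 0 ≤ 3 / √(n : ℝ) := by positivity
  intro x hx
  exact ⟨by linarith [hx.1], by linarith [hx.2]⟩

lemma QQ_subset_PP (hn : 400 ≤ n) : QQ n ⊆ PP n := by
  obtain ⟨h1, -⟩ := sqrt_facts hn
  have : 3 / √(n : ℝ) ≤ 4 / √(n : ℝ) := by
    apply div_le_div_of_nonneg_right (by norm_num) (by linarith)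
  intro x hx
  exact ⟨by linarith [hx.1], by linarith [hx.2]⟩

/-- lower bound of the derivative on `PP n`, in terms of the distance to the integers. -/
lemma dcf_lower_PP (hn : 400 ≤ n) {x t : ℝ} (ht : 3 / √(n : ℝ) ≤ t) (h1 : t ≤ x - n)
    (h2 : t ≤ n + 1 - x) : 2 * n * t ≤ sg n * dcf x := by
  obtain ⟨h3, h4⟩ := sqrt_facts hn
  have h5 : 0 < 3 / √(n : ℝ) := by positivity
  refine dcf_lower ?_ (by linarith) h1 h2
  have : (n : ℝ) * (3 / √n) = 3 * √n := by
    field_simp
    nlinarith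
  have h6 : (n : ℝ) * (3 / √n) ≤ n * t := mul_le_mul_of_nonneg_left ht (Nat.cast_nonneg n)
  linarith

lemma dcf_lower_PP' (hn : 400 ≤ n) {x : ℝ} (hx : x ∈ PP n) : 6 * √n ≤ sg n * dcf x := by
  obtain ⟨h3, h4⟩ := sqrt_facts hn
  have := dcf_lower_PP hn (x := x) le_rfl (by linarith [hx.1]) (by linarith [hx.2])
  have e : 2 * (n : ℝ) * (3 / √n) = 6 * √n := by
    field_simp
    nlinarith
  linarith

lemma dcf_pos_PP (hn : 400 ≤ n) {x : ℝ} (hx : x ∈ PP n) : 0 < sg n * dcf x := by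
  have := dcf_lower_PP' hn hx
  obtain ⟨h3, h4⟩ := sqrt_facts hn
  linarith

lemma abs_dcf_eq (n : ℕ) (x : ℝ) : |dcf x| = |sg n * dcf x| := by
  rw [abs_mul, abs_sg, one_mul]

lemma dcf_ne_PP (hn : 400 ≤ n) {x : ℝ} (hx : x ∈ PP n) : 0 < |dcf x| := by
  rw [abs_dcf_eq n]
  exact abs_pos.2 (dcf_pos_PP hn hx).ne'

lemma growth (hn : 400 ≤ n) {x y : ℝ} (hx : x ∈ PP n) (hy : y ∈ PP n) (hxy : x ≤ y) :
    6 * √n * (y - x) ≤ sg n * cf y - sg n * cf x := by
  have hder : ∀ z : ℝ, HasDerivAt (fun z => sg n * cf z) (sg n * dcf z) z := fun z =>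
    (hasDerivAt_cf z).const_mul _
  refine (convex_Icc _ _).mul_sub_le_image_sub_of_le_deriv (D := PP n) (f := fun z => sg n * cf z)
    (fun z _ => (hder z).continuousAt.continuousWithinAt)
    (fun z _ => (hder z).differentiableAt.differentiableWithinAt) (fun z hz => ?_) x hx y hy hxy
  rw [(hder z).deriv]
  exact dcf_lower_PP' hn (interior_subset hz)

lemma injOn_PP (hn : 400 ≤ n) : InjOn cf (PP n) := by
  obtain ⟨h3, h4⟩ := sqrt_facts hn
  have key : ∀ x ∈ PP n, ∀ y ∈ PP n, x < y → cf x ≠ cf y := by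
    intro x hx y hy hxy h
    have := growth hn hx hy hxy.le
    rw [h] at this
    have : 0 < 6 * √(n : ℝ) * (y - x) := mul_pos (by linarith) (by linarith)
    linarith
  intro x hx y hy h
  rcases lt_trichotomy x y with h1 | h1 | h1
  · exact absurd h (key x hx y hy h1)
  · exact h1
  · exact absurd h.symm (key y hy x hx h1)

lemma energy_PP (hn : 400 ≤ n) {x y : ℝ} (hx : x ∈ PP n) (hy : y ∈ PP n)
    (hxy : |cf y - cf x| ≤ 2) : dcf y ^ 2 ≤ dcf x ^ 2 + 24 * n := by
  have key : ∀ x ∈ PP n, ∀ y ∈ PP n, x ≤ y → |cf y - cf x| ≤ 2 →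
      |dcf y ^ 2 - dcf x ^ 2| ≤ 24 * n := by
    intro x hx y hy hxy h
    have h1 := PP_subset hn hx
    have h2 := PP_subset hn hy
    have h3 := energy (n := n) (by omega) h1.1 h2.2 hxy (fun z hz => by
      have : z ∈ PP n := ⟨hx.1.trans hz.1, hz.2.trans hy.2⟩
      exact (dcf_pos_PP hn this).le)
    have h4 : sg n * cf y - sg n * cf x ≤ 2 := by
      calc sg n * cf y - sg n * cf x = sg n * (cf y - cf x) := by ring
        _ ≤ |sg n * (cf y - cf x)| := le_abs_self _
        _ = |cf y - cf x| := by rw [abs_mul, abs_sg, one_mul]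
        _ ≤ 2 := h
    have h5 : (0 : ℝ) ≤ n := Nat.cast_nonneg n
    nlinarith
  rcases le_total x y with h | h
  · have := (abs_le.1 (key x hx y hy h hxy)).2
    linarith
  · have := (abs_le.1 (key y hy x hx h (by rwa [abs_sub_comm]))).1
    linarith

/-- pointwise bounds for the weight on `QQ n`. -/
lemma wt_eq {x : ℝ} (hx : x ∈ QQ n) :
    wt n x = 1 - 3 / n * (1 / (x - n) ^ 2 + 1 / (n + 1 - x) ^ 2) := indicator_of_mem hx _

lemma wt_zero {x : ℝ} (hx : x ∉ QQ n) : wt n x = 0 := indicator_of_notMem hx _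

lemma inv_sq_le (hn : 400 ≤ n) {s : ℝ} (hs : 4 / √(n : ℝ) ≤ s) :
    0 ≤ 1 / s ^ 2 ∧ 1 / s ^ 2 ≤ n / 16 := by
  obtain ⟨h3, h4⟩ := sqrt_facts hn
  have h5 : 0 < 4 / √(n : ℝ) := by positivity
  refine ⟨by positivity, ?_⟩
  have h6 : (4 / √(n : ℝ)) ^ 2 ≤ s ^ 2 := by
    apply pow_le_pow_left₀ h5.le hs
  have h7 : (4 / √(n : ℝ)) ^ 2 = 16 / n := by
    rw [div_pow, sq (√(n : ℝ)), h4]
    norm_num
  have h8 : (0 : ℝ) < n := by
    rw [← h4]; nlinarith
  calc 1 / s ^ 2 ≤ 1 / (16 / n) := by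
        apply one_div_le_one_div_of_le (by positivity)
        rw [← h7]; exact h6
    _ = n / 16 := by field_simp

lemma wt_mem (hn : 400 ≤ n) (x : ℝ) : 0 ≤ wt n x ∧ wt n x ≤ 1 := by
  by_cases hx : x ∈ QQ n
  · rw [wt_eq hx]
    obtain ⟨h1, h2⟩ := inv_sq_le hn (s := x - n) (by linarith [hx.1])
    obtain ⟨h3, h4⟩ := inv_sq_le hn (s := n + 1 - x) (by linarith [hx.2])
    have h5 : (0 : ℝ) < n := by
      have : (400 : ℝ) ≤ n := by exact_mod_cast hn
      linarith
    have h6 : 0 ≤ 3 / (n : ℝ) := by positivity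
    constructor
    · have : 3 / (n : ℝ) * (1 / (x - n) ^ 2 + 1 / (n + 1 - x) ^ 2) ≤ 3 / n * (n / 16 + n / 16) :=
        mul_le_mul_of_nonneg_left (add_le_add h2 h4) h6
      have e : 3 / (n : ℝ) * (n / 16 + n / 16) = 3 / 8 := by field_simp; norm_num
      linarith
    · have : 0 ≤ 3 / (n : ℝ) * (1 / (x - n) ^ 2 + 1 / (n + 1 - x) ^ 2) := by positivity
      linarith
  · rw [wt_zero hx]; norm_num

/-- the distortion estimate. -/
lemma wt_mul_le (hn : 400 ≤ n) {x y : ℝ} (hx : x ∈ PP n) (hy : y ∈ PP n)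
    (hxy : |cf y - cf x| ≤ 2) : wt n x * |dcf y| ≤ |dcf x| := by
  by_cases hq : x ∈ QQ n
  swap
  · rw [wt_zero hq, zero_mul]; exact abs_nonneg _
  obtain ⟨hw0, hw1⟩ := wt_mem hn x
  have hn0 : (0 : ℝ) < n := by
    have : (400 : ℝ) ≤ n := by exact_mod_cast hn
    linarith
  obtain ⟨h3, h4⟩ := sqrt_facts hn
  have hsq : 3 / √(n : ℝ) ≤ 4 / √(n : ℝ) :=
    div_le_div_of_nonneg_right (by norm_num) (by linarith)
  have hsq0 : 0 < 4 / √(n : ℝ) := by positivity
  -- distance
  set t := min (x - n) (n + 1 - x) with ht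
  have ht1 : t ≤ x - n := min_le_left _ _
  have ht2 : t ≤ n + 1 - x := min_le_right _ _
  have ht3 : 4 / √(n : ℝ) ≤ t := le_min (by linarith [hq.1]) (by linarith [hq.2])
  have ht0 : 0 < t := lt_of_lt_of_le hsq0 ht3
  have hA := dcf_lower_PP hn (hsq.trans ht3) ht1 ht2
  have hApos : 0 < |dcf x| := dcf_ne_PP hn hx
  have hA2 : 4 * n ^ 2 * t ^ 2 ≤ dcf x ^ 2 := by
    have h5 : (2 * n * t) ^ 2 ≤ (sg n * dcf x) ^ 2 := by
      apply pow_le_pow_left₀ (by positivity) hA
    have h6 : (sg n * dcf x) ^ 2 = dcf x ^ 2 := by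
      rw [← sq_abs, ← abs_dcf_eq, sq_abs]
    nlinarith
  have hE := energy_PP hn hx hy hxy
  -- the weight
  set r := 12 * n / dcf x ^ 2 with hr
  have hd0 : 0 < dcf x ^ 2 := by
    rw [← sq_abs]; positivity
  have hr0 : 0 ≤ r := by positivity
  have hr1 : wt n x ≤ 1 - r := by
    rw [wt_eq hq]
    have h7 : r ≤ 3 / n * (1 / t ^ 2) := by
      rw [hr, div_le_iff₀ hd0]
      have e : 3 / (n : ℝ) * (1 / t ^ 2) * (4 * n ^ 2 * t ^ 2) = 12 * n := by
        field_simp; norm_num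
      rw [← e]
      exact mul_le_mul_of_nonneg_left hA2 (by positivity)
    have h8 : 1 / t ^ 2 ≤ 1 / (x - n) ^ 2 + 1 / (n + 1 - x) ^ 2 := by
      rcases min_choice (x - n) (n + 1 - x) with h | h
      · rw [ht, h]; have : 0 ≤ 1 / ((n : ℝ) + 1 - x) ^ 2 := by positivity
        linarith
      · rw [ht, h]; have : 0 ≤ 1 / (x - (n : ℝ)) ^ 2 := by positivity
        linarith
    have h9 : 3 / (n : ℝ) * (1 / t ^ 2) ≤ 3 / n * (1 / (x - n) ^ 2 + 1 / (n + 1 - x) ^ 2) :=
      mul_le_mul_of_nonneg_left h8 (by positivity)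
    linarith
  have hr2 : r ≤ 1 := by linarith
  have hr3 : dcf x ^ 2 * (1 + 2 * r) = dcf x ^ 2 + 24 * n := by
    have : r * dcf x ^ 2 = 12 * n := by rw [hr, div_mul_cancel₀ _ hd0.ne']
    linear_combination 2 * this
  have hfin : (wt n x * |dcf y|) ^ 2 ≤ |dcf x| ^ 2 := by
    rw [mul_pow, sq_abs, sq_abs]
    have h10 : wt n x ^ 2 ≤ (1 - r) ^ 2 := pow_le_pow_left₀ hw0 hr1 2
    calc wt n x ^ 2 * dcf y ^ 2 ≤ (1 - r) ^ 2 * (dcf x ^ 2 * (1 + 2 * r)) := by
          apply mul_le_mul h10 (by rw [hr3]; exact hE) (by positivity) (by positivity)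
      _ = dcf x ^ 2 * ((1 - r) ^ 2 * (1 + 2 * r)) := by ring
      _ ≤ dcf x ^ 2 * 1 := by
          apply mul_le_mul_of_nonneg_left _ hd0.le
          nlinarith [mul_nonneg hr0 hr0, mul_nonneg (mul_nonneg hr0 hr0) (sub_nonneg.2 hr2)]
      _ = dcf x ^ 2 := mul_one _
  exact le_of_sq_le_sq hfin (abs_nonneg _)

/-- the preimage of a window in `PP n`. -/
def XX (n k : ℕ) : Set ℝ := PP n ∩ cf ⁻¹' (Ico (2 * k : ℝ) (2 * k + 2))

lemma measurableSet_XX (n k : ℕ) : MeasurableSet (XX n k) :=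
  measurableSet_Icc.inter (continuous_cf.measurable measurableSet_Ico)

lemma image_XX (hn : 400 ≤ n) {k : ℕ} {x : ℝ} (hx : x ∈ QQ n) (hxk : x ∈ XX n k) :
    cf '' XX n k = Ico (2 * k : ℝ) (2 * k + 2) := by
  obtain ⟨h3, h4⟩ := sqrt_facts hn
  apply Subset.antisymm
  · rintro _ ⟨z, hz, rfl⟩; exact hz.2
  · intro y hy
    have hy2 : |y - cf x| ≤ 2 := by
      have h1 := hxk.2.1
      have h2 := hxk.2.2
      rw [abs_le]; constructor <;> linarith [hy.1, hy.2]
    set a : ℝ := n + 3 / √(n : ℝ) with ha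
    set b : ℝ := n + 1 - 3 / √(n : ℝ) with hb
    have hsm : 0 < 1 / √(n : ℝ) := by positivity
    have hsm2 : 3 / √(n : ℝ) = 3 * (1 / √(n : ℝ)) := by ring
    have hsm3 : 4 / √(n : ℝ) = 4 * (1 / √(n : ℝ)) := by ring
    have hxa : a + 1 / √(n : ℝ) ≤ x := by have := hx.1; rw [hsm3] at this; rw [ha, hsm2]; linarith
    have hxb : x + 1 / √(n : ℝ) ≤ b := by have := hx.2; rw [hsm3] at this; rw [hb, hsm2]; linarith
    have hab : a ≤ b := by linarith
    have haP : a ∈ PP n := ⟨le_rfl, hab⟩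
    have hbP : b ∈ PP n := ⟨hab, le_rfl⟩
    have g1 := growth hn haP (QQ_subset_PP hn hx) (by linarith)
    have g2 := growth hn (QQ_subset_PP hn hx) hbP (by linarith)
    have e6 : 6 * √(n : ℝ) * (1 / √(n : ℝ)) = 6 := by field_simp
    have g1' : 6 ≤ sg n * cf x - sg n * cf a := by
      have : 6 * √(n : ℝ) * (1 / √(n : ℝ)) ≤ 6 * √(n : ℝ) * (x - a) :=
        mul_le_mul_of_nonneg_left (by linarith) (by positivity)
      linarith
    have g2' : 6 ≤ sg n * cf b - sg n * cf x := by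
      have : 6 * √(n : ℝ) * (1 / √(n : ℝ)) ≤ 6 * √(n : ℝ) * (b - x) :=
        mul_le_mul_of_nonneg_left (by linarith) (by positivity)
      linarith
    have hcont : ContinuousOn cf (uIcc a b) := continuous_cf.continuousOn
    have hyab : y ∈ uIcc (cf a) (cf b) := by
      rw [abs_le] at hy2
      rcases sg_cases n with h | h <;> rw [h] at g1' g2' <;> rw [mem_uIcc]
      · left; constructor <;> linarith [hy2.1, hy2.2]
      · right; constructor <;> linarith [hy2.1, hy2.2]
    obtain ⟨z, hz, hzy⟩ := intermediate_value_uIcc hcont hyab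
    rw [uIcc_of_le hab] at hz
    exact ⟨z, ⟨hz, by rw [mem_preimage, hzy]; exact hy⟩, hzy⟩

/-- `E`-mass of the window with index `k`. -/
noncomputable def mass (E : Set ℝ) (k : ℕ) : ℝ :=
  (volume (E ∩ Ico (2 * k : ℝ) (2 * k + 2))).toReal / 2

lemma window_lt_top (E : Set ℝ) (k : ℕ) : volume (E ∩ Ico (2 * k : ℝ) (2 * k + 2)) < ⊤ :=
  (measure_mono inter_subset_right).trans_lt (by simp)

lemma mass_nonneg (E : Set ℝ) (k : ℕ) : 0 ≤ mass E k := by unfold mass; positivity

lemma mass_le_one (E : Set ℝ) (k : ℕ) : mass E k ≤ 1 := by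
  unfold mass
  have h : (volume (E ∩ Ico (2 * k : ℝ) (2 * k + 2))).toReal ≤ 2 := by
    have h1 : volume (E ∩ Ico (2 * k : ℝ) (2 * k + 2)) ≤ ENNReal.ofReal 2 := by
      refine (measure_mono inter_subset_right).trans ?_
      rw [Real.volume_Ico]
      apply ENNReal.ofReal_le_ofReal
      linarith
    exact ENNReal.toReal_le_of_le_ofReal (by norm_num) h1
  linarith

lemma integrableOn_of_bdd {g : ℝ → ℝ} {C : ℝ} (hg : Measurable g) (hC : ∀ x, |g x| ≤ C)
    {s : Set ℝ} (hs : volume s < ⊤) : IntegrableOn g s := by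
  refine Measure.integrableOn_of_bounded (M := C) hs.ne hg.aestronglyMeasurable ?_
  exact Filter.Eventually.of_forall fun x => by rw [Real.norm_eq_abs]; exact hC x

lemma measurable_wt (n : ℕ) : Measurable (wt n) := by
  unfold wt
  apply Measurable.indicator _ measurableSet_Icc
  fun_prop

lemma XX_lt_top (hn : 400 ≤ n) (k : ℕ) : volume (XX n k) < ⊤ :=
  (measure_mono (inter_subset_left.trans (PP_subset hn))).trans_lt (by simp)

/-- the cell inequality. -/
lemma cell (hn : 400 ≤ n) (k : ℕ) {E : Set ℝ} (hE : MeasurableSet E) :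
    (∫ x in XX n k, wt n x) * mass E k ≤ ∫ x in XX n k, E.indicator 1 (cf x) := by
  have hX := measurableSet_XX n k
  have hXtop := XX_lt_top hn k
  by_cases hq : ∃ x ∈ XX n k, x ∈ QQ n
  swap
  · have h0 : ∫ x in XX n k, wt n x = 0 := by
      rw [setIntegral_congr_fun hX (g := fun _ => 0) fun x hx => wt_zero fun h => hq ⟨x, hx, h⟩]
      simp
    rw [h0, zero_mul]
    exact setIntegral_nonneg hX fun x _ => indicator_nonneg (fun _ _ => zero_le_one) _
  obtain ⟨x₀, hx₀, hq₀⟩ := hq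
  have him := image_XX hn hq₀ hx₀
  have hinj : InjOn cf (XX n k) := (injOn_PP hn).mono inter_subset_left
  have hder : ∀ x ∈ XX n k, HasDerivWithinAt cf (dcf x) (XX n k) x := fun x _ =>
    (hasDerivAt_cf x).hasDerivWithinAt
  -- change of variables
  have hK : (volume (E ∩ Ico (2 * k : ℝ) (2 * k + 2))).toReal =
      ∫ x in XX n k, |dcf x| * E.indicator 1 (cf x) := by
    have h1 := integral_image_eq_integral_abs_deriv_smul hX hder hinj (E.indicator (1 : ℝ → ℝ))
    rw [him, integral_indicator_one hE] at h1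
    simp only [smul_eq_mul] at h1
    rw [← h1, measureReal_restrict_apply hE, measureReal_def]
  have h2 : (2 : ℝ) = ∫ x in XX n k, |dcf x| := by
    have h1 := integral_image_eq_integral_abs_deriv_smul hX hder hinj (fun _ => (1 : ℝ))
    rw [him] at h1
    simp only [smul_eq_mul, mul_one] at h1
    rw [← h1]
    simp
  set V := ∫ x in XX n k, E.indicator (1 : ℝ → ℝ) (cf x) with hV
  have hmeasE : Measurable fun x => E.indicator (1 : ℝ → ℝ) (cf x) :=
    (measurable_one.indicator hE).comp continuous_cf.measurable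
  have hind : ∀ y : ℝ, 0 ≤ E.indicator (1 : ℝ → ℝ) y ∧ E.indicator (1 : ℝ → ℝ) y ≤ 1 := fun y =>
    ⟨indicator_nonneg (fun _ _ => zero_le_one) _,
      indicator_le_self' (fun _ _ => zero_le_one) y |>.trans (by simp)⟩
  have hdint : IntegrableOn (fun x => |dcf x|) (XX n k) := by
    apply IntegrableOn.mono_set (t := Icc (n : ℝ) (n + 1))
    · exact (continuous_dcf.abs).continuousOn.integrableOn_Icc
    · exact inter_subset_left.trans (PP_subset hn)
  have hEint : IntegrableOn (fun x => E.indicator (1 : ℝ → ℝ) (cf x)) (XX n k) :=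
    integrableOn_of_bdd hmeasE (C := 1) (fun x => by
      rw [abs_of_nonneg (hind _).1]; exact (hind _).2) hXtop
  have hdEint : IntegrableOn (fun x => |dcf x| * E.indicator (1 : ℝ → ℝ) (cf x)) (XX n k) := by
    refine Integrable.mono' hdint
      ((continuous_dcf.abs.measurable.mul hmeasE).aestronglyMeasurable) ?_
    refine Filter.Eventually.of_forall fun x => ?_
    rw [Real.norm_eq_abs, abs_mul, abs_abs, abs_of_nonneg (hind _).1]
    exact mul_le_of_le_one_right (abs_nonneg _) (hind _).2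
  set K := ∫ x in XX n k, |dcf x| * E.indicator (1 : ℝ → ℝ) (cf x) with hKdef
  have hpt : ∀ x ∈ XX n k, wt n x * K ≤ |dcf x| * V := by
    intro x hx
    rw [hKdef, hV, ← integral_const_mul, ← integral_const_mul]
    refine setIntegral_mono_on (hdEint.const_mul _) (hEint.const_mul _) hX fun y hy => ?_
    rw [← mul_assoc]
    refine mul_le_mul_of_nonneg_right (wt_mul_le hn hx.1 hy.1 ?_) (hind _).1
    have a1 := hx.2
    have a2 := hy.2
    rw [mem_preimage, mem_Ico] at a1 a2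
    rw [abs_le]; constructor <;> linarith [a1.1, a1.2, a2.1, a2.2]
  have hfin : (∫ x in XX n k, wt n x) * K ≤ 2 * V := by
    rw [h2, ← integral_mul_const, ← integral_mul_const]
    refine setIntegral_mono_on ?_ (hdint.mul_const _) hX hpt
    exact (integrableOn_of_bdd (measurable_wt n) (C := 1) (fun x => by
      rw [abs_of_nonneg (wt_mem hn x).1]; exact (wt_mem hn x).2) hXtop).mul_const _
  have : mass E k = K / 2 := by rw [mass, hK]
  rw [this]
  linarith

lemma kap_eq_iff {x : ℝ} (hx : 0 ≤ cf x) (k : ℕ) :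
    kap x = k ↔ cf x ∈ Ico (2 * k : ℝ) (2 * k + 2) := by
  unfold kap
  rw [Nat.floor_eq_iff (by linarith), mem_Ico]
  constructor
  · rintro ⟨h1, h2⟩; constructor <;> linarith
  · rintro ⟨h1, h2⟩; constructor <;> linarith

lemma measurable_kap : Measurable kap :=
  Nat.measurable_floor.comp (continuous_cf.measurable.div_const 2)

/-- **The kernel inequality.** -/
theorem kernel (hn : 400 ≤ n) {E : Set ℝ} (hE : MeasurableSet E) :
    ∫ x in Icc (n : ℝ) (n + 1), wt n x * mass E (kap x) ≤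
      ∫ x in Icc (n : ℝ) (n + 1), E.indicator 1 (cf x) := by
  have hcf0 : ∀ x ∈ Icc (n : ℝ) (n + 1), 0 ≤ cf x ∧ cf x < 2 * ((2 * n + 2 : ℕ) : ℝ) := by
    intro x hx
    have hx0 : 0 ≤ x := (Nat.cast_nonneg n).trans hx.1
    refine ⟨by linarith [cf_ge x hx0], ?_⟩
    have := cf_le x hx0
    have h5 := hx.2
    have : (0 : ℝ) ≤ n := Nat.cast_nonneg n
    push_cast
    linarith
  set Y : ℕ → Set ℝ := fun k => Icc (n : ℝ) (n + 1) ∩ kap ⁻¹' {k} with hY
  have hYm : ∀ k, MeasurableSet (Y k) := fun k =>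
    measurableSet_Icc.inter (measurable_kap (measurableSet_singleton k))
  have hun : Icc (n : ℝ) (n + 1) = ⋃ k ∈ Finset.range (2 * n + 2), Y k := by
    ext x
    simp only [hY, mem_iUnion, Finset.mem_range, mem_inter_iff, mem_preimage, mem_singleton_iff,
      exists_prop]
    constructor
    · intro hx
      refine ⟨kap x, ?_, hx, rfl⟩
      obtain ⟨h1, h2⟩ := hcf0 x hx
      unfold kap
      rw [Nat.floor_lt (by linarith)]
      linarith
    · rintro ⟨k, -, hx, -⟩; exact hx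
  have hdisj : Set.Pairwise (↑(Finset.range (2 * n + 2))) (Function.onFun Disjoint Y) := by
    intro i _ j _ hij
    rw [Function.onFun, Set.disjoint_left]
    rintro x ⟨-, h1⟩ ⟨-, h2⟩
    rw [mem_preimage, mem_singleton_iff] at h1 h2
    exact hij (h1.symm.trans h2)
  have hYtop : ∀ k, volume (Y k) < ⊤ := fun k =>
    (measure_mono inter_subset_left).trans_lt (by simp)
  have hind : ∀ y : ℝ, 0 ≤ E.indicator (1 : ℝ → ℝ) y ∧ E.indicator (1 : ℝ → ℝ) y ≤ 1 := fun y =>
    ⟨indicator_nonneg (fun _ _ => zero_le_one) _,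
      indicator_le_self' (fun _ _ => zero_le_one) y |>.trans (by simp)⟩
  have hmeasE : Measurable fun x => E.indicator (1 : ℝ → ℝ) (cf x) :=
    (measurable_one.indicator hE).comp continuous_cf.measurable
  have hmeasW : Measurable fun x => wt n x * mass E (kap x) :=
    (measurable_wt n).mul ((measurable_from_nat (f := mass E)).comp measurable_kap)
  have hint1 : ∀ k, IntegrableOn (fun x => E.indicator (1 : ℝ → ℝ) (cf x)) (Y k) := fun k =>
    integrableOn_of_bdd hmeasE (C := 1) (fun x => by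
      rw [abs_of_nonneg (hind _).1]; exact (hind _).2) (hYtop k)
  have hint2 : ∀ k, IntegrableOn (fun x => wt n x * mass E (kap x)) (Y k) := fun k =>
    integrableOn_of_bdd hmeasW (C := 1) (fun x => by
      rw [abs_of_nonneg (mul_nonneg (wt_mem hn x).1 (mass_nonneg _ _))]
      exact mul_le_one₀ (wt_mem hn x).2 (mass_nonneg _ _) (mass_le_one _ _)) (hYtop k)
  rw [hun, integral_biUnion_finset _ (fun k _ => hYm k) hdisj (fun k _ => hint2 k),
    integral_biUnion_finset _ (fun k _ => hYm k) hdisj (fun k _ => hint1 k)]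
  refine Finset.sum_le_sum fun k _ => ?_
  have hXY : XX n k ⊆ Y k := by
    rintro x ⟨h1, h2⟩
    have h3 := PP_subset hn h1
    exact ⟨h3, (kap_eq_iff (hcf0 x h3).1 k).2 h2⟩
  have hXm := measurableSet_XX n k
  have e1 : ∫ x in Y k, wt n x * mass E (kap x) = ∫ x in XX n k, wt n x * mass E (kap x) := by
    refine setIntegral_eq_of_subset_of_forall_sdiff_eq_zero (hYm k) hXY ?_
    rintro x ⟨h1, h2⟩
    rw [wt_zero, zero_mul]
    intro hq
    exact h2 ⟨QQ_subset_PP hn hq, (kap_eq_iff (hcf0 x h1.1).1 k).1 h1.2⟩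
  have e2 : ∫ x in XX n k, wt n x * mass E (kap x) = (∫ x in XX n k, wt n x) * mass E k := by
    rw [← integral_mul_const]
    refine setIntegral_congr_fun hXm fun x hx => ?_
    have : kap x = k := (hXY hx).2
    simp only [this]
  rw [e1, e2]
  refine (cell hn k hE).trans ?_
  exact setIntegral_mono_set (hint1 k) (Filter.Eventually.of_forall fun x => (hind _).1)
    (Filter.Eventually.of_forall hXY)

end

end Pool.Agent.Lib.MP_a247fa_nt.Dens
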