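import Pool.Agent.Lib.MP_a247fa_nt.Dens.Mass

/-!
Sequences that are almost harmonic for the averaging operator converge.
-/

set_option autoImplicit false

namespace Pool.Agent.Lib.MP_a247fa_nt.Dens

open Real Set MeasureTheory Filter Topology
open scoped NNReal ENNReal

lemma abs_dcf_le {X x : ℝ} (h0 : 0 ≤ x) (hx : x ≤ X) : |dcf x| ≤ 2 * X + 4 := by
  have hpi : π < 3.15 := Real.pi_lt_d2
  have hpi0 := Real.pi_pos
  have hs := Real.abs_sin_le_one (π * x)
  have hc := Real.neg_one_le_cos (π * x)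
  have hc' := Real.cos_le_one (π * x)
  have h1 : |(2 * x + 1) * π / 4 * sin (π * x)| ≤ (2 * X + 1) * 3.15 / 4 := by
    rw [abs_mul, abs_of_nonneg (by positivity : 0 ≤ (2 * x + 1) * π / 4)]
    have h2 : (2 * x + 1) * π ≤ (2 * X + 1) * 3.15 :=
      mul_le_mul (by linarith) hpi.le hpi0.le (by linarith)
    have h3 : (2 * x + 1) * π / 4 * |sin (π * x)| ≤ (2 * x + 1) * π / 4 * 1 :=
      mul_le_mul_of_nonneg_left hs (by positivity)
    linarith
  have h2 := abs_le.1 h1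
  rw [dcf, abs_le]
  constructor <;> linarith [h2.1, h2.2]

lemma volume_image_le {X : ℝ} (hX : 0 ≤ X) {s : Set ℝ} (hs : s ⊆ Icc 0 X) :
    volume (cf '' s) ≤ ENNReal.ofReal (2 * X + 4) * volume s := by
  have hl : LipschitzOnWith (Real.toNNReal (2 * X + 4)) cf (Icc 0 X) := by
    apply (convex_Icc 0 X).lipschitzOnWith_of_nnnorm_hasDerivWithin_le (f' := dcf)
    · intro x _; exact (hasDerivAt_cf x).hasDerivWithinAt
    · intro x hx
      rw [← NNReal.coe_le_coe, coe_nnnorm, Real.coe_toNNReal _ (by linarith), Real.norm_eq_abs]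
      exact abs_dcf_le hx.1 hx.2
  have := (hl.mono hs).hausdorffMeasure_image_le (d := 1) zero_le_one
  rw [MeasureTheory.hausdorffMeasure_real, ENNReal.rpow_one] at this
  exact this

/-- The part of `[2j, 2j+1]` mapped into the window `i`. -/
def hit (j i : ℕ) : Set ℝ := Icc ((2 * j : ℕ) : ℝ) ((2 * j : ℕ) + 1) ∩ kap ⁻¹' {i}

lemma measurableSet_hit (j i : ℕ) : MeasurableSet (hit j i) :=
  measurableSet_Icc.inter (measurable_kap (measurableSet_singleton i))

lemma hit_lt_top (j i : ℕ) : volume (hit j i) < ⊤ :=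
  (measure_mono inter_subset_left).trans_lt (by simp)

lemma cf_two_mul (j : ℕ) : cf ((2 * j : ℕ) : ℝ) = j := by
  rw [cf_natCast]; simp [T]

lemma cf_two_mul_add_one (j : ℕ) : cf (((2 * j : ℕ) : ℝ) + 1) = 3 * j + 2 := by
  have h : ((2 * j : ℕ) : ℝ) + 1 = ((2 * j + 1 : ℕ) : ℝ) := by push_cast; ring
  rw [h, cf_natCast]
  have e : (3 * (2 * j + 1) + 1) / 2 = 3 * j + 2 := by omega
  have e2 : (2 * j + 1) % 2 = 1 := by omega
  simp only [T, e2, one_ne_zero, if_false, e]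
  push_cast; ring

lemma volume_hit {j i : ℕ} (hj : 6 ≤ j) (h1 : j ≤ 2 * i) (h2 : 2 * i ≤ 3 * j) :
    2 / (5 * (j : ℝ)) ≤ (volume (hit j i)).toReal := by
  have hj' : (6 : ℝ) ≤ j := by exact_mod_cast hj
  have h1' : (j : ℝ) ≤ 2 * i := by exact_mod_cast h1
  have h2' : (2 * i : ℝ) ≤ 3 * j := by exact_mod_cast h2
  have hsub : Ico (2 * i : ℝ) (2 * i + 2) ⊆ cf '' hit j i := by
    intro y hy
    have hiv := intermediate_value_Icc (a := ((2 * j : ℕ) : ℝ)) (b := ((2 * j : ℕ) : ℝ) + 1)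
      (by linarith) (continuous_cf.continuousOn)
    rw [cf_two_mul, cf_two_mul_add_one] at hiv
    obtain ⟨x, hx, hxy⟩ := hiv ⟨h1'.trans hy.1, by linarith [hy.2]⟩
    refine ⟨x, ⟨hx, ?_⟩, hxy⟩
    rw [mem_preimage, mem_singleton_iff, kap_eq_iff]
    · rw [hxy]; exact hy
    · rw [hxy]
      have : (0 : ℝ) ≤ 2 * i := by positivity
      linarith [hy.1]
  have hX : hit j i ⊆ Icc 0 (2 * (j : ℝ) + 1) := by
    rintro x ⟨hx, -⟩
    have a1 := hx.1
    have a2 := hx.2
    push_cast at a1 a2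
    constructor <;> linarith
  have h3 := (measure_mono hsub).trans (volume_image_le (by linarith) hX)
  rw [Real.volume_Ico] at h3
  have h4 := ENNReal.toReal_mono (ENNReal.mul_ne_top ENNReal.ofReal_ne_top (hit_lt_top j i).ne) h3
  rw [ENNReal.toReal_mul, ENNReal.toReal_ofReal (by linarith), ENNReal.toReal_ofReal (by linarith)]
    at h4
  have h5 : (2 * (2 * (j : ℝ) + 1) + 4) * (volume (hit j i)).toReal ≤
      5 * j * (volume (hit j i)).toReal :=
    mul_le_mul_of_nonneg_right (by linarith) ENNReal.toReal_nonneg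
  rw [div_le_iff₀ (by positivity)]
  linarith

/-- The averaging operator charges every window in the middle range. -/
lemma le_Nop {j : ℕ} (hj : 6 ≤ j) {w : ℕ → ℝ} (hw : ∀ i, j ≤ 2 * i + 1 → 0 ≤ w i)
    (F : Finset ℕ) (hF : ∀ i ∈ F, j ≤ 2 * i ∧ 2 * i ≤ 3 * j) :
    ∑ i ∈ F, w i ≤ 5 * j * Nop w j := by
  have hj' : (6 : ℝ) ≤ j := by exact_mod_cast hj
  have hdisj : Set.Pairwise (↑F) (Function.onFun Disjoint (hit j)) := by
    intro i _ k _ hik
    rw [Function.onFun, Set.disjoint_left]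
    rintro x ⟨-, h1⟩ ⟨-, h2⟩
    rw [mem_preimage, mem_singleton_iff] at h1 h2
    exact hik (h1.symm.trans h2)
  have hsub : (⋃ i ∈ F, hit j i) ⊆ Icc ((2 * j : ℕ) : ℝ) ((2 * j : ℕ) + 1) :=
    iUnion₂_subset fun i _ => inter_subset_left
  have hint := integrableOn_u (2 * j) w
  have h1 : ∑ i ∈ F, w i * (volume (hit j i)).toReal ≤
      ∫ x in Icc ((2 * j : ℕ) : ℝ) ((2 * j : ℕ) + 1), w (kap x) := by
    have e : ∫ x in ⋃ i ∈ F, hit j i, w (kap x) = ∑ i ∈ F, w i * (volume (hit j i)).toReal := by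
      rw [integral_biUnion_finset _ (fun i _ => measurableSet_hit j i) hdisj
        (fun i _ => hint.mono_set inter_subset_left)]
      refine Finset.sum_congr rfl fun i _ => ?_
      have hcg : ∀ x ∈ hit j i, w (kap x) = (fun _ => w i) x := fun x hx => by
        have : kap x = i := hx.2
        simp only [this]
      rw [setIntegral_congr_fun (measurableSet_hit j i) hcg, setIntegral_const, smul_eq_mul,
        measureReal_def, mul_comm]
    rw [← e]
    refine setIntegral_mono_set hint ?_ (Filter.Eventually.of_forall hsub)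
    refine (ae_restrict_iff' measurableSet_Icc).2 (Filter.Eventually.of_forall fun x hx => ?_)
    exact hw _ (kap_lower (mem_win_left hx).1)
  have h2 : 0 ≤ ∫ x in Icc ((2 * j + 1 : ℕ) : ℝ) ((2 * j + 1 : ℕ) + 1), w (kap x) :=
    setIntegral_nonneg measurableSet_Icc fun x hx => hw _ (kap_lower (mem_win_right hx).1)
  have h3 : ∑ i ∈ F, w i * (2 / (5 * (j : ℝ))) ≤ ∑ i ∈ F, w i * (volume (hit j i)).toReal :=
    Finset.sum_le_sum fun i hi => mul_le_mul_of_nonneg_left
      (volume_hit hj (hF i hi).1 (hF i hi).2) (hw i (by have := (hF i hi).1; omega))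
  rw [← Finset.sum_mul] at h3
  have h4 : (∑ i ∈ F, w i) * (2 / (5 * (j : ℝ))) ≤ 2 * Nop w j := by
    unfold Nop; linarith
  have h5 : (∑ i ∈ F, w i) = (∑ i ∈ F, w i) * (2 / (5 * (j : ℝ))) * (5 * j / 2) := by
    field_simp
  rw [h5]
  calc (∑ i ∈ F, w i) * (2 / (5 * (j : ℝ))) * (5 * j / 2) ≤ 2 * Nop w j * (5 * j / 2) :=
        mul_le_mul_of_nonneg_right h4 (by positivity)
    _ = 5 * j * Nop w j := by ring

/-- one block contains a large value -/
lemma exists_block {a : ℕ → ℝ} {J : ℕ} {L ε : ℝ} (hJ : 200 ≤ J) (ha1 : ∀ i, a i ≤ 1)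
    (h1 : ∀ j, 200 ≤ j → a j ≤ Nop a j + 8 / √j) (hε : 600 / √(J : ℝ) ≤ ε)
    (hL : ∃ᶠ i in atTop, L - ε < a i) :
    ∃ i, J ≤ 2 * i + 1 ∧ i < J ∧ L - 2 * ε < a i := by
  by_contra hcon
  push Not at hcon
  have hc := upper_comparison (a := a) (s := L - 2 * ε) hJ ha1
    (fun i h2 h3 => hcon i h2 h3) (fun j hj => h1 j (hJ.trans hj))
  apply hL
  filter_upwards [eventually_ge_atTop J] with i hi
  have := hc i (by omega)
  linarith

/-- **Convergence.** -/
theorem exists_limit {a : ℕ → ℝ} (h0 : ∀ i, 0 ≤ a i) (h1 : ∀ i, a i ≤ 1)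
    (hup : ∀ j, 200 ≤ j → a j ≤ Nop a j + 8 / √j)
    (hlo : ∀ j, 200 ≤ j → Nop a j ≤ a j + 8 / √j) :
    ∃ d : ℝ, Tendsto a atTop (𝓝 d) := by
  set L := limsup a atTop with hL
  set l := liminf a atTop with hl
  have hba : IsBoundedUnder (· ≤ ·) atTop a := isBoundedUnder_of ⟨1, h1⟩
  have hbb : IsBoundedUnder (· ≥ ·) atTop a := isBoundedUnder_of ⟨0, h0⟩
  have hlL : l ≤ L := liminf_le_limsup hba hbb
  rcases hlL.eq_or_lt with heq | hlt
  · exact ⟨L, tendsto_of_le_liminf_of_limsup_le (by rw [← hl, heq]) le_rfl hba hbb⟩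
  exfalso
  set ε := (L - l) / 1000 with hε
  have hε0 : 0 < ε := by rw [hε]; linarith
  have hfL : ∃ᶠ i in atTop, L - ε < a i :=
    frequently_lt_of_lt_limsup hbb.isCoboundedUnder_le (by rw [← hL]; linarith)
  have hfl : ∃ᶠ i in atTop, a i < l + ε :=
    frequently_lt_of_liminf_lt hba.isCoboundedUnder_ge (by rw [← hl]; linarith)
  have heL : ∀ᶠ i in atTop, a i < L + ε :=
    eventually_lt_of_limsup_lt (by rw [← hL]; linarith) hba
  have hel : ∀ᶠ i in atTop, l - ε < a i :=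
    eventually_lt_of_lt_liminf (by rw [← hl]; linarith) hbb
  have hsq : Tendsto (fun M : ℕ => 600 / √(M : ℝ)) atTop (𝓝 0) := by
    apply Tendsto.div_atTop tendsto_const_nhds
    exact Real.tendsto_sqrt_atTop.comp tendsto_natCast_atTop_atTop
  have hsm : ∀ᶠ M : ℕ in atTop, 600 / √(M : ℝ) < ε := hsq.eventually (gt_mem_nhds hε0)
  obtain ⟨N1, hN1⟩ := eventually_atTop.1 heL
  obtain ⟨N2, hN2⟩ := eventually_atTop.1 hel
  obtain ⟨N3, hN3⟩ := eventually_atTop.1 hsm
  set M := N1 + N2 + N3 + 200 with hM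
  have hM4 : 600 / √((4 * M : ℕ) : ℝ) ≤ ε := (hN3 (4 * M) (by omega)).le
  have h8 : ∀ j, 2 * M ≤ j → 8 / √(j : ℝ) ≤ ε := by
    intro j hj
    have h2 := (hN3 j (by omega)).le
    have h3 := sqrt_nat_pos (J := j) (by omega)
    have : 8 / √(j : ℝ) ≤ 600 / √(j : ℝ) := div_le_div_of_nonneg_right (by norm_num) h3.le
    linarith
  obtain ⟨j, hj1, hj2, hj3⟩ := exists_block (J := 4 * M) (L := L) (by omega) h1 hup hM4 hfL
  have hup' : ∀ j, 200 ≤ j → (1 - a j) ≤ Nop (fun i => 1 - a i) j + 8 / √j := by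
    intro j hj
    have e : Nop (fun i => 1 - a i) j = 1 - Nop a j := by
      have : (fun i => 1 - a i) = fun i => 1 + (-1) * a i := by funext i; ring
      rw [this, Nop_add, Nop_const, Nop_smul]; ring
    have := hlo j hj
    linarith
  have hfl' : ∃ᶠ i in atTop, (1 - l) - ε < 1 - a i := hfl.mono fun i hi => by linarith
  obtain ⟨j', hj1', hj2', hj3'⟩ := exists_block (a := fun i => 1 - a i) (J := 4 * M) (L := 1 - l)
    (by omega) (fun i => by linarith [h0 i]) hup' hM4 hfl'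
  have hjj : 2 * M ≤ j := by omega
  have hjj' : 2 * M ≤ j' := by omega
  -- the two sums
  have s1 := le_Nop (j := j) (by omega) (w := fun i => (L + ε) + (-1) * a i)
    (fun i hi => by have := hN1 i (by omega); linarith) (Finset.Icc (2 * M) (3 * M))
    (fun i hi => by rw [Finset.mem_Icc] at hi; omega)
  have s2 := le_Nop (j := j') (by omega) (w := fun i => (-l + ε) + a i)
    (fun i hi => by have := hN2 i (by omega); linarith) (Finset.Icc (2 * M) (3 * M))
    (fun i hi => by rw [Finset.mem_Icc] at hi; omega)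
  rw [Nop_add, Nop_const, Nop_smul] at s1
  rw [Nop_add, Nop_const] at s2
  have t1 := hup j (by omega)
  have t2 := hlo j' (by omega)
  have t3 := h8 j hjj
  have t4 := h8 j' hjj'
  have hjr : (j : ℝ) ≤ 4 * M := by
    have : (j : ℝ) ≤ ((4 * M : ℕ) : ℝ) := by exact_mod_cast hj2.le
    push_cast at this; exact this
  have hjr' : (j' : ℝ) ≤ 4 * M := by
    have : (j' : ℝ) ≤ ((4 * M : ℕ) : ℝ) := by exact_mod_cast hj2'.le
    push_cast at this; exact this
  have hMr : (0 : ℝ) < M := by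
    have : 0 < M := by omega
    exact_mod_cast this
  have u1 : ∑ i ∈ Finset.Icc (2 * M) (3 * M), ((L + ε) + (-1) * a i) ≤ 5 * (4 * M) * (4 * ε) := by
    refine s1.trans ?_
    calc 5 * (j : ℝ) * (L + ε + -1 * Nop a j) ≤ 5 * (j : ℝ) * (4 * ε) :=
          mul_le_mul_of_nonneg_left (by linarith) (by positivity)
      _ ≤ 5 * (4 * M) * (4 * ε) := mul_le_mul_of_nonneg_right (by linarith) (by positivity)
  have u2 : ∑ i ∈ Finset.Icc (2 * M) (3 * M), ((-l + ε) + a i) ≤ 5 * (4 * M) * (4 * ε) := by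
    refine s2.trans ?_
    calc 5 * (j' : ℝ) * (-l + ε + Nop a j') ≤ 5 * (j' : ℝ) * (4 * ε) :=
          mul_le_mul_of_nonneg_left (by linarith) (by positivity)
      _ ≤ 5 * (4 * M) * (4 * ε) := mul_le_mul_of_nonneg_right (by linarith) (by positivity)
  have u3 : ∑ i ∈ Finset.Icc (2 * M) (3 * M), ((L + ε) + (-1) * a i) +
      ∑ i ∈ Finset.Icc (2 * M) (3 * M), ((-l + ε) + a i) = ((M : ℝ) + 1) * (L - l + 2 * ε) := by
    rw [← Finset.sum_add_distrib]
    have : ∀ i ∈ Finset.Icc (2 * M) (3 * M), ((L + ε) + (-1) * a i) + ((-l + ε) + a i) =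
        L - l + 2 * ε := fun i _ => by ring
    rw [Finset.sum_congr rfl this, Finset.sum_const, Nat.card_Icc, nsmul_eq_mul]
    congr 1
    have : 3 * M + 1 - 2 * M = M + 1 := by omega
    rw [this]; push_cast; ring
  have hLl : L - l = 1000 * ε := by rw [hε]; ring
  rw [hLl] at u3
  have hMe : 0 < (M : ℝ) * ε := mul_pos hMr hε0
  have g1 : ((M : ℝ) + 1) * (1000 * ε + 2 * ε) = 1002 * ((M : ℝ) * ε) + 1002 * ε := by ring
  have g2 : 5 * (4 * (M : ℝ)) * (4 * ε) = 80 * ((M : ℝ) * ε) := by ring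
  rw [g1] at u3
  rw [g2] at u1 u2
  linarith

end Pool.Agent.Lib.MP_a247fa_nt.Dens
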