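import Pool.Agent.Lib.MP_a247fa_nt.Dens.Compare

/-!
The window masses of an invariant set are almost harmonic for the averaging operator.
-/

set_option autoImplicit false

namespace Pool.Agent.Lib.MP_a247fa_nt.Dens

open Real Set MeasureTheory Filter Topology

lemma ind_bounds (E : Set ℝ) (y : ℝ) :
    0 ≤ E.indicator (1 : ℝ → ℝ) y ∧ E.indicator (1 : ℝ → ℝ) y ≤ 1 :=
  ⟨indicator_nonneg (fun _ _ => zero_le_one) _,
    indicator_le_self' (fun _ _ => zero_le_one) y |>.trans (by simp)⟩

lemma integrableOn_ind {E : Set ℝ} (hE : MeasurableSet E) {s : Set ℝ} (hs : volume s < ⊤) :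
    IntegrableOn (fun x => E.indicator (1 : ℝ → ℝ) x) s :=
  integrableOn_of_bdd (measurable_one.indicator hE) (C := 1) (fun x => by
      rw [abs_of_nonneg (ind_bounds E x).1]; exact (ind_bounds E x).2) hs

lemma integrableOn_ind_cf {E : Set ℝ} (hE : MeasurableSet E) {s : Set ℝ} (hs : volume s < ⊤) :
    IntegrableOn (fun x => E.indicator (1 : ℝ → ℝ) (cf x)) s :=
  integrableOn_of_bdd ((measurable_one.indicator hE).comp continuous_cf.measurable) (C := 1)
    (fun x => by
      rw [Function.comp_apply, abs_of_nonneg (ind_bounds E _).1]; exact (ind_bounds E _).2) hs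

lemma mass_eq {E : Set ℝ} (hE : MeasurableSet E) (j : ℕ) :
    mass E j = ((∫ x in Icc ((2 * j : ℕ) : ℝ) ((2 * j : ℕ) + 1), E.indicator 1 x) +
      ∫ x in Icc ((2 * j + 1 : ℕ) : ℝ) ((2 * j + 1 : ℕ) + 1), E.indicator 1 x) / 2 := by
  unfold mass
  congr 1
  have h1 : (volume (E ∩ Ico (2 * j : ℝ) (2 * j + 2))).toReal =
      ∫ x in Ico (2 * j : ℝ) (2 * j + 2), E.indicator 1 x := by
    rw [integral_indicator_one hE, measureReal_restrict_apply hE, measureReal_def]
  rw [h1, integral_Ico_eq_integral_Ioc, integral_Icc_eq_integral_Ioc, integral_Icc_eq_integral_Ioc,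
    ← intervalIntegral.integral_of_le (by linarith), ← intervalIntegral.integral_of_le (by linarith),
    ← intervalIntegral.integral_of_le (by linarith)]
  have e1 : ((2 * j : ℕ) : ℝ) = 2 * j := by push_cast; ring
  have e2 : ((2 * j + 1 : ℕ) : ℝ) = 2 * j + 1 := by push_cast; ring
  rw [e1, e2, show (2 * j + 1 + 1 : ℝ) = 2 * j + 2 by ring]
  have hi : ∀ a b : ℝ, a ≤ b → IntervalIntegrable (fun x => E.indicator (1 : ℝ → ℝ) x) volume a b :=
    fun a b hab => by
      rw [intervalIntegrable_iff_integrableOn_Ioc_of_le hab]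
      exact integrableOn_ind hE (by simp)
  exact (intervalIntegral.integral_add_adjacent_intervals (hi _ _ (by linarith))
    (hi _ _ (by linarith))).symm

lemma mass_compl {E : Set ℝ} (hE : MeasurableSet E) (k : ℕ) : mass Eᶜ k = 1 - mass E k := by
  unfold mass
  have h1 : volume (E ∩ Ico (2 * k : ℝ) (2 * k + 2)) + volume (Eᶜ ∩ Ico (2 * k : ℝ) (2 * k + 2)) =
      ENNReal.ofReal 2 := by
    have := measure_inter_add_sdiff (μ := volume) (Ico (2 * k : ℝ) (2 * k + 2)) hE
    rw [Real.volume_Ico] at this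
    rw [inter_comm E, inter_comm Eᶜ, ← sdiff_eq, this]
    congr 1; ring
  have h2 := congrArg ENNReal.toReal h1
  rw [ENNReal.toReal_add (window_lt_top E k).ne (window_lt_top Eᶜ k).ne,
    ENNReal.toReal_ofReal (by norm_num)] at h2
  linarith

lemma Pop_le_mass {j : ℕ} (hj : 200 ≤ j) {E : Set ℝ} (hE : MeasurableSet E)
    (hinv : ∀ x, 0 ≤ x → cf x ∈ E → x ∈ E) : Pop (mass E) j ≤ mass E j := by
  have key : ∀ n : ℕ, 400 ≤ n → ∫ x in Icc (n : ℝ) (n + 1), wt n x * mass E (kap x) ≤
      ∫ x in Icc (n : ℝ) (n + 1), E.indicator 1 x := by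
    intro n hn
    refine (kernel hn hE).trans ?_
    refine setIntegral_mono_on (integrableOn_ind_cf hE (by simp)) (integrableOn_ind hE (by simp))
      measurableSet_Icc fun x hx => ?_
    by_cases h : cf x ∈ E
    · rw [indicator_of_mem h, indicator_of_mem (hinv x (mem_unit hx) h)]
      simp
    · rw [indicator_of_notMem h]
      exact (ind_bounds E x).1
  have k1 := key (2 * j) (by omega)
  have k2 := key (2 * j + 1) (by omega)
  rw [mass_eq hE]
  unfold Pop
  linarith

lemma mass_le_Nop {j : ℕ} (hj : 200 ≤ j) {S : Set ℝ} (hS : MeasurableSet S)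
    (hinv : ∀ x, 0 ≤ x → x ∈ S → cf x ∈ S) : mass S j ≤ Nop (mass S) j + 8 / √j := by
  have h1 := Pop_le_mass hj hS.compl (fun x hx h h2 => h (hinv x hx h2))
  have h2 := Nop_sub_Pop hj (u := mass Sᶜ) (C := 1) (fun i _ => mass_nonneg _ _)
    (fun i _ => mass_le_one _ _)
  have h3 : Nop (mass Sᶜ) j = 1 - Nop (mass S) j := by
    have e : mass Sᶜ = fun i => 1 + (-1) * mass S i := by
      funext i; rw [mass_compl hS]; ring
    rw [e, Nop_add, Nop_const, Nop_smul]; ring
  rw [mass_compl hS] at h1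
  linarith

end Pool.Agent.Lib.MP_a247fa_nt.Dens
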