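import Pool.Agent.Lib.MP_a247fa_nt.Dens.Kernel

/-!
The averaging operators attached to `cf` on the windows `[2j, 2j+2)`.
-/

set_option autoImplicit false

namespace Pool.Agent.Lib.MP_a247fa_nt.Dens

open Real Set MeasureTheory

/-- Weighted average of `u` over the windows hit by the image of the window `j`. -/
noncomputable def Pop (u : ℕ → ℝ) (j : ℕ) : ℝ :=
  ((∫ x in Icc ((2 * j : ℕ) : ℝ) ((2 * j : ℕ) + 1), wt (2 * j) x * u (kap x)) +
    ∫ x in Icc ((2 * j + 1 : ℕ) : ℝ) ((2 * j + 1 : ℕ) + 1), wt (2 * j + 1) x * u (kap x)) / 2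

/-- Unweighted average. -/
noncomputable def Nop (u : ℕ → ℝ) (j : ℕ) : ℝ :=
  ((∫ x in Icc ((2 * j : ℕ) : ℝ) ((2 * j : ℕ) + 1), u (kap x)) +
    ∫ x in Icc ((2 * j + 1 : ℕ) : ℝ) ((2 * j + 1 : ℕ) + 1), u (kap x)) / 2

lemma kap_lower {j : ℕ} {x : ℝ} (hx : (2 * j : ℝ) ≤ x) : j ≤ 2 * kap x + 1 := by
  have hx0 : 0 ≤ x := le_trans (by positivity) hx
  have h1 := cf_ge x hx0
  have h2 : cf x / 2 < kap x + 1 := Nat.lt_floor_add_one _
  have h3 : (j : ℝ) < 2 * kap x + 2 := by linarith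
  have h4 : j < 2 * kap x + 2 := by exact_mod_cast h3
  omega

lemma kap_upper {n : ℕ} {x : ℝ} (hx0 : 0 ≤ x) (hx : x ≤ n + 1) : kap x ≤ n + 1 := by
  have h1 := cf_le x hx0
  have h0 := cf_ge x hx0
  have h2 : (kap x : ℝ) ≤ cf x / 2 := Nat.floor_le (by linarith)
  have hn : (0 : ℝ) ≤ n := Nat.cast_nonneg n
  have h3 : (kap x : ℝ) ≤ (n + 1 : ℕ) := by push_cast; linarith
  exact_mod_cast h3

lemma mem_unit {n : ℕ} {x : ℝ} (hx : x ∈ Icc (n : ℝ) (n + 1)) : 0 ≤ x :=
  (Nat.cast_nonneg n).trans hx.1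

lemma measurable_u (u : ℕ → ℝ) : Measurable fun x => u (kap x) :=
  (measurable_from_nat (f := u)).comp measurable_kap

lemma bdd_u (u : ℕ → ℝ) (n : ℕ) : ∃ C : ℝ, 0 ≤ C ∧ ∀ x ∈ Icc (n : ℝ) (n + 1), |u (kap x)| ≤ C := by
  refine ⟨∑ k ∈ Finset.range (n + 2), |u k|, Finset.sum_nonneg fun _ _ => abs_nonneg _,
    fun x hx => ?_⟩
  have := kap_upper (mem_unit hx) hx.2
  exact Finset.single_le_sum (f := fun k => |u k|) (fun _ _ => abs_nonneg _)
    (Finset.mem_range.2 (by omega))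

lemma integrableOn_mul (n : ℕ) {g : ℝ → ℝ} (hg : Measurable g)
    (hg1 : ∀ x, |g x| ≤ 1) (u : ℕ → ℝ) :
    IntegrableOn (fun x => g x * u (kap x)) (Icc (n : ℝ) (n + 1)) := by
  obtain ⟨C, hC0, hC⟩ := bdd_u u n
  refine Measure.integrableOn_of_bounded (M := C) (by simp)
    (hg.mul (measurable_u u)).aestronglyMeasurable ?_
  refine (ae_restrict_iff' measurableSet_Icc).2 (Filter.Eventually.of_forall fun x hx => ?_)
  rw [Real.norm_eq_abs, abs_mul]
  calc |g x| * |u (kap x)| ≤ 1 * C :=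
        mul_le_mul (hg1 x) (hC x hx) (abs_nonneg _) zero_le_one
    _ = C := one_mul C

lemma integrableOn_u (n : ℕ) (u : ℕ → ℝ) :
    IntegrableOn (fun x => u (kap x)) (Icc (n : ℝ) (n + 1)) := by
  have := integrableOn_mul n (g := fun _ => 1) measurable_const (fun _ => by simp) u
  simpa using this

lemma abs_wt_le {n : ℕ} (hn : 400 ≤ n) (x : ℝ) : |wt n x| ≤ 1 := by
  rw [abs_of_nonneg (wt_mem hn x).1]; exact (wt_mem hn x).2

lemma integrableOn_wt {n : ℕ} (hn : 400 ≤ n) (u : ℕ → ℝ) :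
    IntegrableOn (fun x => wt n x * u (kap x)) (Icc (n : ℝ) (n + 1)) :=
  integrableOn_mul n (measurable_wt n) (abs_wt_le hn) u

section

variable {j : ℕ}

lemma cast_two_mul (j : ℕ) : ((2 * j : ℕ) : ℝ) = 2 * j := by push_cast; ring

/-- monotonicity on the relevant range -/
lemma Nop_mono {u v : ℕ → ℝ} (h : ∀ i, j ≤ 2 * i + 1 → u i ≤ v i) : Nop u j ≤ Nop v j := by
  unfold Nop
  have h1 : ∫ x in Icc ((2 * j : ℕ) : ℝ) ((2 * j : ℕ) + 1), u (kap x) ≤
      ∫ x in Icc ((2 * j : ℕ) : ℝ) ((2 * j : ℕ) + 1), v (kap x) := by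
    refine setIntegral_mono_on (integrableOn_u _ u) (integrableOn_u _ v) measurableSet_Icc
      fun x hx => h _ (kap_lower ?_)
    have := hx.1; push_cast at this; exact this
  have h2 : ∫ x in Icc ((2 * j + 1 : ℕ) : ℝ) ((2 * j + 1 : ℕ) + 1), u (kap x) ≤
      ∫ x in Icc ((2 * j + 1 : ℕ) : ℝ) ((2 * j + 1 : ℕ) + 1), v (kap x) := by
    refine setIntegral_mono_on (integrableOn_u _ u) (integrableOn_u _ v) measurableSet_Icc
      fun x hx => h _ (kap_lower ?_)
    have := hx.1; push_cast at this; linarith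
  linarith

lemma Pop_mono (hj : 200 ≤ j) {u v : ℕ → ℝ} (h : ∀ i, j ≤ 2 * i + 1 → u i ≤ v i) :
    Pop u j ≤ Pop v j := by
  unfold Pop
  have hn1 : 400 ≤ 2 * j := by omega
  have hn2 : 400 ≤ 2 * j + 1 := by omega
  have h1 := setIntegral_mono_on (integrableOn_wt hn1 u) (integrableOn_wt hn1 v) measurableSet_Icc
      (fun x hx => mul_le_mul_of_nonneg_left (h _ (kap_lower (by
        have := hx.1; push_cast at this; exact this))) (wt_mem hn1 x).1)
  have h2 := setIntegral_mono_on (integrableOn_wt hn2 u) (integrableOn_wt hn2 v) measurableSet_Icc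
      (fun x hx => mul_le_mul_of_nonneg_left (h _ (kap_lower (by
        have := hx.1; push_cast at this; linarith))) (wt_mem hn2 x).1)
  linarith

lemma Nop_const (c : ℝ) : Nop (fun _ => c) j = c := by
  unfold Nop
  simp

lemma Nop_add (u v : ℕ → ℝ) : Nop (fun i => u i + v i) j = Nop u j + Nop v j := by
  unfold Nop
  rw [integral_add (integrableOn_u _ u) (integrableOn_u _ v),
    integral_add (integrableOn_u _ u) (integrableOn_u _ v)]
  ring

lemma Nop_smul (c : ℝ) (u : ℕ → ℝ) : Nop (fun i => c * u i) j = c * Nop u j := by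
  unfold Nop
  rw [integral_const_mul, integral_const_mul]
  ring

lemma Pop_add (hj : 200 ≤ j) (u v : ℕ → ℝ) : Pop (fun i => u i + v i) j = Pop u j + Pop v j := by
  unfold Pop
  simp only [mul_add]
  rw [integral_add (integrableOn_wt (by omega) u) (integrableOn_wt (by omega) v),
    integral_add (integrableOn_wt (by omega) u) (integrableOn_wt (by omega) v)]
  ring

lemma Pop_smul (c : ℝ) (u : ℕ → ℝ) : Pop (fun i => c * u i) j = c * Pop u j := by
  unfold Pop
  have e : ∀ n : ℕ, (fun x => wt n x * (c * u (kap x))) = fun x => c * (wt n x * u (kap x)) :=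
    fun n => funext fun x => by ring
  rw [e, e, integral_const_mul, integral_const_mul]
  ring

lemma integrableOn_one_sub_wt {n : ℕ} (hn : 400 ≤ n) :
    IntegrableOn (fun x => 1 - wt n x) (Icc (n : ℝ) (n + 1)) := by
  have hm : Measurable fun x => 1 - wt n x := measurable_const.sub (measurable_wt n)
  refine integrableOn_of_bdd hm (C := 1) (fun x => ?_) (by simp)
  have := wt_mem hn x
  rw [abs_le]; constructor <;> linarith [this.1, this.2]

/-- the total loss of weight on one unit interval -/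
lemma int_wt {n : ℕ} (hn : 400 ≤ n) : ∫ x in Icc (n : ℝ) (n + 1), (1 - wt n x) ≤ 10 / √n := by
  obtain ⟨h3, h4⟩ := sqrt_facts hn
  have hn0 : (0 : ℝ) < n := by
    have : (400 : ℝ) ≤ n := by exact_mod_cast hn
    linarith
  set r := √(n : ℝ) with hr
  have hr0 : 0 < r := by linarith
  have hsub : QQ n ⊆ Icc (n : ℝ) (n + 1) := (QQ_subset_PP hn).trans (PP_subset hn)
  have hab : (n : ℝ) + 4 / r ≤ n + 1 - 4 / r := by
    have : 4 / r ≤ 4 / 20 := div_le_div_of_nonneg_left (by norm_num) (by norm_num) h3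
    linarith
  have hint := integrableOn_one_sub_wt hn
  have hQm : MeasurableSet (QQ n) := measurableSet_Icc
  have hIQ : Icc (n : ℝ) (n + 1) ∩ QQ n = QQ n := inter_eq_self_of_subset_right hsub
  rw [← integral_inter_add_sdiff hQm hint, hIQ]
  -- outside QQ
  have hout : ∫ x in Icc (n : ℝ) (n + 1) \ QQ n, (1 - wt n x) = 8 / r := by
    have hc : ∀ x ∈ Icc (n : ℝ) (n + 1) \ QQ n, 1 - wt n x = (fun _ => (1 : ℝ)) x := by
      intro x hx
      simp only
      rw [wt_zero hx.2, sub_zero]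
    have hmd : MeasurableSet (Icc (n : ℝ) (n + 1) \ QQ n) := measurableSet_Icc.diff hQm
    rw [setIntegral_congr_fun hmd hc, setIntegral_const, smul_eq_mul, mul_one,
      measureReal_diff hsub hQm (by simp [QQ])]
    simp only [QQ, Real.volume_real_Icc]
    rw [max_eq_left (by linarith), max_eq_left (by linarith)]
    ring
  -- inside
  have key : ∀ g G : ℝ → ℝ, (∀ x ∈ Icc (n + 4 / r) (n + 1 - 4 / r), HasDerivAt G (g x) x) →
      ContinuousOn g (Icc (n + 4 / r) (n + 1 - 4 / r)) →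
      IntegrableOn g (QQ n) ∧ ∫ x in QQ n, g x = G (n + 1 - 4 / r) - G (n + 4 / r) := by
    intro g G hG hgc
    have hi : IntegrableOn g (QQ n) := hgc.integrableOn_Icc
    refine ⟨hi, ?_⟩
    rw [show QQ n = Icc (n + 4 / r) (n + 1 - 4 / r) from rfl, integral_Icc_eq_integral_Ioc,
      ← intervalIntegral.integral_of_le hab]
    apply intervalIntegral.integral_eq_sub_of_hasDerivAt
    · intro x hx; rw [uIcc_of_le hab] at hx; exact hG x hx
    · rw [intervalIntegrable_iff_integrableOn_Icc_of_le hab]; exact hgc.integrableOn_Icc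
  have hne1 : ∀ x ∈ Icc (n + 4 / r) (n + 1 - 4 / r), x - (n : ℝ) ≠ 0 := by
    intro x hx
    have : 0 < 4 / r := by positivity
    have := hx.1
    intro h; linarith
  have hne2 : ∀ x ∈ Icc (n + 4 / r) (n + 1 - 4 / r), (n : ℝ) + 1 - x ≠ 0 := by
    intro x hx
    have : 0 < 4 / r := by positivity
    have := hx.2
    intro h; linarith
  obtain ⟨i1, e1⟩ := key (fun x => 1 / (x - n) ^ 2) (fun x => -(1 / (x - n)))
    (fun x hx => by
      have h1 : HasDerivAt (fun x : ℝ => x - n) 1 x := (hasDerivAt_id x).sub_const _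
      have h2 := (h1.inv (hne1 x hx)).neg
      simp only [one_div]
      refine h2.congr_deriv ?_
      ring)
    (by
      apply ContinuousOn.div continuousOn_const (by fun_prop)
      intro x hx; exact pow_ne_zero 2 (hne1 x hx))
  obtain ⟨i2, e2⟩ := key (fun x => 1 / (n + 1 - x) ^ 2) (fun x => 1 / (n + 1 - x))
    (fun x hx => by
      have h1 : HasDerivAt (fun x : ℝ => n + 1 - x) (-1) x := by
        simpa using (hasDerivAt_id x).const_sub ((n : ℝ) + 1)
      have h2 := (h1.inv (hne2 x hx))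
      simp only [one_div]
      refine h2.congr_deriv ?_
      ring)
    (by
      apply ContinuousOn.div continuousOn_const (by fun_prop)
      intro x hx; exact pow_ne_zero 2 (hne2 x hx))
  have hin : ∫ x in QQ n, (1 - wt n x) ≤ 3 / n * (r / 2) := by
    have hc : ∀ x ∈ QQ n, 1 - wt n x =
        (fun x : ℝ => 3 / (n : ℝ) * (1 / (x - n) ^ 2 + 1 / (n + 1 - x) ^ 2)) x := by
      intro x hx
      simp only
      rw [wt_eq hx]; ring
    rw [setIntegral_congr_fun hQm hc]
    rw [integral_const_mul, integral_add i1 i2, e1, e2]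
    apply mul_le_mul_of_nonneg_left _ (by positivity)
    have h5 : (n : ℝ) + 4 / r - n = 4 / r := by ring
    have h6 : (n : ℝ) + 1 - (n + 1 - 4 / r) = 4 / r := by ring
    rw [h5, h6]
    have h7 : 1 / (4 / r) = r / 4 := by field_simp
    rw [h7]
    have h8 : 0 ≤ 1 / ((n : ℝ) + 1 - 4 / r - n) := by
      apply one_div_nonneg.2; linarith
    have h9 : 0 ≤ 1 / ((n : ℝ) + 1 - (n + 4 / r)) := by
      apply one_div_nonneg.2; linarith
    linarith
  rw [hout]
  have e3 : 3 / (n : ℝ) * (r / 2) = 3 / 2 / r := by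
    rw [← h4]; field_simp
  rw [e3] at hin
  have : 3 / 2 / r + 8 / r ≤ 10 / r := by
    rw [← add_div]; apply div_le_div_of_nonneg_right (by norm_num) hr0.le
  linarith

/-- `Nop` and `Pop` are close. -/
lemma Nop_sub_Pop (hj : 200 ≤ j) {u : ℕ → ℝ} {C : ℝ} (h0 : ∀ i, j ≤ 2 * i + 1 → 0 ≤ u i)
    (hC : ∀ i, j ≤ 2 * i + 1 → u i ≤ C) : Nop u j - Pop u j ≤ C * (8 / √j) := by
  have hn1 : 400 ≤ 2 * j := by omega
  have hn2 : 400 ≤ 2 * j + 1 := by omega
  have hC0 : 0 ≤ C := (h0 j (by omega)).trans (hC j (by omega))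
  have key : ∀ n : ℕ, 400 ≤ n → (∀ x ∈ Icc (n : ℝ) (n + 1), j ≤ 2 * kap x + 1) →
      (∫ x in Icc (n : ℝ) (n + 1), u (kap x)) - ∫ x in Icc (n : ℝ) (n + 1), wt n x * u (kap x) ≤
        C * (10 / √n) := by
    intro n hn hk
    rw [← integral_sub (integrableOn_u _ u) (integrableOn_wt hn u)]
    refine le_trans ?_ (mul_le_mul_of_nonneg_left (int_wt hn) hC0)
    rw [← integral_const_mul]
    have hi := integrableOn_one_sub_wt hn
    refine setIntegral_mono_on ((integrableOn_u _ u).sub (integrableOn_wt hn u))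
      (hi.const_mul _) measurableSet_Icc fun x hx => ?_
    have h1 := wt_mem hn x
    have h2 := h0 _ (hk x hx)
    have h3 := hC _ (hk x hx)
    nlinarith
  have k1 := key (2 * j) hn1 (fun x hx => kap_lower (by
        have := hx.1; push_cast at this; exact this))
  have k2 := key (2 * j + 1) hn2 (fun x hx => kap_lower (by
        have := hx.1; push_cast at this; linarith))
  have hj0 : (0 : ℝ) < j := by
    have : (200 : ℝ) ≤ j := by exact_mod_cast hj
    linarith
  have hsj : 0 < √(j : ℝ) := Real.sqrt_pos.2 hj0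
  have hs2 : (7 / 5 : ℝ) * √j ≤ √((2 * j : ℕ) : ℝ) := by
    have : (7 / 5 : ℝ) = √((7 / 5) ^ 2) := by rw [Real.sqrt_sq (by norm_num)]
    rw [this, ← Real.sqrt_mul (by norm_num)]
    apply Real.sqrt_le_sqrt
    push_cast; linarith
  have hs3 : (7 / 5 : ℝ) * √j ≤ √((2 * j + 1 : ℕ) : ℝ) :=
    hs2.trans (Real.sqrt_le_sqrt (by push_cast; linarith))
  have q1 : 10 / √((2 * j : ℕ) : ℝ) ≤ 8 / √j := by
    rw [div_le_div_iff₀ (lt_of_lt_of_le (by positivity) hs2) hsj]
    linarith
  have q2 : 10 / √((2 * j + 1 : ℕ) : ℝ) ≤ 8 / √j := by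
    rw [div_le_div_iff₀ (lt_of_lt_of_le (by positivity) hs3) hsj]
    linarith
  have q1' := mul_le_mul_of_nonneg_left q1 hC0
  have q2' := mul_le_mul_of_nonneg_left q2 hC0
  unfold Nop Pop
  linarith

end

end Pool.Agent.Lib.MP_a247fa_nt.Dens
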