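import Pool.Agent.Lib.MP_a247fa_nt.Dens.Oper

/-!
Two Lyapunov functions for the averaging operator.
-/

set_option autoImplicit false

namespace Pool.Agent.Lib.MP_a247fa_nt.Dens

open Real Set MeasureTheory

/-- The increasing potential. -/
noncomputable def UU (i : ℕ) : ℝ := √((i : ℝ) + 1)

/-- The decreasing potential. -/
noncomputable def VV (i : ℕ) : ℝ := 1 / √((i : ℝ) + 1)

lemma UU_pos (i : ℕ) : 0 < UU i := Real.sqrt_pos.2 (by positivity)

lemma VV_pos (i : ℕ) : 0 < VV i := by unfold VV; positivity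

lemma UU_ge_one (i : ℕ) : 1 ≤ UU i := by
  unfold UU
  rw [show (1 : ℝ) = √1 by simp]
  apply Real.sqrt_le_sqrt
  have : (0 : ℝ) ≤ i := Nat.cast_nonneg i
  simp only [Real.sqrt_one]
  linarith

lemma sqrt_taylor {s : ℝ} (h1 : -(1 / 2) ≤ s) (h2 : s ≤ 1 / 2) :
    √(1 + s) ≤ 1 + s / 2 - s ^ 2 / 8 + s ^ 3 / 16 := by
  have hs2 : s ^ 2 ≤ 1 / 4 := by nlinarith
  have hs2' : 0 ≤ s ^ 2 := sq_nonneg s
  have hs3 : -(1 / 8) ≤ s ^ 3 := by nlinarith
  apply Real.sqrt_le_iff.2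
  constructor
  · linarith
  · have e : (1 + s / 2 - s ^ 2 / 8 + s ^ 3 / 16) ^ 2 =
        1 + s + s ^ 4 * (5 / 64 - s / 64 + s ^ 2 / 256) := by ring
    rw [e]
    have : 0 ≤ s ^ 4 * (5 / 64 - s / 64 + s ^ 2 / 256) := by
      apply mul_nonneg (by positivity)
      linarith
    linarith

lemma inv_sqrt_taylor {s : ℝ} (h1 : -(1 / 2) ≤ s) (h2 : s ≤ 1 / 2) :
    1 - s / 2 + 3 * s ^ 2 / 8 - 5 * s ^ 3 / 16 ≤ 1 / √(1 + s) := by
  have hs2 : s ^ 2 ≤ 1 / 4 := by nlinarith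
  have hs2' : 0 ≤ s ^ 2 := sq_nonneg s
  have hs3 : s ^ 3 ≤ 1 / 8 := by nlinarith
  have h0 : 0 < 1 + s := by linarith
  have hq : 0 < √(1 + s) := Real.sqrt_pos.2 h0
  rw [le_div_iff₀ hq]
  apply le_of_sq_le_sq _ zero_le_one
  rw [mul_pow, Real.sq_sqrt h0.le]
  have e : (1 - s / 2 + 3 * s ^ 2 / 8 - 5 * s ^ 3 / 16) ^ 2 * (1 + s) =
      1 - s ^ 4 * (35 / 64 - 14 / 64 * s + 35 / 256 * s ^ 2 - 25 / 256 * s ^ 3) := by ring
  rw [e]
  have : 0 ≤ s ^ 4 * (35 / 64 - 14 / 64 * s + 35 / 256 * s ^ 2 - 25 / 256 * s ^ 3) := by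
    apply mul_nonneg (by positivity)
    linarith
  linarith

lemma int_poly (a b c : ℝ) (j : ℕ) :
    ∫ x in (2 * j : ℝ)..(2 * j + 2), (1 + a * cos (π * x) + b * cos (π * x) ^ 2 +
      c * cos (π * x) ^ 3) = 2 + b := by
  have hder : ∀ x : ℝ, HasDerivAt (fun x => x + a * (sin (π * x) / π) +
      b * (x / 2 + sin (π * x) * cos (π * x) / (2 * π)) +
      c * (sin (π * x) / π - sin (π * x) ^ 3 / (3 * π)))
      (1 + a * cos (π * x) + b * cos (π * x) ^ 2 + c * cos (π * x) ^ 3) x := by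
    intro x
    have h1 : HasDerivAt (fun y : ℝ => π * y) π x := by
      simpa using (hasDerivAt_id x).const_mul π
    have hc := h1.cos
    have hs := h1.sin
    have hpi := Real.pi_ne_zero
    have h5 := (((hasDerivAt_id x).add ((hs.div_const π).const_mul a)).add
      ((((hasDerivAt_id x).div_const 2).add ((hs.mul hc).div_const (2 * π))).const_mul b)).add
      (((hs.div_const π).sub ((hs.pow 3).div_const (3 * π))).const_mul c)
    refine h5.congr_deriv ?_
    have hsc : sin (π * x) ^ 2 = 1 - cos (π * x) ^ 2 := by rw [Real.sin_sq]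
    field_simp
    push_cast
    norm_num
    have e : sin (π * x) ^ 2 = 1 - cos (π * x) ^ 2 := hsc
    linear_combination (-(c * cos (π * x)) * 6 - b * 3) * e
  rw [intervalIntegral.integral_eq_sub_of_hasDerivAt (fun x _ => hder x)]
  · have s1 : sin (π * (2 * j : ℝ)) = 0 := by
      have := Real.sin_nat_mul_pi (2 * j)
      rw [← this]; congr 1; push_cast; ring
    have s2 : sin (π * (2 * j + 2 : ℝ)) = 0 := by
      have := Real.sin_nat_mul_pi (2 * j + 2)
      rw [← this]; congr 1; push_cast; ring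
    rw [s1, s2]
    ring
  · apply Continuous.intervalIntegrable
    fun_prop

/-- The multiplier function. -/
noncomputable def gg (x : ℝ) : ℝ := 1 + (-(cos (π * x) / 2))

lemma ss_bounds (x : ℝ) : -(1 / 2) ≤ -(cos (π * x) / 2) ∧ -(cos (π * x) / 2) ≤ 1 / 2 := by
  have hc := Real.neg_one_le_cos (π * x)
  have hc' := Real.cos_le_one (π * x)
  constructor <;> linarith

lemma kap_succ_le {j : ℕ} {x : ℝ} (hx0 : (2 * j : ℝ) ≤ x) (hx : x ≤ 2 * j + 2) :
    (kap x : ℝ) + 1 ≤ (j + 3) * gg x := by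
  have hj : (0 : ℝ) ≤ j := Nat.cast_nonneg j
  have h0 : 0 ≤ x := by linarith
  have h1 : 0 ≤ cf x := by linarith [cf_ge x h0]
  have h2 : (kap x : ℝ) ≤ cf x / 2 := Nat.floor_le (by linarith)
  have h3 : cf x = (x + 1 / 2) * gg x - 1 / 4 := by unfold cf gg; ring
  have hg : 1 / 2 ≤ gg x := by unfold gg; linarith [(ss_bounds x).1]
  have h4 : (x + 1 / 2) * gg x ≤ (2 * j + 2 + 1 / 2) * gg x :=
    mul_le_mul_of_nonneg_right (by linarith) (by linarith)
  nlinarith

lemma mem_win_left {j : ℕ} {x : ℝ} (hx : x ∈ Icc ((2 * j : ℕ) : ℝ) ((2 * j : ℕ) + 1)) :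
    (2 * j : ℝ) ≤ x ∧ x ≤ 2 * j + 2 := by
  have h1 := hx.1
  have h2 := hx.2
  push_cast at h1 h2
  constructor <;> linarith

lemma mem_win_right {j : ℕ} {x : ℝ} (hx : x ∈ Icc ((2 * j + 1 : ℕ) : ℝ) ((2 * j + 1 : ℕ) + 1)) :
    (2 * j : ℝ) ≤ x ∧ x ≤ 2 * j + 2 := by
  have h1 := hx.1
  have h2 := hx.2
  push_cast at h1 h2
  constructor <;> linarith

lemma int_split {j : ℕ} {h : ℝ → ℝ} (hc : Continuous h) :
    (∫ x in Icc ((2 * j : ℕ) : ℝ) ((2 * j : ℕ) + 1), h x) +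
      ∫ x in Icc ((2 * j + 1 : ℕ) : ℝ) ((2 * j + 1 : ℕ) + 1), h x =
    ∫ x in (2 * j : ℝ)..(2 * j + 2), h x := by
  rw [integral_Icc_eq_integral_Ioc, integral_Icc_eq_integral_Ioc,
    ← intervalIntegral.integral_of_le (by linarith), ← intervalIntegral.integral_of_le (by linarith)]
  have e1 : ((2 * j : ℕ) : ℝ) = 2 * j := by push_cast; ring
  have e2 : ((2 * j + 1 : ℕ) : ℝ) = 2 * j + 1 := by push_cast; ring
  rw [e1, e2, show (2 * j + 1 + 1 : ℝ) = 2 * j + 2 by ring]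
  exact intervalIntegral.integral_add_adjacent_intervals (hc.intervalIntegrable _ _)
    (hc.intervalIntegrable _ _)

lemma Nop_le_of {j : ℕ} {u : ℕ → ℝ} {h : ℝ → ℝ} (hc : Continuous h)
    (hb : ∀ x, (2 * j : ℝ) ≤ x → x ≤ 2 * j + 2 → u (kap x) ≤ h x) :
    Nop u j ≤ (∫ x in (2 * j : ℝ)..(2 * j + 2), h x) / 2 := by
  rw [← int_split hc]
  unfold Nop
  have h1 := setIntegral_mono_on (integrableOn_u (2 * j) u)
    (hc.continuousOn.integrableOn_Icc (μ := volume) (a := ((2 * j : ℕ) : ℝ))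
      (b := ((2 * j : ℕ) : ℝ) + 1)) measurableSet_Icc
    (fun x hx => hb x (mem_win_left hx).1 (mem_win_left hx).2)
  have h2 := setIntegral_mono_on (integrableOn_u (2 * j + 1) u)
    (hc.continuousOn.integrableOn_Icc (μ := volume) (a := ((2 * j + 1 : ℕ) : ℝ))
      (b := ((2 * j + 1 : ℕ) : ℝ) + 1)) measurableSet_Icc
    (fun x hx => hb x (mem_win_right hx).1 (mem_win_right hx).2)
  linarith

lemma le_Nop_of {j : ℕ} {u : ℕ → ℝ} {h : ℝ → ℝ} (hc : Continuous h)
    (hb : ∀ x, (2 * j : ℝ) ≤ x → x ≤ 2 * j + 2 → h x ≤ u (kap x)) :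
    (∫ x in (2 * j : ℝ)..(2 * j + 2), h x) / 2 ≤ Nop u j := by
  rw [← int_split hc]
  unfold Nop
  have h1 := setIntegral_mono_on (hc.continuousOn.integrableOn_Icc (μ := volume)
      (a := ((2 * j : ℕ) : ℝ)) (b := ((2 * j : ℕ) : ℝ) + 1)) (integrableOn_u (2 * j) u)
    measurableSet_Icc
    (fun x hx => hb x (mem_win_left hx).1 (mem_win_left hx).2)
  have h2 := setIntegral_mono_on (hc.continuousOn.integrableOn_Icc (μ := volume)
      (a := ((2 * j + 1 : ℕ) : ℝ)) (b := ((2 * j + 1 : ℕ) : ℝ) + 1)) (integrableOn_u (2 * j + 1) u)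
    measurableSet_Icc
    (fun x hx => hb x (mem_win_right hx).1 (mem_win_right hx).2)
  linarith

/-- `UU` is a strict supersolution. -/
lemma Nop_UU {j : ℕ} (hj : 200 ≤ j) : Nop UU j ≤ 99 / 100 * UU j := by
  have hj' : (200 : ℝ) ≤ j := by exact_mod_cast hj
  have hc : Continuous fun x : ℝ => √((j : ℝ) + 3) * (1 + (-(1 / 4)) * cos (π * x) +
      (-(1 / 32)) * cos (π * x) ^ 2 + (-(1 / 128)) * cos (π * x) ^ 3) := by fun_prop
  refine (Nop_le_of hc fun x h1 h2 => ?_).trans ?_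
  · have h3 := kap_succ_le h1 h2
    have h4 : UU (kap x) ≤ √((j : ℝ) + 3) * √(gg x) := by
      unfold UU
      rw [← Real.sqrt_mul (by positivity)]
      exact Real.sqrt_le_sqrt h3
    refine h4.trans (mul_le_mul_of_nonneg_left ?_ (Real.sqrt_nonneg _))
    have h5 := sqrt_taylor (ss_bounds x).1 (ss_bounds x).2
    unfold gg
    refine h5.trans (le_of_eq ?_)
    ring
  · rw [intervalIntegral.integral_const_mul, int_poly]
    have h6 : √((j : ℝ) + 3) * (63 / 64) ≤ 99 / 100 * UU j := by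
      unfold UU
      apply le_of_sq_le_sq _ (by positivity)
      rw [mul_pow, mul_pow, Real.sq_sqrt (by positivity), Real.sq_sqrt (by positivity)]
      nlinarith
    linarith

/-- `VV` is a strict subsolution. -/
lemma Nop_VV {j : ℕ} (hj : 200 ≤ j) : 33 / 32 * VV j ≤ Nop VV j := by
  have hj' : (200 : ℝ) ≤ j := by exact_mod_cast hj
  have hc : Continuous fun x : ℝ => 1 / √((j : ℝ) + 3) * (1 + (1 / 4) * cos (π * x) +
      (3 / 32) * cos (π * x) ^ 2 + (5 / 128) * cos (π * x) ^ 3) := by fun_prop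
  refine le_trans ?_ (le_Nop_of hc fun x h1 h2 => ?_)
  · rw [intervalIntegral.integral_const_mul, int_poly]
    have h6 : 33 / 32 * VV j ≤ 1 / √((j : ℝ) + 3) * (67 / 64) := by
      unfold VV
      have hp1 : 0 < √((j : ℝ) + 1) := Real.sqrt_pos.2 (by linarith)
      have hp2 : 0 < √((j : ℝ) + 3) := Real.sqrt_pos.2 (by linarith)
      have h7 : 33 / 32 * √((j : ℝ) + 3) ≤ 67 / 64 * √((j : ℝ) + 1) := by
        apply le_of_sq_le_sq _ (by positivity)
        rw [mul_pow, mul_pow, Real.sq_sqrt (by positivity), Real.sq_sqrt (by positivity)]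
        nlinarith
      rw [mul_one_div, one_div_mul_eq_div, div_le_div_iff₀ hp1 hp2]
      linarith
    linarith
  · have h3 := kap_succ_le h1 h2
    have hg : 1 / 2 ≤ gg x := by unfold gg; linarith [(ss_bounds x).1]
    have hk : (0 : ℝ) < (kap x : ℝ) + 1 := by positivity
    have h4 : 1 / √((j : ℝ) + 3) * (1 / √(gg x)) ≤ VV (kap x) := by
      unfold VV
      rw [one_div_mul_one_div, ← Real.sqrt_mul (by positivity)]
      exact one_div_le_one_div_of_le (Real.sqrt_pos.2 hk) (Real.sqrt_le_sqrt h3)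
    refine le_trans (mul_le_mul_of_nonneg_left ?_ (by positivity)) h4
    have h5 := inv_sqrt_taylor (ss_bounds x).1 (ss_bounds x).2
    unfold gg
    refine le_trans (le_of_eq ?_) h5
    ring

end Pool.Agent.Lib.MP_a247fa_nt.Dens
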