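import Pool.Agent.Lib.MP_a247fa_nt.Dens.Basin

/-!
The window masses of a completely invariant set converge at a power rate, with absolute constants.

Let `S`, `I` be bounds for `a i`, `i ≥ M`. The averaging operator moves at least a twentieth of the
mass of every window `j` with `2 M ≤ j < 4 M` evenly to the windows `2 M, ..., 3 M`, so all these
`a j` are in an interval of length `19 / 20 (S - I)`, up to `8 / √j`; by the comparison principle
the same is true for all `j ≥ 2 M`, up to `306 / √M`.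
-/

set_option autoImplicit false

namespace Pool.Agent.Lib.MP_a247fa_nt.Dens

open Real Set MeasureTheory Filter Topology

/-- One step of the contraction, from above. -/
lemma step_upper {a : ℕ → ℝ} {M : ℕ} {S A : ℝ} (hM : 200 ≤ M) (ha1 : ∀ i, a i ≤ 1)
    (hS : ∀ i, M ≤ i → a i ≤ S)
    (hup : ∀ j, 200 ≤ j → a j ≤ Nop a j + 8 / √j)
    (hA : ∑ i ∈ Finset.Icc (2 * M) (3 * M), a i = ((M : ℝ) + 1) * A) :
    ∀ j, 2 * M ≤ j → a j ≤ (19 / 20) * S + (1 / 20) * A + 306 / √M := by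
  have hMr : (200 : ℝ) ≤ M := by exact_mod_cast hM
  have hsM := sqrt_nat_pos hM
  have hSA : A ≤ S := by
    have h1 : ∑ i ∈ Finset.Icc (2 * M) (3 * M), a i ≤ ∑ i ∈ Finset.Icc (2 * M) (3 * M), S :=
      Finset.sum_le_sum fun i hi => hS i (by rw [Finset.mem_Icc] at hi; omega)
    rw [hA, Finset.sum_const, Nat.card_Icc, nsmul_eq_mul] at h1
    have e : 3 * M + 1 - 2 * M = M + 1 := by omega
    rw [e] at h1
    push_cast at h1
    exact le_of_mul_le_mul_left h1 (by linarith)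
  have hblock : ∀ j, 4 * M ≤ 2 * j + 1 → j < 4 * M →
      a j ≤ (19 / 20) * S + (1 / 20) * A + 6 / √M := by
    intro j hj1 hj2
    have hj3 : 2 * M ≤ j := by omega
    have hj4 : (j : ℝ) ≤ 4 * M := by
      have : (j : ℝ) ≤ ((4 * M : ℕ) : ℝ) := by exact_mod_cast hj2.le
      push_cast at this; exact this
    have hj5 : (2 * M : ℝ) ≤ j := by
      have : ((2 * M : ℕ) : ℝ) ≤ j := by exact_mod_cast hj3
      push_cast at this; exact this
    have s1 := le_Nop (j := j) (by omega) (w := fun i => S + (-1) * a i)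
      (fun i hi => by have := hS i (by omega); linarith) (Finset.Icc (2 * M) (3 * M))
      (fun i hi => by rw [Finset.mem_Icc] at hi; omega)
    rw [Nop_add, Nop_const, Nop_smul, Finset.sum_add_distrib, ← Finset.mul_sum, hA,
      Finset.sum_const, Nat.card_Icc, nsmul_eq_mul] at s1
    have e : 3 * M + 1 - 2 * M = M + 1 := by omega
    rw [e] at s1
    push_cast at s1
    have t1 := hup j (by omega)
    have h0 : 0 ≤ S + -1 * Nop a j := by
      by_contra hneg
      push Not at hneg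
      have h1 : 5 * (j : ℝ) * (S + -1 * Nop a j) < 0 := mul_neg_of_pos_of_neg (by linarith) hneg
      have h2 : 0 ≤ ((M : ℝ) + 1) * (S - A) := mul_nonneg (by linarith) (by linarith)
      linarith
    have h3 : 5 * (j : ℝ) * (S + -1 * Nop a j) ≤ 20 * M * (S + -1 * Nop a j) :=
      mul_le_mul_of_nonneg_right (by linarith) h0
    have h4 : (M : ℝ) * (S - A) ≤ ((M : ℝ) + 1) * (S - A) :=
      mul_le_mul_of_nonneg_right (by linarith) (by linarith)
    have h5 : (M : ℝ) * (S - A) ≤ M * (20 * (S + -1 * Nop a j)) := by linarith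
    have h6 : S - A ≤ 20 * (S + -1 * Nop a j) := le_of_mul_le_mul_left h5 (by linarith)
    have h7 : 8 / √(j : ℝ) ≤ 6 / √M := by
      have hsj := sqrt_nat_pos (J := j) (by omega)
      rw [div_le_div_iff₀ hsj hsM]
      have h8 : 4 / 3 * √(M : ℝ) ≤ √(j : ℝ) := by
        apply le_of_sq_le_sq _ (by positivity)
        rw [mul_pow, Real.sq_sqrt (by positivity), Real.sq_sqrt (by positivity)]
        linarith
      linarith
    linarith
  have hcmp := upper_comparison (a := a) (J := 4 * M) (by omega) ha1 hblock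
    (fun j hj => hup j (by omega))
  intro j hj
  have h1 := hcmp j (by omega)
  have h2 : 600 / √((4 * M : ℕ) : ℝ) = 300 / √M := by
    have : √((4 * M : ℕ) : ℝ) = 2 * √(M : ℝ) := by
      push_cast
      rw [Real.sqrt_mul (by norm_num), show (4 : ℝ) = 2 ^ 2 by norm_num,
        Real.sqrt_sq (by norm_num)]
    rw [this]
    field_simp
    norm_num
  rw [h2] at h1
  have h3 : 306 / √(M : ℝ) = 300 / √M + 6 / √M := by rw [← add_div]; norm_num
  linarith

/-- One step of the contraction. -/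
lemma step_osc {a : ℕ → ℝ} {M : ℕ} {S I : ℝ} (hM : 200 ≤ M) (ha0 : ∀ i, 0 ≤ a i)
    (ha1 : ∀ i, a i ≤ 1) (hS : ∀ i, M ≤ i → I ≤ a i ∧ a i ≤ S)
    (hup : ∀ j, 200 ≤ j → a j ≤ Nop a j + 8 / √j)
    (hlo : ∀ j, 200 ≤ j → Nop a j ≤ a j + 8 / √j) :
    ∃ I' S' : ℝ, (∀ i, 2 * M ≤ i → I' ≤ a i ∧ a i ≤ S') ∧
      S' - I' ≤ 19 / 20 * (S - I) + 612 / √M := by
  have hMr : (200 : ℝ) ≤ M := by exact_mod_cast hM
  set A := (∑ i ∈ Finset.Icc (2 * M) (3 * M), a i) / ((M : ℝ) + 1) with hA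
  have hA' : ∑ i ∈ Finset.Icc (2 * M) (3 * M), a i = ((M : ℝ) + 1) * A := by
    rw [hA]; field_simp
  have h1 := step_upper hM ha1 (fun i hi => (hS i hi).2) hup hA'
  have hup' : ∀ j, 200 ≤ j → (1 - a j) ≤ Nop (fun i => 1 - a i) j + 8 / √j := by
    intro j hj
    have e : Nop (fun i => 1 - a i) j = 1 - Nop a j := by
      have : (fun i => 1 - a i) = fun i => 1 + (-1) * a i := by funext i; ring
      rw [this, Nop_add, Nop_const, Nop_smul]; ring
    have := hlo j hj
    linarith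
  have hA2 : ∑ i ∈ Finset.Icc (2 * M) (3 * M), (1 - a i) = ((M : ℝ) + 1) * (1 - A) := by
    rw [Finset.sum_sub_distrib, hA', Finset.sum_const, Nat.card_Icc, nsmul_eq_mul]
    have e : 3 * M + 1 - 2 * M = M + 1 := by omega
    rw [e]
    push_cast
    ring
  have h2 := step_upper (a := fun i => 1 - a i) (S := 1 - I) hM (fun i => by linarith [ha0 i])
    (fun i hi => by linarith [(hS i hi).1]) hup' hA2
  refine ⟨19 / 20 * I + 1 / 20 * A - 306 / √M, 19 / 20 * S + 1 / 20 * A + 306 / √M,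
    fun i hi => ⟨?_, h1 i hi⟩, ?_⟩
  · have := h2 i hi
    linarith
  · have h3 : 612 / √(M : ℝ) = 306 / √M + 306 / √M := by rw [← add_div]; norm_num
    linarith

/-- The oscillation beyond `200 * 2 ^ k`. -/
lemma osc_pow {a : ℕ → ℝ} (ha0 : ∀ i, 0 ≤ a i) (ha1 : ∀ i, a i ≤ 1)
    (hup : ∀ j, 200 ≤ j → a j ≤ Nop a j + 8 / √j)
    (hlo : ∀ j, 200 ≤ j → Nop a j ≤ a j + 8 / √j) (k : ℕ) :
    ∃ I S : ℝ, (∀ i, 200 * 2 ^ k ≤ i → I ≤ a i ∧ a i ≤ S) ∧
      S - I ≤ 184 * (19 / 20) ^ k - 183 * (71 / 100) ^ k := by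
  induction k with
  | zero => exact ⟨0, 1, fun i _ => ⟨ha0 i, ha1 i⟩, by norm_num⟩
  | succ k ih =>
    obtain ⟨I, S, h1, h2⟩ := ih
    have hM : 200 ≤ 200 * 2 ^ k := Nat.le_mul_of_pos_right _ (by positivity)
    obtain ⟨I', S', h3, h4⟩ := step_osc hM ha0 ha1 h1 hup hlo
    refine ⟨I', S', fun i hi => h3 i (by rw [pow_succ] at hi; omega), ?_⟩
    have h5 : 612 / √((200 * 2 ^ k : ℕ) : ℝ) ≤ 612 / 14 * (71 / 100) ^ k := by
      have h6 : 14 * (100 / 71) ^ k ≤ √((200 * 2 ^ k : ℕ) : ℝ) := by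
        apply Real.le_sqrt_of_sq_le
        push_cast
        rw [mul_pow, ← pow_mul, mul_comm k 2, pow_mul]
        have h7 : ((100 / 71 : ℝ) ^ 2) ^ k ≤ 2 ^ k := pow_le_pow_left₀ (by positivity) (by norm_num) k
        nlinarith [pow_pos (show (0 : ℝ) < (100 / 71) ^ 2 by norm_num) k]
      have h8 : 0 < 14 * (100 / 71 : ℝ) ^ k := by positivity
      calc 612 / √((200 * 2 ^ k : ℕ) : ℝ) ≤ 612 / (14 * (100 / 71) ^ k) :=
            div_le_div_of_nonneg_left (by norm_num) h8 h6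
        _ = 612 / 14 * (71 / 100) ^ k := by
            rw [← div_div]
            rw [div_eq_mul_inv (612 / 14 : ℝ), ← inv_pow]
            norm_num
    have h9 : (0 : ℝ) < (71 / 100) ^ k := by positivity
    rw [pow_succ, pow_succ]
    linarith

lemma rpow_seven_le {x y : ℝ} (hx : 0 ≤ x) (hy : 0 ≤ y) (h : x ^ 7 ≤ y ^ 100) :
    x ^ (7 / 100 : ℝ) ≤ y := by
  refine le_of_pow_le_pow_left₀ (n := 100) (by norm_num) hy ?_
  rw [← Real.rpow_natCast, ← Real.rpow_mul hx]
  have e : (7 / 100 : ℝ) * ((100 : ℕ) : ℝ) = ((7 : ℕ) : ℝ) := by norm_num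
  rw [e, Real.rpow_natCast]
  exact h

/-- Conversion of a geometric rate into a power. -/
lemma geom_le_rpow {x : ℝ} (hx : 0 < x) {k : ℕ} (h : x ≤ 400 * 2 ^ k) :
    (19 / 20 : ℝ) ^ k ≤ 2 * x ^ (-(7 / 100) : ℝ) := by
  have h1 : x ^ (7 / 100 : ℝ) ≤ (400 * 2 ^ k) ^ (7 / 100 : ℝ) :=
    Real.rpow_le_rpow hx.le h (by norm_num)
  have h2 : (400 : ℝ) ^ (7 / 100 : ℝ) ≤ 2 := rpow_seven_le (by norm_num) (by norm_num) (by norm_num)
  have h3 : ((2 : ℝ) ^ k) ^ (7 / 100 : ℝ) ≤ (20 / 19) ^ k := by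
    apply rpow_seven_le (by positivity) (by positivity)
    rw [← pow_mul, ← pow_mul, mul_comm k 7, mul_comm k 100, pow_mul, pow_mul]
    exact pow_le_pow_left₀ (by norm_num) (by norm_num) k
  rw [Real.mul_rpow (by norm_num) (by positivity)] at h1
  have h4 : x ^ (7 / 100 : ℝ) ≤ 2 * (20 / 19) ^ k :=
    h1.trans (mul_le_mul h2 h3 (by positivity) (by norm_num))
  have hp : 0 < x ^ (7 / 100 : ℝ) := Real.rpow_pos_of_pos hx _
  rw [Real.rpow_neg hx.le, ← div_eq_mul_inv, le_div_iff₀ hp]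
  calc (19 / 20 : ℝ) ^ k * x ^ (7 / 100 : ℝ) ≤ (19 / 20) ^ k * (2 * (20 / 19) ^ k) :=
        mul_le_mul_of_nonneg_left h4 (by positivity)
    _ = 2 * ((19 / 20) * (20 / 19)) ^ k := by rw [mul_pow]; ring
    _ = 2 := by norm_num

/-- **Power rate** for almost harmonic sequences. -/
theorem rate {a : ℕ → ℝ} (ha0 : ∀ i, 0 ≤ a i) (ha1 : ∀ i, a i ≤ 1)
    (hup : ∀ j, 200 ≤ j → a j ≤ Nop a j + 8 / √j)
    (hlo : ∀ j, 200 ≤ j → Nop a j ≤ a j + 8 / √j) {d : ℝ} (hd : Tendsto a atTop (𝓝 d))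
    {j : ℕ} (hj : 1 ≤ j) : |a j - d| ≤ 368 * (j : ℝ) ^ (-(7 / 100) : ℝ) := by
  have hd0 : 0 ≤ d := ge_of_tendsto' hd ha0
  have hd1 : d ≤ 1 := le_of_tendsto' hd ha1
  have hjr : (1 : ℝ) ≤ j := by exact_mod_cast hj
  have hj0 : (0 : ℝ) < j := by linarith
  rcases lt_or_ge j 200 with hsm | hlg
  · have h1 : |a j - d| ≤ 1 := by
      rw [abs_le]; constructor <;> linarith [ha0 j, ha1 j]
    have hj2 : (j : ℝ) < 200 := by exact_mod_cast hsm
    have h2 := geom_le_rpow hj0 (k := 0) (by norm_num; linarith)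
    rw [pow_zero] at h2
    linarith
  · set k := Nat.log 2 (j / 200) with hk
    have h1 : 2 ^ k ≤ j / 200 := Nat.pow_log_le_self 2 (by omega)
    have h2 : j / 200 < 2 ^ (k + 1) := Nat.lt_pow_succ_log_self (by norm_num) _
    have h3 : 200 * 2 ^ k ≤ j := by omega
    have h4 : j ≤ 400 * 2 ^ k := by rw [pow_succ] at h2; omega
    obtain ⟨I, S, h5, h6⟩ := osc_pow ha0 ha1 hup hlo k
    have h7 : I ≤ d := by
      refine ge_of_tendsto hd ?_
      filter_upwards [eventually_ge_atTop (200 * 2 ^ k)] with i hi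
      exact (h5 i hi).1
    have h8 : d ≤ S := by
      refine le_of_tendsto hd ?_
      filter_upwards [eventually_ge_atTop (200 * 2 ^ k)] with i hi
      exact (h5 i hi).2
    have h9 := h5 j h3
    have h10 : |a j - d| ≤ S - I := by
      rw [abs_le]; constructor <;> linarith [h9.1, h9.2]
    have h11 := geom_le_rpow hj0 (k := k) (by exact_mod_cast h4)
    have h12 : (0 : ℝ) < (71 / 100) ^ k := by positivity
    linarith

/-- The window masses of a completely invariant set. -/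
theorem mass_rate {B : Set ℝ} (hBm : MeasurableSet B) (hB : CInv B) {d : ℝ}
    (hd : Tendsto (mass B) atTop (𝓝 d)) {j : ℕ} (hj : 1 ≤ j) :
    |mass B j - d| ≤ 368 * (j : ℝ) ^ (-(7 / 100) : ℝ) :=
  rate (mass_nonneg B) (mass_le_one B) (fun _ hj => mass_le_Nop hj hBm hB.fwd)
    (fun _ hj => mass_two_sided hBm hB hj) hd hj

/-- Lower bound on intervals. -/
lemma interval_rate_lower {B : Set ℝ} (hBm : MeasurableSet B) (hB : CInv B) {d : ℝ}
    (hd : Tendsto (mass B) atTop (𝓝 d)) {t h : ℝ} (ht : 400 ≤ t) (hh : 0 ≤ h) :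
    d * h - 500 * (h * t ^ (-(7 / 100) : ℝ) + 1 / √t) ≤ (volume (B ∩ Icc t (t + h))).toReal := by
  have hd0 : 0 ≤ d := ge_of_tendsto' hd (mass_nonneg B)
  have hd1 : d ≤ 1 := le_of_tendsto' hd (mass_le_one B)
  have ht0 : 0 < t := by linarith
  set N := ⌊t⌋₊ with hN
  have hN0 : 400 ≤ N := Nat.le_floor (by push_cast; exact ht)
  have hN1 : (N : ℝ) ≤ t := Nat.floor_le ht0.le
  have hN2 : t < N + 1 := Nat.lt_floor_add_one t
  have hNr : (400 : ℝ) ≤ N := by exact_mod_cast hN0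
  set ρ := 430 * t ^ (-(7 / 100) : ℝ) with hρ
  have hτ : 0 < t ^ (-(7 / 100) : ℝ) := Real.rpow_pos_of_pos ht0 _
  have hρ0 : 0 ≤ ρ := by positivity
  set δ := max (d - ρ) 0 with hδ
  have hδ0 : 0 ≤ δ := le_max_right _ _
  have hδ1 : δ ≤ 1 := max_le (by linarith) zero_le_one
  have hmk : ∀ k : ℕ, N ≤ 4 * k + 4 → δ ≤ mass B k := by
    intro k hk
    apply max_le _ (mass_nonneg B k)
    have hk1 : 1 ≤ k := by omega
    have h1 := (abs_le.1 (mass_rate hBm hB hd hk1)).1
    have hkr : t / 5 ≤ k := by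
      have : (N : ℝ) ≤ 4 * k + 4 := by exact_mod_cast hk
      linarith
    have h2 : (k : ℝ) ^ (-(7 / 100) : ℝ) ≤ 7 / 6 * t ^ (-(7 / 100) : ℝ) := by
      have h3 : (k : ℝ) ^ (-(7 / 100) : ℝ) ≤ (t / 5) ^ (-(7 / 100) : ℝ) :=
        Real.rpow_le_rpow_of_nonpos (by positivity) hkr (by norm_num)
      refine h3.trans ?_
      rw [Real.div_rpow ht0.le (by norm_num), Real.rpow_neg (show (0 : ℝ) ≤ 5 by norm_num),
        div_inv_eq_mul, mul_comm]
      exact mul_le_mul_of_nonneg_right (rpow_seven_le (by norm_num) (by norm_num) (by norm_num))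
        hτ.le
    have h3 : 368 * (k : ℝ) ^ (-(7 / 100) : ℝ) ≤ ρ := by
      rw [hρ]; linarith
    linarith
  set m : ℕ := ⌈h⌉₊ + 1 with hm
  have h4 := interval_lower_long (N := N) hN0 hBm hB.bwd hδ0 hδ1 hmk m t (t + h) hN1 (by linarith)
    (by have := Nat.le_ceil h; rw [hm]; push_cast; linarith)
  rw [integral_ind hBm (by linarith), add_sub_cancel_left] at h4
  have h5 : (m : ℝ) ≤ h + 2 := by
    have := (Nat.ceil_lt_add_one hh).le
    rw [hm]; push_cast; linarith
  have hst : 0 < √t := Real.sqrt_pos.2 ht0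
  have hsN := sqrt_nat_pos (J := N) (by omega)
  have h6 : 30 / √(N : ℝ) ≤ 31 * (1 / √t) := by
    rw [mul_one_div, div_le_div_iff₀ hsN hst]
    apply le_of_sq_le_sq _ (by positivity)
    rw [mul_pow, mul_pow, Real.sq_sqrt (by positivity), Real.sq_sqrt (by positivity)]
    linarith
  have h7 : (m : ℝ) * (30 / √(N : ℝ)) ≤ (h + 2) * (31 * (1 / √t)) :=
    mul_le_mul h5 h6 (by positivity) (by linarith)
  have h8 : 1 / √t ≤ t ^ (-(7 / 100) : ℝ) := by
    rw [Real.sqrt_eq_rpow, one_div, ← Real.rpow_neg ht0.le]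
    exact Real.rpow_le_rpow_of_exponent_le (by linarith) (by norm_num)
  have h9 : h * (1 / √t) ≤ h * t ^ (-(7 / 100) : ℝ) := mul_le_mul_of_nonneg_left h8 hh
  have h10 : (d - ρ) * h ≤ δ * h := mul_le_mul_of_nonneg_right (le_max_left _ _) hh
  have h11 : 0 ≤ h * t ^ (-(7 / 100) : ℝ) := by positivity
  have h12 : 0 < 1 / √t := by positivity
  have h13 : ρ * h = 430 * (h * t ^ (-(7 / 100) : ℝ)) := by rw [hρ]; ring
  nlinarith

/-- **Power rate on all intervals.** -/
theorem interval_rate {B : Set ℝ} (hBm : MeasurableSet B) (hB : CInv B) {d : ℝ}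
    (hd : Tendsto (mass B) atTop (𝓝 d)) {t h : ℝ} (ht : 1 ≤ t) (hh : 0 ≤ h) :
    |(volume (B ∩ Icc t (t + h))).toReal - d * h| ≤
      500 * (h * t ^ (-(7 / 100) : ℝ) + 1 / √t) := by
  have hd0 : 0 ≤ d := ge_of_tendsto' hd (mass_nonneg B)
  have hd1 : d ≤ 1 := le_of_tendsto' hd (mass_le_one B)
  have ht0 : 0 < t := by linarith
  have hsum : (volume (B ∩ Icc t (t + h))).toReal +
      (volume (Bᶜ ∩ Icc t (t + h))).toReal = h := by
    have h1 : volume (B ∩ Icc t (t + h)) + volume (Bᶜ ∩ Icc t (t + h)) = ENNReal.ofReal h := by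
      have := measure_inter_add_sdiff (μ := volume) (Icc t (t + h)) hBm
      rw [Real.volume_Icc] at this
      rw [inter_comm B, inter_comm Bᶜ, ← sdiff_eq, this]
      congr 1; ring
    have hf1 : volume (B ∩ Icc t (t + h)) < ⊤ :=
      (measure_mono inter_subset_right).trans_lt (by simp)
    have hf2 : volume (Bᶜ ∩ Icc t (t + h)) < ⊤ :=
      (measure_mono inter_subset_right).trans_lt (by simp)
    rw [← ENNReal.toReal_add hf1.ne hf2.ne, h1, ENNReal.toReal_ofReal hh]
  have hst : 0 < √t := Real.sqrt_pos.2 ht0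
  have h12 : 0 < 1 / √t := by positivity
  rcases lt_or_ge t 400 with hsm | hlg
  · have h1 : (1 / 2 : ℝ) ≤ t ^ (-(7 / 100) : ℝ) := by
      have h2 := geom_le_rpow ht0 (k := 0) (by norm_num; linarith)
      rw [pow_zero] at h2
      linarith
    have h2 : h * (1 / 2) ≤ h * t ^ (-(7 / 100) : ℝ) := mul_le_mul_of_nonneg_left h1 hh
    have h3 : (0 : ℝ) ≤ (volume (B ∩ Icc t (t + h))).toReal := ENNReal.toReal_nonneg
    have h4 : (0 : ℝ) ≤ (volume (Bᶜ ∩ Icc t (t + h))).toReal := ENNReal.toReal_nonneg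
    have h5 : d * h ≤ 1 * h := mul_le_mul_of_nonneg_right hd1 hh
    have h6 : 0 ≤ d * h := mul_nonneg hd0 hh
    rw [abs_le]
    constructor <;> nlinarith
  · have h1 := interval_rate_lower hBm hB hd hlg hh
    have hd' : Tendsto (mass Bᶜ) atTop (𝓝 (1 - d)) := by
      have e : mass Bᶜ = fun k => 1 - mass B k := funext fun k => mass_compl hBm k
      rw [e]
      exact tendsto_const_nhds.sub hd
    have h2 := interval_rate_lower hBm.compl hB.compl hd' hlg hh
    rw [abs_le]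
    constructor <;> linarith

/-- **Power rate on `[0, X]`.** -/
theorem natural_rate {B : Set ℝ} (hBm : MeasurableSet B) (hB : CInv B) {d : ℝ}
    (hd : Tendsto (mass B) atTop (𝓝 d)) {X : ℝ} (hX : 1 ≤ X) :
    |(volume (B ∩ Icc 0 X)).toReal - d * X| ≤ 1200 * X ^ (93 / 100 : ℝ) := by
  have hd0 : 0 ≤ d := ge_of_tendsto' hd (mass_nonneg B)
  have hd1 : d ≤ 1 := le_of_tendsto' hd (mass_le_one B)
  have hii : ∀ a b : ℝ, IntervalIntegrable (fun x => B.indicator (1 : ℝ → ℝ) x) volume a b := by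
    intro a b
    rw [intervalIntegrable_iff]
    exact integrableOn_ind hBm (by simp [uIoc])
  have key : ∀ k : ℕ, ∀ X : ℝ, 2 ^ k ≤ X → X < 2 ^ (k + 1) →
      |(volume (B ∩ Icc 0 X)).toReal - d * X| ≤ 1200 * X ^ (93 / 100 : ℝ) := by
    intro k
    induction k with
    | zero =>
      intro X h1 h2
      rw [pow_zero] at h1
      rw [zero_add, pow_one] at h2
      have h3 : (volume (B ∩ Icc 0 X)).toReal ≤ X := by
        have h4 := ENNReal.toReal_mono (by simp) (measure_mono (μ := volume)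
          (inter_subset_right : B ∩ Icc 0 X ⊆ Icc 0 X))
        rw [Real.volume_Icc, ENNReal.toReal_ofReal (by linarith)] at h4
        linarith
      have h4 : (0 : ℝ) ≤ (volume (B ∩ Icc 0 X)).toReal := ENNReal.toReal_nonneg
      have h5 : 1 ≤ X ^ (93 / 100 : ℝ) := Real.one_le_rpow h1 (by norm_num)
      have h6 : d * X ≤ 1 * X := mul_le_mul_of_nonneg_right hd1 (by linarith)
      have h7 : 0 ≤ d * X := mul_nonneg hd0 (by linarith)
      rw [abs_le]
      constructor <;> linarith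
    | succ k ih =>
      intro X h1 h2
      have hk1 : (1 : ℝ) ≤ 2 ^ k := one_le_pow₀ (by norm_num)
      rw [pow_succ] at h1
      rw [pow_succ] at h2
      have hY1 : (2 : ℝ) ^ k ≤ X / 2 := by linarith
      have hY2 : X / 2 < 2 ^ (k + 1) := by linarith
      have hY : 1 ≤ X / 2 := hk1.trans hY1
      have h3 := ih (X / 2) hY1 hY2
      have h4 := interval_rate hBm hB hd hY (h := X / 2) (by linarith)
      have e : X / 2 + X / 2 = X := by ring
      rw [e] at h4
      have h5 : (volume (B ∩ Icc 0 X)).toReal =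
          (volume (B ∩ Icc 0 (X / 2))).toReal + (volume (B ∩ Icc (X / 2) X)).toReal := by
        rw [← integral_ind hBm (by linarith), ← integral_ind hBm (by linarith),
          ← integral_ind hBm (by linarith),
          intervalIntegral.integral_add_adjacent_intervals (hii _ _) (hii _ _)]
      have hY0 : 0 < X / 2 := by linarith
      have h6 : X / 2 * (X / 2) ^ (-(7 / 100) : ℝ) = (X / 2) ^ (93 / 100 : ℝ) := by
        have h8 := Real.rpow_add hY0 1 (-(7 / 100))
        rw [Real.rpow_one] at h8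
        rw [← h8]
        norm_num
      have h7 : 1 / √(X / 2) ≤ (X / 2) ^ (93 / 100 : ℝ) := by
        have h8 : 1 ≤ √(X / 2) := Real.one_le_sqrt.2 hY
        have h9 : 1 / √(X / 2) ≤ 1 := by rw [div_le_one (by linarith)]; exact h8
        exact h9.trans (Real.one_le_rpow hY (by norm_num))
      have h8 : (X / 2) ^ (93 / 100 : ℝ) ≤ 6 / 11 * X ^ (93 / 100 : ℝ) := by
        rw [Real.div_rpow (by linarith) (by norm_num), div_le_iff₀ (by positivity)]
        have h9 : (11 / 6 : ℝ) ≤ 2 ^ (93 / 100 : ℝ) := by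
          refine le_of_pow_le_pow_left₀ (n := 100) (by norm_num) (by positivity) ?_
          rw [← Real.rpow_natCast (2 ^ (93 / 100 : ℝ)), ← Real.rpow_mul (by norm_num)]
          have e : (93 / 100 : ℝ) * ((100 : ℕ) : ℝ) = ((93 : ℕ) : ℝ) := by norm_num
          rw [e, Real.rpow_natCast]
          norm_num
        have h10 : 0 ≤ X ^ (93 / 100 : ℝ) := Real.rpow_nonneg (by linarith) _
        nlinarith
      rw [h6] at h4
      rw [h5]
      rw [abs_le] at h3 h4 ⊢
      constructor <;> linarith [h3.1, h3.2, h4.1, h4.2]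
  obtain ⟨k, hk1, hk2⟩ := exists_nat_pow_near hX (show (1 : ℝ) < 2 by norm_num)
  exact key k X hk1 hk2

end Pool.Agent.Lib.MP_a247fa_nt.Dens
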